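import Pool.Agent.W_7d29a1_VT.DefsT10
import Pool.Agent.W_7d29a1_D2.TrF53

/-!
`2 χ ≤ ν` for the exponents of the problem itself: the tube in probability, the transfer to the
given environment and the exponents.
-/

namespace Pool.Agent.W_7d29a1_VT

open MeasureTheory ProbabilityTheory Filter Topology Pool.Agent.W_MP_7d29a1_pr
  Pool.Agent.W_7d29a1_h46 Pool.Agent.W_7d29a1_h46u Pool.Agent.W_7d29a1_D2
  Pool.Agent.W_7d29a1_D2.B35 Pool.Agent.W_7d29a1_V

variable {d : ℕ} {Ω : Type*} [MeasurableSpace Ω] {μ : Measure Ω} [IsProbabilityMeasure μ]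
  {ρ : Measure ℝ} [IsProbabilityMeasure ρ] {ω : ℕ × Site d → Ω → ℝ} {β : ℝ} {h v : Vec d}

/-- T1: the tube in probability, from the definition of the exponent of the problem. -/
theorem tbP53 (hd : 0 < d) (hω : IID μ ρ ω) {a : ℝ} (ha : nuT μ β ω h v < a) :
    TbP ρ β h v a := by
  intro δ hδ
  set κ : ℝ := min (1 / 2) δ with hκd
  have hκ : 0 < κ := lt_min (by norm_num) hδ
  have hκ2 : κ ≤ 1 / 2 := min_le_left _ _
  have hκδ : κ ≤ δ := min_le_right _ _
  obtain ⟨n₀, hn₀⟩ := exists_n0T hd hω.meas (β := β) (h := h) (v := v) ha hκ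
  refine ⟨n₀, fun n hn => ?_⟩
  have hSm : MeasurableSet {η : Env d | ¬ (1 - κ ≤
      PolT β h η (tube d n v ((n : ℝ) ^ a)))} :=
    (measurableSet_le measurable_const (measurable_PolT β h _)).compl
  have hP : (law d ρ).real {η | ¬ (1 - κ ≤ PolT β h η (tube d n v ((n : ℝ) ^ a)))} ≤ κ := by
    rw [← (mp_env hω).measureReal_preimage hSm.nullMeasurableSet]
    exact hn₀ n hn
  refine (measureReal_mono ?_).trans (hP.trans hκδ)
  intro η hη hcon
  rw [Set.mem_ofPred_eq] at hη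
  linarith

/-- The variance of the problem in the model law. -/
lemma var_eq53 (hd : 0 < d) (hω : IID μ ρ ω) (hρ : EM ρ) (β : ℝ) (h : Vec d) (n : ℕ) :
    Var[fun y => Real.log (Zn β h (fun p => ω p y) n); μ] =
      ∫ η, |X β h η n - A ρ β h n| ^ 2 ∂(law d ρ) := by
  rw [variance_eq_integral (VarU_measurable β h n hω).aemeasurable,
    ← StrA_mom hd hω hρ]
  simp only [sq_abs]

/-- If `∫ |X - A| ^ 2 ≤ n ^ (2 x)` for every `a` above `ν` and `x > a / 2`, then the same for the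
variance of the problem and `x > ν / 2`. -/
theorem var_le53 (hd : 0 < d) (hω : IID μ ρ ω) (hρ : EM ρ)
    (hV : ∀ a : ℝ, 0 < a → a < 1 → TbP ρ β h v a → VarT ρ β h a) {x : ℝ}
    (hx : nuT μ β ω h v / 2 < x) :
    ∀ᶠ n : ℕ in atTop, Var[fun y => Real.log (Zn β h (fun p => ω p y) n); μ] ≤
      (n : ℝ) ^ (2 * x) := by
  have h0 : 0 ≤ nuT μ β ω h v := Real.sInf_nonneg fun b hb => hb.1.le
  rcases lt_or_ge (1 / 2) x with hx2 | hx2
  · obtain ⟨-, hF⟩ := (mem_chiSetF (μ := μ) (β := β) hd hω hρ h (1 / 2)).1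
      (half_mem_chiSetF hd hω hρ h)
    obtain ⟨C, hC⟩ := hF 2
    have ht : Tendsto (fun n : ℕ => (n : ℝ) ^ (2 * x - 1)) atTop atTop :=
      (tendsto_rpow_atTop (by linarith)).comp tendsto_natCast_atTop_atTop
    filter_upwards [ht.eventually_ge_atTop C, eventually_ge_atTop 1] with n hn hn1
    have hn0 : (0 : ℝ) < n := by exact_mod_cast hn1
    rw [var_eq53 hd hω hρ]
    refine (hC n hn1).trans ?_
    have h1 : (n : ℝ) ^ (1 / 2 * ((2 : ℕ) : ℝ)) = n := by
      rw [show (1 / 2 * ((2 : ℕ) : ℝ)) = 1 by norm_num, Real.rpow_one]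
    have h2 : (n : ℝ) ^ (2 * x) = (n : ℝ) ^ (2 * x - 1) * n := by
      conv_rhs => rw [← Real.rpow_one (n : ℝ)]
      rw [Real.rpow_one, ← Real.rpow_add_one hn0.ne']
      congr 1
      ring
    rw [h1, h2]
    exact mul_le_mul_of_nonneg_right hn hn0.le
  · obtain ⟨a, ha1, ha2⟩ := exists_between (show nuT μ β ω h v < 2 * x by linarith)
    have ha0 : 0 < a := lt_of_le_of_lt h0 ha1
    obtain ⟨n₀, hn₀⟩ := hV a ha0 (by linarith) (tbP53 hd hω ha1) x (by linarith)
    filter_upwards [eventually_ge_atTop n₀] with n hn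
    rw [var_eq53 hd hω hρ]
    exact hn₀ n hn

/-- `2 χ ≤ ν` for the exponents of the problem, from the variance bound. -/
theorem chi_le53 (hd : 0 < d) (hω : IID μ ρ ω) (hρ : EM ρ)
    (hV : ∀ a : ℝ, 0 < a → a < 1 → TbP ρ β h v a → VarT ρ β h a) :
    2 * chiT μ β ω h ≤ nuT μ β ω h v := by
  have h0 : 0 ≤ nuT μ β ω h v := Real.sInf_nonneg fun b hb => hb.1.le
  suffices hs : chiT μ β ω h ≤ nuT μ β ω h v / 2 by linarith
  refine le_of_forall_gt_imp_ge_of_dense fun x hx => ?_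
  have hev := var_le53 (β := β) (h := h) (v := v) hd hω hρ hV hx
  unfold chiT
  rcases Set.eq_empty_or_nonempty {x : ℝ | 0 < x ∧ ∀ᶠ n : ℕ in Filter.atTop,
    (n : ℝ) ^ (2 * x) ≤ Var[fun y => Real.log (Zn β h (fun p => ω p y) n); μ]} with hT | hT
  · rw [hT, Real.sSup_empty]
    linarith
  · refine csSup_le hT ?_
    rintro y ⟨hy0, hy⟩
    by_contra hcon
    have hxy : x < y := not_le.1 hcon
    obtain ⟨n, hn1, hn2, hn3⟩ := (hev.and (hy.and (eventually_ge_atTop 2))).exists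
    have hn0 : (1 : ℝ) < n := by exact_mod_cast hn3
    have h3 := Real.rpow_lt_rpow_of_exponent_lt hn0 (show 2 * x < 2 * y by linarith)
    linarith

end Pool.Agent.W_7d29a1_VT
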