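import Pool.Agent.W_7d29a1_VT.DefsT10
import Pool.Agent.W_7d29a1_V.Rch48
import Pool.Agent.W_7d29a1_V.Space36
import Pool.Agent.W_7d29a1_V.NuLow34

/-!
# The typical values of the free energy are nearly subadditive
-/

namespace Pool.Agent.W_7d29a1_VT

open MeasureTheory ProbabilityTheory Filter Topology Pool.Agent.W_MP_7d29a1_pr
  Pool.Agent.W_7d29a1_h46 Pool.Agent.W_7d29a1_h46u Pool.Agent.W_7d29a1_D2
  Pool.Agent.W_7d29a1_D2.B35 Pool.Agent.W_7d29a1_V Pool.Agent.W_7d29a1_V.R48

namespace Add36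

variable {d : ℕ}

/-- Walks which pass through a set of sites at the time `i`. -/
lemma slice36 (β : ℝ) (h : Vec d) (η : Env d) (i l : ℕ) {T : Set (Fin (i + l) → Step d)}
    (N : Set (Site d)) (hT : ∀ s ∈ T, pos s i ∈ N) {B : ℝ} (hB0 : 0 ≤ B)
    (hB : ∀ x ∈ boxF d i, x ∈ N → Z β h (sh i x η) l ≤ B) :
    ZT β h η T ≤ Z β h η i * B := by
  classical
  unfold ZT
  rw [sum_glue, Z_eq, Finset.sum_mul]
  refine Finset.sum_le_sum fun a _ => ?_
  by_cases ha : pos a i ∈ N
  · have h1 : ∑ b : Fin l → Step d,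
        (if Fin.append a b ∈ T then wgt β h η (Fin.append a b) else 0) ≤
        ∑ b : Fin l → Step d, wgt β h η a * wgt β h (sh i (pos a i) η) b := by
      refine Finset.sum_le_sum fun b _ => ?_
      rw [← wgt_glue]
      split_ifs
      · exact le_rfl
      · exact (wgt_pos _ _ _ _).le
    refine h1.trans ?_
    rw [← Finset.mul_sum, ← Z_eq]
    exact mul_le_mul_of_nonneg_left (hB _ (pos_mem_box a i) ha) (wgt_pos _ _ _ _).le
  · refine le_trans (le_of_eq (Finset.sum_eq_zero fun b _ => if_neg fun hb => ha ?_))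
      (mul_nonneg (wgt_pos _ _ _ _).le hB0)
    have h2 := hT _ hb
    rwa [pos_glue_le a b le_rfl] at h2

/-- One splitting at the time `i`, in a good tube. -/
lemma step36 (hd : 0 < d) (β : ℝ) (h v : Vec d) (η : Env d) (i l n : ℕ) (hil : i + l = n)
    {r F : ℝ} (hP : 1 / 2 ≤ PolT β h η (tube d n v r))
    (hF : ∀ x ∈ boxF d i, ‖emb x - (i : ℝ) • v‖ ≤ r → X β h (sh i x η) l ≤ F) :
    X β h η n ≤ Real.log 2 + X β h η i + F := by
  subst hil
  have hZ : 0 < ZT β h η (Set.univ : Set (Fin (i + l) → Step d)) := ZT_univ_pos hd β h η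
  have h0 : 0 < ZT β h η (tube d (i + l) v r) := by
    have h1 : 1 / 2 * ZT β h η (Set.univ : Set (Fin (i + l) → Step d)) ≤
        ZT β h η (tube d (i + l) v r) := by
      unfold PolT at hP
      rwa [le_div_iff₀ hZ] at hP
    exact lt_of_lt_of_le (by positivity) h1
  have h1 := (NuLow34.log_tube_near hd hP).1
  have h2 : ZT β h η (tube d (i + l) v r) ≤ Z β h η i * Real.exp F := by
    refine slice36 β h η i l (T := tube d (i + l) v r) {x | ‖emb x - (i : ℝ) • v‖ ≤ r}
      (fun s hs => hs i (Nat.le_add_right i l)) (Real.exp_pos F).le fun x hx hxN => ?_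
    rw [TubV_exp hd β h (sh i x η) l]
    exact Real.exp_le_exp.2 (hF x hx hxN)
  have h3 := Real.log_le_log h0 h2
  rw [Real.log_mul (Z_pos hd β h η i).ne' (Real.exp_pos F).ne', Real.log_exp] at h3
  have h4 : Real.log (Z β h η i) = X β h η i := rfl
  rw [h4] at h3
  linarith

/-- Moving one coordinate after the other. -/
lemma chain36 {g : Site d → ℝ} {R D : ℕ} {s : ℝ}
    (hg : ∀ z ∈ boxF d R, ∀ (k : Fin d) (w : ℕ), w ≤ D → |g (z + src k w) - g z| ≤ s)
    (u w : Site d) (hw : ∀ k, (w k).natAbs ≤ D) (hR : ∀ k, |u k| + 2 * |w k| ≤ R)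
    (S : Finset (Fin d)) :
    |g (fun k => if k ∈ S then u k + 2 * w k else u k) - g u| ≤ S.card * s := by
  classical
  induction S using Finset.induction_on with
  | empty =>
    have h1 : (fun k => if k ∈ (∅ : Finset (Fin d)) then u k + 2 * w k else u k) = u := by
      funext k
      simp
    rw [h1]
    simp
  | insert k S hk ih =>
    set z : Site d := fun j => if j ∈ S then u j + 2 * w j else u j with hz
    set z' : Site d := fun j => if j ∈ insert k S then u j + 2 * w j else u j with hz'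
    have hbox : ∀ (P : Fin d → Prop) [DecidablePred P],
        (fun j => if P j then u j + 2 * w j else u j) ∈ boxF d R := by
      intro P _
      rw [mem_boxF]
      intro j
      have h1 := hR j
      have h2 : |u j + 2 * w j| ≤ |u j| + 2 * |w j| := by
        refine (abs_add_le _ _).trans ?_
        rw [abs_mul]
        simp
      split_ifs
      · exact h2.trans h1
      · have := abs_nonneg (w j)
        linarith
    have hzz : |g z' - g z| ≤ s := by
      rcases le_total 0 (w k) with h0 | h0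
      · have e1 : z' = z + src k (w k).natAbs := by
          funext j
          simp only [hz, hz', src, Pi.add_apply]
          by_cases hj : j = k
          · subst hj
            rw [if_pos (Finset.mem_insert_self _ _), if_neg hk, Pi.single_eq_same]
            omega
          · rw [Pi.single_eq_of_ne hj, add_zero]
            by_cases hjS : j ∈ S
            · rw [if_pos (Finset.mem_insert_of_mem hjS), if_pos hjS]
            · rw [if_neg hjS, if_neg (by simp [hj, hjS])]
        rw [e1]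
        exact hg z (hbox (fun j => j ∈ S)) k _ (hw k)
      · have e1 : z = z' + src k (w k).natAbs := by
          funext j
          simp only [hz, hz', src, Pi.add_apply]
          by_cases hj : j = k
          · subst hj
            rw [if_pos (Finset.mem_insert_self _ _), if_neg hk, Pi.single_eq_same]
            omega
          · rw [Pi.single_eq_of_ne hj, add_zero]
            by_cases hjS : j ∈ S
            · rw [if_pos (Finset.mem_insert_of_mem hjS), if_pos hjS]
            · rw [if_neg hjS, if_neg (by simp [hj, hjS])]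
        have h2 := hg z' (hbox (fun j => j ∈ insert k S)) k _ (hw k)
        rw [← e1] at h2
        rwa [abs_sub_comm]
    rw [Finset.card_insert_of_notMem hk]
    push_cast
    have h3 := abs_add_le (g z' - g z) (g z - g u)
    rw [sub_add_sub_cancel] at h3
    linarith

variable {ρ : Measure ℝ} [IsProbabilityMeasure ρ]

/-- Markov for the difference of two sources. -/
lemma mark36 (hd : 0 < d) (hρ : EM ρ) (β : ℝ) (h : Vec d) {l : ℕ} (hl : 1 ≤ l) (k : Fin d)
    (w p i : ℕ) (z : Site d) {s : ℝ} (hs : 0 < s) :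
    (law d ρ).real {η | s < |X β h (sh i (z + src k w) η) l - X β h (sh i z η) l|} ≤
      Mo ρ β h l k p w / s ^ (2 * p) := by
  have h0 : {η : Env d | s < |X β h (sh i (z + src k w) η) l - X β h (sh i z η) l|} =
      (sh i z) ⁻¹' {η | s < |Us β h l k w η - Us β h l k 0 η|} := by
    ext η
    change s < |X β h (sh i (z + src k w) η) l - X β h (sh i z η) l| ↔
      s < |Us β h l k w (sh i z η) - Us β h l k 0 (sh i z η)|
    rw [NuLow34.us_zero]
    unfold Us
    rw [sh_sh, Nat.add_zero]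
  have hm : MeasurableSet {η : Env d | s < |Us β h l k w η - Us β h l k 0 η|} :=
    measurableSet_lt measurable_const
      (((Space36.meas_Us β h l k w).sub (Space36.meas_Us β h l k 0)).abs)
  rw [h0, (mp_sh i z).measureReal_preimage hm.nullMeasurableSet]
  obtain ⟨C, hC, hcr⟩ := Space36.crude (ρ := ρ) hd hρ β (2 * p)
  obtain ⟨hI, _⟩ := hcr h l hl k w
  have h1 := mul_meas_ge_le_integral_of_nonneg (μ := law d ρ)
    (f := fun η => |Us β h l k w η - Us β h l k 0 η| ^ (2 * p))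
    (Filter.Eventually.of_forall fun η => pow_nonneg (abs_nonneg _) _) hI (s ^ (2 * p))
  have h2 : (law d ρ).real {η | s < |Us β h l k w η - Us β h l k 0 η|} ≤
      (law d ρ).real {η | s ^ (2 * p) ≤ |Us β h l k w η - Us β h l k 0 η| ^ (2 * p)} := by
    refine measureReal_mono ?_
    intro η hη
    have hη' : s < |Us β h l k w η - Us β h l k 0 η| := hη
    exact pow_le_pow_left₀ hs.le hη'.le _
  rw [le_div_iff₀ (by positivity), Space36.Mo_eq]
  calc (law d ρ).real {η | s < |Us β h l k w η - Us β h l k 0 η|} * s ^ (2 * p)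
      ≤ (law d ρ).real {η | s ^ (2 * p) ≤ |Us β h l k w η - Us β h l k 0 η| ^ (2 * p)} *
        s ^ (2 * p) := mul_le_mul_of_nonneg_right h2 (by positivity)
    _ ≤ _ := by rw [mul_comm]; exact h1

/-- The regular environments. -/
def Rg (β : ℝ) (h : Vec d) (i l R D : ℕ) (s : ℝ) : Set (Env d) :=
  {η | ∀ z ∈ boxF d R, ∀ k : Fin d, ∀ w ≤ D,
    |X β h (sh i (z + src k w) η) l - X β h (sh i z η) l| ≤ s}

lemma rg36 (hd : 0 < d) (hρ : EM ρ) (β : ℝ) (h : Vec d) {l : ℕ} (hl : 1 ≤ l) (i R D p : ℕ)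
    {s P0 : ℝ} (hs : 0 < s)
    (hP : ∀ k : Fin d, ∀ w ≤ D, Mo ρ β h l k p w / s ^ (2 * p) ≤ P0) :
    (law d ρ).real (Rg β h i l R D s)ᶜ ≤ ((2 * R + 1) ^ d * (d * (D + 1))) * P0 := by
  classical
  have h1 : (Rg β h i l R D s)ᶜ ⊆ ⋃ q ∈ (boxF d R ×ˢ ((Finset.univ : Finset (Fin d)) ×ˢ
      Finset.range (D + 1))), {η : Env d |
        s < |X β h (sh i (q.1 + src q.2.1 q.2.2) η) l - X β h (sh i q.1 η) l|} := by
    intro η hη
    unfold Rg at hη
    rw [Set.mem_compl_iff] at hη
    by_contra hcon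
    refine hη ?_
    intro z hz k w hw
    by_contra hlt
    refine hcon ?_
    rw [Set.mem_iUnion₂]
    refine ⟨(z, k, w), ?_, not_le.1 hlt⟩
    rw [Finset.mem_product, Finset.mem_product]
    exact ⟨hz, Finset.mem_univ k, Finset.mem_range.2 (Nat.lt_succ_of_le hw)⟩
  refine (measureReal_mono h1 (measure_ne_top _ _)).trans
    ((measureReal_biUnion_finset_le _ _).trans ?_)
  refine (Finset.sum_le_sum (g := fun _ => P0) fun q hq => ?_).trans ?_
  · rw [Finset.mem_product, Finset.mem_product] at hq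
    refine (mark36 hd hρ β h hl q.2.1 q.2.2 p i q.1 hs).trans (hP _ _ ?_)
    have := Finset.mem_range.1 hq.2.2
    omega
  · rw [Finset.sum_const, nsmul_eq_mul, Finset.card_product, Finset.card_product, card_boxF,
      Finset.card_univ, Fintype.card_fin, Finset.card_range]
    push_cast
    exact le_rfl

/-- The numbers. -/
lemma num36 {a b V δ : ℝ} {d : ℕ} (hab : a < 2 * b) (hV : 0 ≤ V) (hδ : 0 < δ) :
    ∃ p : ℕ, ∀ C : ℝ, 0 ≤ C → ∃ n₁ : ℕ, ∀ n : ℕ, n₁ ≤ n → 1 ≤ n →
      ((2 * (V * n) + 1) ^ d * (d * (4 * n))) *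
        ((C * (4 * (n : ℝ) ^ a) * (n : ℝ) ^ ((2 * b - a) / 2)) ^ p /
          ((n : ℝ) ^ b) ^ (2 * p)) ≤ δ := by
  set ε : ℝ := (2 * b - a) / 2 with hε
  have hε0 : 0 < ε := by
    rw [hε]
    linarith
  obtain ⟨p, hp⟩ := exists_nat_gt (((d : ℝ) + 2) / ε)
  have hp' : (d : ℝ) + 2 ≤ ε * p := by
    rw [div_lt_iff₀ hε0] at hp
    linarith
  refine ⟨p, fun C hC => ?_⟩
  set K : ℝ := (2 * V + 1) ^ d * (d * 4) * (4 * C) ^ p with hK
  have hK0 : 0 ≤ K := by positivity
  refine ⟨⌈K / δ⌉₊, fun n hn hn1 => ?_⟩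
  have hn0 : (0 : ℝ) < n := by exact_mod_cast hn1
  have hn1' : (1 : ℝ) ≤ n := by exact_mod_cast hn1
  have e1 : (C * (4 * (n : ℝ) ^ a) * (n : ℝ) ^ ε) ^ p / ((n : ℝ) ^ b) ^ (2 * p) =
      (4 * C) ^ p * (n : ℝ) ^ (-(ε * p)) := by
    have e2 : C * (4 * (n : ℝ) ^ a) * (n : ℝ) ^ ε = (4 * C) * (n : ℝ) ^ (a + ε) := by
      rw [Real.rpow_add hn0]
      ring
    rw [e2, mul_pow, mul_div_assoc]
    congr 1
    rw [← Real.rpow_natCast, ← Real.rpow_mul hn0.le, ← Real.rpow_natCast, ← Real.rpow_mul hn0.le,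
      ← Real.rpow_sub hn0]
    congr 1
    rw [hε]
    push_cast
    ring
  have e3 : (n : ℝ) ^ (-(ε * p)) ≤ (n : ℝ) ^ (-((d : ℝ) + 2)) :=
    Real.rpow_le_rpow_of_exponent_le hn1' (by linarith)
  have e4 : (2 * (V * n) + 1) ^ d ≤ (2 * V + 1) ^ d * (n : ℝ) ^ d := by
    rw [← mul_pow]
    refine pow_le_pow_left₀ (by positivity) ?_ d
    linarith
  have e5 : (n : ℝ) ^ d * n * (n : ℝ) ^ (-((d : ℝ) + 2)) = (n : ℝ)⁻¹ := by
    rw [← Real.rpow_natCast (n : ℝ) d]
    nth_rewrite 2 [← Real.rpow_one (n : ℝ)]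
    rw [← Real.rpow_add hn0, ← Real.rpow_add hn0, ← Real.rpow_neg_one]
    congr 1
    ring
  rw [e1]
  calc ((2 * (V * n) + 1) ^ d * (d * (4 * n))) * ((4 * C) ^ p * (n : ℝ) ^ (-(ε * p)))
      ≤ (((2 * V + 1) ^ d * (n : ℝ) ^ d) * (d * (4 * n))) *
          ((4 * C) ^ p * (n : ℝ) ^ (-((d : ℝ) + 2))) := by
        refine mul_le_mul (mul_le_mul_of_nonneg_right e4 (by positivity))
          (mul_le_mul_of_nonneg_left e3 (by positivity)) (by positivity) (by positivity)
    _ = K * ((n : ℝ) ^ d * n * (n : ℝ) ^ (-((d : ℝ) + 2))) := by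
        rw [hK]
        ring
    _ = K / n := by rw [e5, div_eq_mul_inv]
    _ ≤ δ := by
        rw [div_le_iff₀ hn0]
        have h1 : K / δ ≤ n := (Nat.le_ceil _).trans (by exact_mod_cast hn)
        rw [div_le_iff₀ hδ] at h1
        linarith

end Add36

open Add36 in
/-- T3: the typical values are nearly subadditive. -/
theorem addT36 {d : ℕ} {ρ : Measure ℝ} [IsProbabilityMeasure ρ] (hd : 0 < d) (hρ : EM ρ)
    {β : ℝ} {h v : Vec d} {a : ℝ} (hS : SpaceV d ρ β ‖h‖) (ha0 : 0 < a) (ha1 : a < 1)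
    (hT : TbP ρ β h v a) : AddT ρ β h a := by
  classical
  intro b hb
  have hNpos : (0 : ℝ) < (2 : ℝ) ^ d + 5 := by positivity
  refine ⟨1 / ((2 : ℝ) ^ d + 5), by positivity, fun M n₀ hM b' hb' => ?_⟩
  set δ : ℝ := 1 / ((2 : ℝ) ^ d + 5) with hδ
  have hδ0 : 0 < δ := by positivity
  have hδN : ((2 : ℝ) ^ d + 5) * δ = 1 := by
    rw [hδ]
    exact mul_one_div_cancel hNpos.ne'
  obtain ⟨nT, hnT⟩ := hT δ hδ0
  have hε0 : 0 < (2 * b - a) / 2 := by linarith
  set V : ℕ := ⌈‖v‖⌉₊ + 5 with hV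
  obtain ⟨p, hp⟩ := num36 (a := a) (b := b) (V := (V : ℝ)) (δ := δ) (d := d) (by linarith)
    (Nat.cast_nonneg V) hδ0
  obtain ⟨C, hC⟩ := hS ((2 * b - a) / 2) hε0 p
  obtain ⟨n1, hn1⟩ := hp |C| (abs_nonneg C)
  have t1 : Tendsto (fun n : ℕ => (n : ℝ) ^ a) atTop atTop :=
    (tendsto_rpow_atTop ha0).comp tendsto_natCast_atTop_atTop
  have t2 : Tendsto (fun n : ℕ => (n : ℝ) ^ (b' - b)) atTop atTop :=
    (tendsto_rpow_atTop (by linarith)).comp tendsto_natCast_atTop_atTop
  obtain ⟨n2, hn2⟩ := Filter.eventually_atTop.1 ((t1.eventually_ge_atTop (n₀ : ℝ)).and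
    (t2.eventually_ge_atTop (5 + d : ℝ)))
  refine ⟨nT + n₀ + n1 + n2 + 1, fun n i l hn hil hi hl => ?_⟩
  have hn1' : 1 ≤ n := by omega
  have hn0r : (0 : ℝ) < n := by exact_mod_cast hn1'
  have hn1r : (1 : ℝ) ≤ n := by exact_mod_cast hn1'
  obtain ⟨hna, hnb⟩ := hn2 n (by omega)
  have hi0 : n₀ ≤ i := by
    have : (n₀ : ℝ) ≤ i := hna.trans hi
    exact_mod_cast this
  have hl0 : n₀ ≤ l := by
    have : (n₀ : ℝ) ≤ l := hna.trans hl
    exact_mod_cast this
  have hna1 : 1 ≤ (n : ℝ) ^ a := Real.one_le_rpow hn1r ha0.le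
  have hl1 : 1 ≤ l := by
    have : (1 : ℝ) ≤ l := hna1.trans hl
    exact_mod_cast this
  have hi_le : i ≤ n := by omega
  have hl_le : l ≤ n := by omega
  have hi_le' : (i : ℝ) ≤ n := by exact_mod_cast hi_le
  have hl_le' : (l : ℝ) ≤ n := by exact_mod_cast hl_le
  set r : ℝ := (n : ℝ) ^ a with hr
  have hrn : r ≤ n := by
    calc (n : ℝ) ^ a ≤ (n : ℝ) ^ (1 : ℝ) :=
          Real.rpow_le_rpow_of_exponent_le hn1r ha1.le
      _ = n := Real.rpow_one _
  set D : ℕ := ⌈r⌉₊ + 1 with hD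
  have hDr : (D : ℝ) ≤ r + 2 := by
    rw [hD]
    push_cast
    linarith [Nat.ceil_lt_add_one (show (0 : ℝ) ≤ r by linarith)]
  have hDr' : r + 1 ≤ (D : ℝ) := by
    rw [hD]
    push_cast
    linarith [Nat.le_ceil r]
  have hDl : D ≤ l + 1 := by
    have : ⌈r⌉₊ ≤ l := Nat.ceil_le.2 hl
    omega
  set s : ℝ := (n : ℝ) ^ b with hs
  have hb0 : 0 < b := by linarith
  have hs1 : 1 ≤ s := Real.one_le_rpow hn1r hb0.le
  have hs0 : 0 < s := by linarith
  set R : ℕ := V * n with hR
  -- the regular event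
  have hE5 : (law d ρ).real (Rg β h i l R D s)ᶜ ≤ δ := by
    refine (rg36 hd hρ β h hl1 i R D p (P0 := (|C| * (4 * r) *
      (n : ℝ) ^ ((2 * b - a) / 2)) ^ p / s ^ (2 * p)) hs0 ?_).trans
      (le_trans ?_ (hn1 n (by omega) hn1'))
    · intro k w hw
      refine div_le_div_of_nonneg_right ?_ (by positivity)
      refine (hC h le_rfl l hl1 k w (by omega)).trans ?_
      have e0 : (0 : ℝ) ≤ (w : ℝ) + 1 := by positivity
      have e0' : (0 : ℝ) ≤ (l : ℝ) ^ ((2 * b - a) / 2) := by positivity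
      have e1 : (C * ((w : ℝ) + 1) * (l : ℝ) ^ ((2 * b - a) / 2)) ^ p ≤
          (|C| * ((w : ℝ) + 1) * (l : ℝ) ^ ((2 * b - a) / 2)) ^ p := by
        refine (le_abs_self _).trans (le_of_eq ?_)
        rw [abs_pow, abs_mul, abs_mul, abs_of_nonneg e0, abs_of_nonneg e0']
      refine e1.trans (pow_le_pow_left₀ (by positivity) ?_ p)
      have e2 : (w : ℝ) ≤ D := by exact_mod_cast hw
      have e3 : (l : ℝ) ^ ((2 * b - a) / 2) ≤ (n : ℝ) ^ ((2 * b - a) / 2) :=
        Real.rpow_le_rpow (Nat.cast_nonneg l) hl_le' hε0.le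
      refine mul_le_mul (mul_le_mul_of_nonneg_left ?_ (abs_nonneg C)) e3 e0' (by positivity)
      linarith
    · refine mul_le_mul_of_nonneg_right ?_ (by positivity)
      have e1 : (R : ℝ) = V * n := by
        rw [hR]
        push_cast
        ring
      rw [e1]
      refine mul_le_mul_of_nonneg_left ?_ (by positivity)
      refine mul_le_mul_of_nonneg_left ?_ (Nat.cast_nonneg d)
      linarith
  set y0 : Site d := fun k => ⌊((i : ℝ) • v) k⌋ with hy0
  set cc : (Fin d → Bool) → Site d := fun c k => y0 k + (if c k then 1 else 0) with hcc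
  have hE1 : (law d ρ).real {η | PolT β h η (tube d n v r) < 1 / 2} ≤ δ := hnT n (by omega)
  have hE2 : (law d ρ).real {η | s < |X β h η n - M n|} ≤ δ := hM n (by omega)
  have hE3 : (law d ρ).real {η | (i : ℝ) ^ b < |X β h η i - M i|} ≤ δ := hM i hi0
  have hE4 : ∀ c : Fin d → Bool,
      (law d ρ).real {η | (l : ℝ) ^ b < |X β h (sh i (cc c) η) l - M l|} ≤ δ := by
    intro c
    have hm : MeasurableSet {η : Env d | (l : ℝ) ^ b < |X β h η l - M l|} :=
      measurableSet_lt measurable_const (((measurable_X β h l).sub_const _).abs)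
    have h1 := (mp_sh (ρ := ρ) i (cc c)).measureReal_preimage hm.nullMeasurableSet
    exact h1.le.trans (hM l hl0)
  obtain ⟨η, h1, h2, h3, h4, h5⟩ : ∃ η : Env d, ¬ (PolT β h η (tube d n v r) < 1 / 2) ∧
      ¬ (s < |X β h η n - M n|) ∧ ¬ ((i : ℝ) ^ b < |X β h η i - M i|) ∧
      (∀ c : Fin d → Bool, ¬ ((l : ℝ) ^ b < |X β h (sh i (cc c) η) l - M l|)) ∧
      η ∈ Rg β h i l R D s := by
    by_contra hcon
    have hcov : (Set.univ : Set (Env d)) ⊆ {η | PolT β h η (tube d n v r) < 1 / 2} ∪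
        {η | s < |X β h η n - M n|} ∪ {η | (i : ℝ) ^ b < |X β h η i - M i|} ∪
        (⋃ c ∈ (Finset.univ : Finset (Fin d → Bool)),
          {η | (l : ℝ) ^ b < |X β h (sh i (cc c) η) l - M l|}) ∪ (Rg β h i l R D s)ᶜ := by
      intro η _
      by_contra hn'
      rw [Set.mem_union, Set.mem_union, Set.mem_union, Set.mem_union, not_or, not_or, not_or,
        not_or] at hn'
      refine hcon ⟨η, hn'.1.1.1.1, hn'.1.1.1.2, hn'.1.1.2, fun c hc => hn'.1.2 ?_,
        not_not.1 hn'.2⟩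
      rw [Set.mem_iUnion₂]
      exact ⟨c, Finset.mem_univ c, hc⟩
    have g1 := measureReal_mono (μ := law d ρ) hcov
    rw [probReal_univ] at g1
    have g2 := measureReal_union_le (μ := law d ρ) ({η | PolT β h η (tube d n v r) < 1 / 2} ∪
        {η | s < |X β h η n - M n|} ∪ {η | (i : ℝ) ^ b < |X β h η i - M i|} ∪
        (⋃ c ∈ (Finset.univ : Finset (Fin d → Bool)),
          {η | (l : ℝ) ^ b < |X β h (sh i (cc c) η) l - M l|})) (Rg β h i l R D s)ᶜ
    have g3 := measureReal_union_le (μ := law d ρ) ({η | PolT β h η (tube d n v r) < 1 / 2} ∪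
        {η | s < |X β h η n - M n|} ∪ {η | (i : ℝ) ^ b < |X β h η i - M i|})
        (⋃ c ∈ (Finset.univ : Finset (Fin d → Bool)),
          {η | (l : ℝ) ^ b < |X β h (sh i (cc c) η) l - M l|})
    have g4 := measureReal_union_le (μ := law d ρ) ({η | PolT β h η (tube d n v r) < 1 / 2} ∪
        {η | s < |X β h η n - M n|}) {η | (i : ℝ) ^ b < |X β h η i - M i|}
    have g5 := measureReal_union_le (μ := law d ρ) {η | PolT β h η (tube d n v r) < 1 / 2}
        {η | s < |X β h η n - M n|}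
    have g6 : (law d ρ).real (⋃ c ∈ (Finset.univ : Finset (Fin d → Bool)),
        {η | (l : ℝ) ^ b < |X β h (sh i (cc c) η) l - M l|}) ≤ 2 ^ d * δ := by
      refine (measureReal_biUnion_finset_le _ _).trans
        ((Finset.sum_le_sum (g := fun _ => δ) fun c _ => hE4 c).trans (le_of_eq ?_))
      rw [Finset.sum_const, nsmul_eq_mul, Finset.card_univ, Fintype.card_fun, Fintype.card_bool,
        Fintype.card_fin]
      push_cast
      ring
    linarith
  have hF : ∀ x ∈ boxF d i, ‖emb x - (i : ℝ) • v‖ ≤ r →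
      X β h (sh i x η) l ≤ M l + (l : ℝ) ^ b + d * s := by
    intro x _ hx
    have hcoord : ∀ k, |(x k : ℝ) - y0 k| ≤ r + 1 := by
      intro k
      have e1 : |(emb x - (i : ℝ) • v) k| ≤ r := (abs_apply_le_norm _ k).trans hx
      rw [PiLp.sub_apply] at e1
      have e2 : (emb x) k = (x k : ℝ) := rfl
      rw [e2] at e1
      have e3 := Int.floor_le (((i : ℝ) • v) k)
      have e4 := Int.lt_floor_add_one (((i : ℝ) • v) k)
      have e5 : ((y0 k : ℤ) : ℝ) = (⌊((i : ℝ) • v) k⌋ : ℝ) := rfl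
      rw [e5]
      rw [abs_le] at e1 ⊢
      constructor <;> linarith [e1.1, e1.2]
    set c : Fin d → Bool := fun k => decide ((x k - y0 k) % 2 = 1) with hc
    set w : Site d := fun k => (x k - y0 k) / 2 with hw
    have hcck : ∀ k, cc c k = y0 k + (x k - y0 k) % 2 := by
      intro k
      simp only [hcc, hc]
      by_cases hk : (x k - y0 k) % 2 = 1
      · simp [hk]
      · have : (x k - y0 k) % 2 = 0 := by omega
        simp [this]
    have hwk : ∀ k, w k = (x k - y0 k) / 2 := fun k => rfl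
    have hx_eq : (fun k => if k ∈ (Finset.univ : Finset (Fin d)) then cc c k + 2 * w k
        else cc c k) = x := by
      funext k
      rw [if_pos (Finset.mem_univ k), hcck, hwk]
      omega
    have habs : ∀ k, |x k - y0 k| ≤ (D : ℤ) := by
      intro k
      have h' : ((|x k - y0 k| : ℤ) : ℝ) ≤ D := by
        push_cast
        exact (hcoord k).trans hDr'
      exact_mod_cast h'
    have hwD : ∀ k, (w k).natAbs ≤ D := by
      intro k
      have e1 := abs_le.1 (habs k)
      have e2 := hwk k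
      omega
    have hRk : ∀ k, |cc c k| + 2 * |w k| ≤ (R : ℤ) := by
      intro k
      have f1 : |((y0 k : ℤ) : ℝ)| ≤ i * ‖v‖ + 1 := by
        have e1 : |((i : ℝ) • v) k| ≤ i * ‖v‖ := by
          refine (abs_apply_le_norm _ k).trans (le_of_eq ?_)
          rw [norm_smul, Real.norm_eq_abs, abs_of_nonneg (Nat.cast_nonneg i)]
        have e3 := Int.floor_le (((i : ℝ) • v) k)
        have e4 := Int.lt_floor_add_one (((i : ℝ) • v) k)
        have e5 : ((y0 k : ℤ) : ℝ) = (⌊((i : ℝ) • v) k⌋ : ℝ) := rfl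
        rw [e5]
        rw [abs_le] at e1 ⊢
        constructor <;> linarith [e1.1, e1.2]
      have f2 : 2 * |w k| ≤ |x k - y0 k| + 1 := by
        rw [hwk]
        rcases abs_cases (x k - y0 k) with ⟨e1, _⟩ | ⟨e1, _⟩ <;>
          rcases abs_cases ((x k - y0 k) / 2) with ⟨e2, _⟩ | ⟨e2, _⟩ <;> rw [e1, e2] <;> omega
      have f3 : |cc c k| ≤ |y0 k| + 1 := by
        rw [hcck]
        refine (abs_add_le _ _).trans ?_
        have : |(x k - y0 k) % 2| ≤ 1 := by
          rw [abs_le]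
          omega
        linarith
      have f4 : (((|y0 k| + 1) + (|x k - y0 k| + 1) : ℤ) : ℝ) ≤ (R : ℝ) := by
        have e1 : (R : ℝ) = (⌈‖v‖⌉₊ + 5) * n := by
          rw [hR, hV]
          push_cast
          ring
        rw [e1]
        push_cast
        have e2 := hcoord k
        have e3 : (i : ℝ) * ‖v‖ ≤ n * ⌈‖v‖⌉₊ :=
          mul_le_mul hi_le' (Nat.le_ceil _) (norm_nonneg v) hn0r.le
        nlinarith
      have f5 : (|y0 k| + 1) + (|x k - y0 k| + 1) ≤ (R : ℤ) := by exact_mod_cast f4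
      linarith
    have hch := chain36 (g := fun x => X β h (sh i x η) l) (R := R) (D := D) (s := s)
      (fun z hz k w hw => h5 z hz k w hw) (cc c) w hwD hRk Finset.univ
    rw [hx_eq, Finset.card_univ, Fintype.card_fin] at hch
    have e1 := (abs_le.1 hch).2
    have e2 := (abs_le.1 (not_lt.1 (h4 c))).2
    linarith
  have hfin := step36 hd β h v η i l n hil (not_lt.1 h1) hF
  have k2 := (abs_le.1 (not_lt.1 h2)).1
  have k3 := (abs_le.1 (not_lt.1 h3)).2
  have k4 : (i : ℝ) ^ b ≤ s := Real.rpow_le_rpow (Nat.cast_nonneg i) hi_le' hb0.le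
  have k5 : (l : ℝ) ^ b ≤ s := Real.rpow_le_rpow (Nat.cast_nonneg l) hl_le' hb0.le
  have k6 : Real.log 2 ≤ 1 := by
    have := Real.log_two_lt_d9
    linarith
  have k7 : (5 + d : ℝ) * s ≤ (n : ℝ) ^ b' := by
    have e1 : (n : ℝ) ^ b' = (n : ℝ) ^ (b' - b) * s := by
      rw [hs, ← Real.rpow_add hn0r]
      congr 1
      ring
    rw [e1]
    exact mul_le_mul_of_nonneg_right hnb hs0.le
  linarith

end Pool.Agent.W_7d29a1_VT
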