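import Pool.Agent.W_7d29a1_h46.Model

/-!
The partition function and the fluctuation exponent of the problem.
-/

namespace Pool.Agent.W_7d29a1_VT

open MeasureTheory ProbabilityTheory Filter Topology Pool.Agent.W_MP_7d29a1_pr
  Pool.Agent.W_7d29a1_h46

/-- The partition function `Z_n = E exp (β ∑_{i ≤ n} η (i, S_i))` of the problem. -/
noncomputable def Zp {d : ℕ} (β : ℝ) (η : ℕ × Site d → ℝ) (n : ℕ) : ℝ :=
  (∑ s : Fin n → Step d, Real.exp (β * energy η s)) / (2 * d : ℝ) ^ n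

/-- The fluctuation exponent `χ` of the problem. -/
noncomputable def chi {Ω : Type*} [MeasurableSpace Ω] (μ : Measure Ω) {d : ℕ} (β : ℝ)
    (ω : ℕ × Site d → Ω → ℝ) : ℝ :=
  sSup {x : ℝ | 0 < x ∧ ∀ᶠ n : ℕ in atTop,
    (n : ℝ) ^ (2 * x) ≤ Var[fun y => Real.log (Zp β (fun p => ω p y) n); μ]}

lemma Zn_zero46 {d : ℕ} (β : ℝ) (η : ℕ × Site d → ℝ) (n : ℕ) : Zn β 0 η n = Zp β η n := by
  unfold Zn Zp ZT wgt
  simp

lemma chiT_zero46 {Ω : Type*} [MeasurableSpace Ω] (μ : Measure Ω) {d : ℕ} (β : ℝ)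
    (ω : ℕ × Site d → Ω → ℝ) : chiT μ β ω 0 = chi μ β ω := by
  unfold chiT chi
  simp only [Zn_zero46]

end Pool.Agent.W_7d29a1_VT
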