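import Pool.Agent.W_7d29a1_VT.Exc10

/-!
# Excited slabs: the count
-/

namespace Pool.Agent.W_7d29a1_VT

open MeasureTheory ProbabilityTheory Filter Topology Pool.Agent.W_MP_7d29a1_pr
  Pool.Agent.W_7d29a1_h46 Pool.Agent.W_7d29a1_h46u Pool.Agent.W_7d29a1_D2
  Pool.Agent.W_7d29a1_D2.B35 Pool.Agent.W_7d29a1_V Pool.Agent.W_7d29a1_V.R48

namespace Exc10

variable {d : ℕ}

/-- The set of the environments with energy at least `c`. -/
def Hs (β : ℝ) (h : Vec d) (k : ℕ) (c : ℝ) : Set (Env d) := {ξ | c ≤ X β h ξ k}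

lemma Hs_meas (β : ℝ) (h : Vec d) (k : ℕ) (c : ℝ) : MeasurableSet (Hs β h k c) :=
  measurableSet_le measurable_const (measurable_X β h k)

lemma Hs_dep (β : ℝ) (h : Vec d) (k : ℕ) (c : ℝ) :
    Dep {p : ℕ × Site d | 1 ≤ p.1 ∧ p.1 ≤ k} (Hs β h k c) := by
  intro η η' hη
  have h1 : Z β h η k = Z β h η' k := dependsOn_Z β h k hη
  unfold Hs X
  simp only [Set.mem_ofPred_eq, h1]

lemma Hs_dep1 (β : ℝ) (h : Vec d) (k : ℕ) (c : ℝ) :
    Dep {p : ℕ × Site d | 1 ≤ p.1} (Hs β h k c) :=
  (Hs_dep β h k c).mono fun _ hp => hp.1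

lemma Hs_dep2 (β : ℝ) (h : Vec d) (k : ℕ) (c : ℝ) :
    Dep {p : ℕ × Site d | p.1 ≤ k} (Hs β h k c) :=
  (Hs_dep β h k c).mono fun _ hp => hp.2

/-- The event that the mass of the end points with large energy is at least `p`. -/
def Rs (β : ℝ) (h : Vec d) (i k : ℕ) (c p : ℝ) : Set (Env d) :=
  {η | p ≤ fr β h i (Hs β h k c) η}

lemma Rs_meas (β : ℝ) (h : Vec d) (i k : ℕ) (c p : ℝ) : MeasurableSet (Rs β h i k c p) :=
  measurableSet_le measurable_const (measurable_fr β h i (Hs_meas β h k c))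

lemma Rs_dep (β : ℝ) (h : Vec d) (i k : ℕ) (c p : ℝ) :
    Dep {p : ℕ × Site d | p.1 ≤ i + k} (Rs β h i k c p) := by
  intro η η' hη
  have h1 := fr_dep β h i k (Hs_dep2 β h k c) hη
  unfold Rs
  simp only [Set.mem_ofPred_eq, h1]

/-- No excited slab before the slab `j`. -/
def Ds (E : ℕ → Set (Env d)) : ℕ → Set (Env d)
  | 0 => Set.univ
  | j + 1 => Ds E j ∩ (E j)ᶜ

variable {ρ : Measure ℝ} [IsProbabilityMeasure ρ]

/-- The count. -/
theorem exc_core (hd : 0 < d) (β : ℝ) (h : Vec d) {m K : ℕ} (hK : 3 ≤ K) {M : ℕ → ℝ}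
    {s t q : ℝ} (hq : q = (law d ρ).real (Hs β h m (M m + t))) (hq0 : 0 < q)
    (hB : ∀ j < K - 2, (law d ρ).real (Hs β h ((j + 1) * m) (M ((j + 1) * m) - s))ᶜ ≤ 1 / 100)
    (hG : ∀ j < K - 2,
      (law d ρ).real (Hs β h ((K - 2 - j) * m) (M ((K - 2 - j) * m) - s))ᶜ ≤ 1 / 100)
    (hdet : ∀ j < K - 2, M (K * m) + s < M ((j + 1) * m) - s + Real.log (q / 2) + (M m + t) +
      Real.log (1 / 2) + (M ((K - 2 - j) * m) - s))
    (hn : (law d ρ).real {η | M (K * m) + s < X β h η (K * m)} ≤ 1 / 100) :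
    q ≤ 9 / K := by
  set N : ℕ := K - 2 with hN
  set B : ℕ → Set (Env d) := fun j => Hs β h ((j + 1) * m) (M ((j + 1) * m) - s) with hBd
  set R : ℕ → Set (Env d) := fun j => Rs β h ((j + 1) * m) m (M m + t) (q / 2) with hRd
  set G : ℕ → Set (Env d) := fun j =>
    Rs β h ((j + 1) * m + m) ((N - j) * m) (M ((N - j) * m) - s) (1 / 2) with hGd
  set E : ℕ → Set (Env d) := fun j => B j ∩ R j with hEd
  set W : Set (Env d) := {η | M (K * m) + s < X β h η (K * m)} with hW
  have mB : ∀ j, MeasurableSet (B j) := fun j => Hs_meas _ _ _ _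
  have mR : ∀ j, MeasurableSet (R j) := fun j => Rs_meas _ _ _ _ _ _
  have mG : ∀ j, MeasurableSet (G j) := fun j => Rs_meas _ _ _ _ _ _
  have mE : ∀ j, MeasurableSet (E j) := fun j => (mB j).inter (mR j)
  have mW : MeasurableSet W := measurableSet_lt measurable_const (measurable_X β h _)
  have mD : ∀ j, MeasurableSet (Ds E j) := by
    intro j
    induction j with
    | zero => exact MeasurableSet.univ
    | succ j ih => exact ih.inter (mE j).compl
  have dB : ∀ j, Dep {p : ℕ × Site d | p.1 ≤ (j + 1) * m} (B j) := fun j => Hs_dep2 _ _ _ _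
  have dR : ∀ j, Dep {p : ℕ × Site d | p.1 ≤ (j + 1) * m + m} (R j) := fun j => Rs_dep _ _ _ _ _ _
  have dE : ∀ j, Dep {p : ℕ × Site d | p.1 ≤ (j + 1) * m + m} (E j) := fun j =>
    ((dB j).mono fun p hp => le_trans (show p.1 ≤ (j + 1) * m from hp)
      (Nat.le_add_right _ _)).inter (dR j)
  have dD : ∀ j, Dep {p : ℕ × Site d | p.1 ≤ (j + 1) * m} (Ds E j) := by
    intro j
    induction j with
    | zero => exact Dep.univ _
    | succ j ih =>
      have h1 : (j + 1 + 1) * m = (j + 1) * m + m := by ring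
      rw [h1]
      exact (ih.mono fun p hp => le_trans (show p.1 ≤ (j + 1) * m from hp)
        (Nat.le_add_right _ _)).inter (dE j).compl
  -- one slab
  have hstep : ∀ j < N, q / 2 * ((law d ρ).real (Ds E j) - 1 / 100) ≤
      (law d ρ).real (Ds E j ∩ E j) := by
    intro j hj
    have h1 := fr_half (ρ := ρ) hd β h ((j + 1) * m) ((mD j).inter (mB j))
      (Hs_meas β h m (M m + t)) ((dD j).inter (dB j)) (Hs_dep1 β h m (M m + t)) hq
    have h2 : Ds E j ∩ B j ∩ {η | q / 2 ≤ fr β h ((j + 1) * m) (Hs β h m (M m + t)) η} =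
        Ds E j ∩ E j := by
      rw [hEd, Set.inter_assoc]
      rfl
    rw [h2] at h1
    refine le_trans (mul_le_mul_of_nonneg_left ?_ (by positivity)) h1
    have h3 := hB j hj
    have h4 : (law d ρ).real (Ds E j) ≤ (law d ρ).real (Ds E j ∩ B j) +
        (law d ρ).real (B j)ᶜ := by
      refine le_trans (measureReal_mono ?_) (measureReal_union_le _ _)
      intro η hη
      by_cases h5 : η ∈ B j
      · exact Or.inl ⟨hη, h5⟩
      · exact Or.inr h5
    linarith
  have htyp : ∀ j < N, (1 - 2 * (1 / 100)) * (law d ρ).real (Ds E j ∩ E j) ≤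
      (law d ρ).real (Ds E j ∩ E j ∩ G j) := by
    intro j hj
    exact fr_typ (ρ := ρ) hd β h ((j + 1) * m + m) ((mD j).inter (mE j))
      (Hs_meas β h ((N - j) * m) (M ((N - j) * m) - s))
      (((dD j).mono fun p hp => le_trans (show p.1 ≤ (j + 1) * m from hp)
        (Nat.le_add_right _ _)).inter (dE j)) (Hs_dep1 β h _ _) (hG j hj)
  -- the deterministic inclusion
  have hinc : ∀ j < N, Ds E j ∩ E j ∩ G j ⊆ W := by
    rintro j hj η ⟨⟨_, hηB, hηR⟩, hηG⟩
    have hηB' : M ((j + 1) * m) - s ≤ X β h η ((j + 1) * m) := hηB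
    have h1 := det_step hd β h η ((j + 1) * m) m (half_pos hq0) hηR
    have h2 := det_step hd β h η ((j + 1) * m + m) ((N - j) * m) one_half_pos hηG
    have h3 : (j + 1) * m + m + (N - j) * m = K * m := by
      have h4 : j + 1 + 1 + (N - j) = K := by omega
      calc (j + 1) * m + m + (N - j) * m = (j + 1 + 1 + (N - j)) * m := by ring
        _ = K * m := by rw [h4]
    rw [h3] at h2
    have h5 := hdet j hj
    show M (K * m) + s < X β h η (K * m)
    linarith
  -- the sum of the disjoint events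
  have hsum : ∀ k ≤ N, ∑ j ∈ Finset.range k, (law d ρ).real (Ds E j ∩ E j ∩ G j) ≤
      (law d ρ).real (W ∩ (Ds E k)ᶜ) := by
    intro k
    induction k with
    | zero => intro _; simp
    | succ k ih =>
      intro hk
      rw [Finset.sum_range_succ]
      have h1 := ih (by omega)
      have h2 : (law d ρ).real (W ∩ (Ds E k)ᶜ) + (law d ρ).real (Ds E k ∩ E k ∩ G k) =
          (law d ρ).real ((W ∩ (Ds E k)ᶜ) ∪ (Ds E k ∩ E k ∩ G k)) := by
        rw [measureReal_union _ (((mD k).inter (mE k)).inter (mG k))]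
        rw [Set.disjoint_left]
        rintro η ⟨_, h3⟩ ⟨⟨h4, _⟩, _⟩
        exact h3 h4
      have h3 : (W ∩ (Ds E k)ᶜ) ∪ (Ds E k ∩ E k ∩ G k) ⊆ W ∩ (Ds E (k + 1))ᶜ := by
        rintro η (⟨h4, h5⟩ | h4)
        · exact ⟨h4, fun h6 => h5 h6.1⟩
        · exact ⟨hinc k (by omega) h4, fun h6 => h6.2 h4.1.2⟩
      have h4 := measureReal_mono (μ := law d ρ) h3
      linarith
  have htel : ∀ k, (law d ρ).real (Ds E k) = 1 - ∑ j ∈ Finset.range k,
      (law d ρ).real (Ds E j ∩ E j) := by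
    intro k
    induction k with
    | zero => simp [Ds]
    | succ k ih =>
      rw [Finset.sum_range_succ]
      have h1 := measureReal_inter_add_sdiff (μ := law d ρ) (s := Ds E k) (mE k)
      have h2 : Ds E (k + 1) = Ds E k \ E k := rfl
      rw [h2]
      linarith
  have hanti : ∀ j ≤ N, (law d ρ).real (Ds E N) ≤ (law d ρ).real (Ds E j) := by
    intro j hj
    rw [htel N, htel j]
    have h1 : ∑ i ∈ Finset.range j, (law d ρ).real (Ds E i ∩ E i) ≤
        ∑ i ∈ Finset.range N, (law d ρ).real (Ds E i ∩ E i) :=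
      Finset.sum_le_sum_of_subset_of_nonneg (Finset.range_mono hj) fun i _ _ => measureReal_nonneg
    linarith
  set S : ℝ := ∑ j ∈ Finset.range N, (law d ρ).real (Ds E j ∩ E j) with hS
  have h1 : (1 - 2 * (1 / 100)) * S ≤ 1 / 100 := by
    rw [hS, Finset.mul_sum]
    refine (Finset.sum_le_sum fun j hj => htyp j (Finset.mem_range.1 hj)).trans ?_
    refine (hsum N le_rfl).trans (le_trans ?_ hn)
    exact measureReal_mono Set.inter_subset_left
  have h2 : (N : ℝ) * (q / 2 * (1 - S - 1 / 100)) ≤ S := by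
    have h3 : ∑ _j ∈ Finset.range N, (q / 2 * (1 - S - 1 / 100)) ≤ S := by
      rw [hS]
      refine Finset.sum_le_sum fun j hj => ?_
      refine le_trans (mul_le_mul_of_nonneg_left ?_ (by positivity))
        (hstep j (Finset.mem_range.1 hj))
      have h4 := hanti j (Finset.mem_range.1 hj).le
      rw [htel N] at h4
      rw [← hS] at h4 ⊢
      linarith
    rwa [Finset.sum_const, Finset.card_range, nsmul_eq_mul] at h3
  have hK0 : (0 : ℝ) < K := by
    have : 0 < K := by omega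
    exact_mod_cast this
  have hNK : (K : ℝ) / 3 ≤ N := by
    have h3 : (K : ℝ) = N + 2 := by
      have : K = N + 2 := by omega
      exact_mod_cast this
    have h4 : (1 : ℝ) ≤ N := by
      have : 1 ≤ N := by omega
      exact_mod_cast this
    linarith
  rw [le_div_iff₀ hK0]
  have h3 : S ≤ 1 / 50 := by linarith
  have h4 : (N : ℝ) * (q / 2 * (9 / 10)) ≤ 1 / 50 := by
    refine le_trans (mul_le_mul_of_nonneg_left (mul_le_mul_of_nonneg_left ?_ (by positivity))
      (Nat.cast_nonneg N)) (h2.trans h3)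
    linarith
  nlinarith

/-- The small tails. -/
lemma med_lo {β : ℝ} {h : Vec d} {M : ℕ → ℝ} {b s δ : ℝ} {n₀ k : ℕ}
    (hM : MedN ρ β h M b δ n₀) (hk : n₀ ≤ k) (hs : (k : ℝ) ^ b ≤ s) :
    (law d ρ).real (Hs β h k (M k - s))ᶜ ≤ δ := by
  refine (measureReal_mono ?_).trans (hM k hk)
  intro η hη
  have h1 : ¬ (M k - s ≤ X β h η k) := hη
  push Not at h1
  show (k : ℝ) ^ b < |X β h η k - M k|
  rw [abs_sub_comm]
  refine lt_of_lt_of_le ?_ (le_abs_self _)
  linarith

lemma med_up {β : ℝ} {h : Vec d} {M : ℕ → ℝ} {b s δ : ℝ} {n₀ k : ℕ}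
    (hM : MedN ρ β h M b δ n₀) (hk : n₀ ≤ k) (hs : (k : ℝ) ^ b ≤ s) :
    (law d ρ).real {η | M k + s < X β h η k} ≤ δ := by
  refine (measureReal_mono ?_).trans (hM k hk)
  intro η hη
  have h1 : M k + s < X β h η k := hη
  show (k : ℝ) ^ b < |X β h η k - M k|
  refine lt_of_lt_of_le ?_ (le_abs_self _)
  linarith

end Exc10

open Exc10 in
/-- T5: excited slabs. -/
theorem excT {d : ℕ} {ρ : Measure ℝ} [IsProbabilityMeasure ρ] (hd : 0 < d) (β : ℝ) (h : Vec d)
    (a : ℝ) : ExcT ρ β h a := by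
  intro b b' hb hbb' M n₀ hM hAdd
  obtain ⟨n₁, hAdd⟩ := hAdd
  have hlog : ∀ᶠ n : ℕ in atTop, Real.log n ≤ (n : ℝ) ^ b' := by
    have h1 := (isLittleO_log_rpow_atTop (hb.trans hbb')).bound (c := 1) one_pos
    have h2 := tendsto_natCast_atTop_atTop (R := ℝ) |>.eventually h1
    filter_upwards [h2, eventually_ge_atTop 1] with n h3 h4
    have h5 : (1 : ℝ) ≤ n := by exact_mod_cast h4
    rw [Real.norm_eq_abs, Real.norm_eq_abs, abs_of_nonneg (Real.log_nonneg h5),
      abs_of_nonneg (by positivity), one_mul] at h3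
    exact h3
  obtain ⟨n₃, hn₃⟩ := eventually_atTop.1 hlog
  refine ⟨n₀ + n₁ + n₃ + 1, fun m K hm hK hKm t ht => ?_⟩
  set n : ℕ := K * m with hn
  set q : ℝ := (law d ρ).real (Hs β h m (M m + t)) with hq
  have hgoal : (law d ρ).real {η | M m + t ≤ X β h η m} = q := rfl
  rw [hgoal]
  have hK0 : (0 : ℝ) < K := by
    have : 0 < K := by omega
    exact_mod_cast this
  have hmn : m ≤ n := Nat.le_mul_of_pos_left m (by omega)
  have hn1 : 1 ≤ n := by omega
  have hn1' : (1 : ℝ) ≤ n := by exact_mod_cast hn1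
  have hKn : K ≤ n := Nat.le_mul_of_pos_right K (by omega)
  by_contra hcon
  push Not at hcon
  have hq0 : 0 < q := lt_trans (by positivity) hcon
  refine absurd (exc_core (ρ := ρ) hd β h hK (M := M) (s := (n : ℝ) ^ b) (t := t) hq hq0 ?_ ?_ ?_ ?_)
    (not_le.2 hcon)
  · intro j hj
    refine med_lo hM ?_ ?_
    · calc n₀ ≤ m := by omega
        _ = 1 * m := (one_mul m).symm
        _ ≤ (j + 1) * m := Nat.mul_le_mul_right m (by omega)
    · refine Real.rpow_le_rpow (Nat.cast_nonneg _) ?_ hb.le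
      exact_mod_cast Nat.mul_le_mul_right m (by omega : j + 1 ≤ K)
  · intro j hj
    refine med_lo hM ?_ ?_
    · calc n₀ ≤ m := by omega
        _ = 1 * m := (one_mul m).symm
        _ ≤ (K - 2 - j) * m := Nat.mul_le_mul_right m (by omega)
    · refine Real.rpow_le_rpow (Nat.cast_nonneg _) ?_ hb.le
      exact_mod_cast Nat.mul_le_mul_right m (by omega : K - 2 - j ≤ K)
  · intro j hj
    set i : ℕ := (j + 1) * m with hi
    set l : ℕ := (K - 2 - j) * m with hl
    have him : m ≤ i := Nat.le_mul_of_pos_left m (by omega)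
    have hlm : m ≤ l := Nat.le_mul_of_pos_left m (by omega)
    have hsum : i + (m + l) = n := by
      have h4 : j + 1 + (1 + (K - 2 - j)) = K := by omega
      calc i + (m + l) = (j + 1 + (1 + (K - 2 - j))) * m := by rw [hi, hl]; ring
        _ = n := by rw [h4]
    have hmR : (m : ℝ) ≤ i := by exact_mod_cast him
    have hmR2 : (m : ℝ) ≤ l := by exact_mod_cast hlm
    have hmR3 : (m : ℝ) ≤ ((m + l : ℕ) : ℝ) := by exact_mod_cast Nat.le_add_right m l
    have h1 := hAdd n i (m + l) (by omega) hsum (hKm.trans hmR) (hKm.trans hmR3)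
    have hmln : ((m + l : ℕ) : ℝ) ≤ n := by
      have : m + l ≤ n := by omega
      exact_mod_cast this
    have hn0 : (0 : ℝ) ≤ ((m + l : ℕ) : ℝ) := Nat.cast_nonneg _
    rcases le_or_gt 0 a with ha | ha
    · have hpa : ((m + l : ℕ) : ℝ) ^ a ≤ m := (Real.rpow_le_rpow hn0 hmln ha).trans hKm
      have h2 := hAdd (m + l) m l (by omega) rfl hpa (hpa.trans hmR2)
      have hpb : ((m + l : ℕ) : ℝ) ^ b' ≤ (n : ℝ) ^ b' :=
        Real.rpow_le_rpow hn0 hmln (hb.trans hbb').le
      have hbb : (n : ℝ) ^ b ≤ (n : ℝ) ^ b' := Real.rpow_le_rpow_of_exponent_le hn1' hbb'.le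
      have hl1 : -Real.log n ≤ Real.log (q / 2) + Real.log (1 / 2) := by
        rw [← Real.log_mul (by positivity) (by norm_num), ← Real.log_inv]
        refine Real.log_le_log (by positivity) ?_
        have h3 : 9 / (n : ℝ) ≤ q := by
          refine le_trans ?_ hcon.le
          exact div_le_div_of_nonneg_left (by norm_num) hK0 (by exact_mod_cast hKn)
        have h4 : (n : ℝ)⁻¹ = 9 / (n : ℝ) / 9 := by
          field_simp
        rw [h4]
        have h5 : 0 ≤ 9 / (n : ℝ) := by positivity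
        linarith
      have hl2 := hn₃ n (by omega)
      have hp0 : 0 < (n : ℝ) ^ b' := Real.rpow_pos_of_pos (by linarith) _
      linarith
    · -- a negative
      have hpa : ((m + l : ℕ) : ℝ) ^ a ≤ 1 :=
        Real.rpow_le_one_of_one_le_of_nonpos (by
          have : 1 ≤ m + l := by omega
          exact_mod_cast this) ha.le
      have hm1 : (1 : ℝ) ≤ m := by
        have : 1 ≤ m := by omega
        exact_mod_cast this
      have h2 := hAdd (m + l) m l (by omega) rfl (hpa.trans hm1) (hpa.trans (hm1.trans hmR2))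
      have hpb : ((m + l : ℕ) : ℝ) ^ b' ≤ (n : ℝ) ^ b' :=
        Real.rpow_le_rpow hn0 hmln (hb.trans hbb').le
      have hbb : (n : ℝ) ^ b ≤ (n : ℝ) ^ b' := Real.rpow_le_rpow_of_exponent_le hn1' hbb'.le
      have hl1 : -Real.log n ≤ Real.log (q / 2) + Real.log (1 / 2) := by
        rw [← Real.log_mul (by positivity) (by norm_num), ← Real.log_inv]
        refine Real.log_le_log (by positivity) ?_
        have h3 : 9 / (n : ℝ) ≤ q := by
          refine le_trans ?_ hcon.le
          exact div_le_div_of_nonneg_left (by norm_num) hK0 (by exact_mod_cast hKn)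
        have h4 : (n : ℝ)⁻¹ = 9 / (n : ℝ) / 9 := by
          field_simp
        rw [h4]
        have h5 : 0 ≤ 9 / (n : ℝ) := by positivity
        linarith
      have hl2 := hn₃ n (by omega)
      have hp0 : 0 < (n : ℝ) ^ b' := Real.rpow_pos_of_pos (by linarith) _
      linarith
  · refine med_up hM ?_ le_rfl
    omega

end Pool.Agent.W_7d29a1_VT
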