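import Pool.Agent.W_7d29a1_VT.Med67

/-!
# The lower tail

`lowT`: among `C log n` disjoint tubes one has a typical partition function, and the partition
function of the source `0` is not much smaller than those of the other sources.
-/

namespace Pool.Agent.W_7d29a1_VT

open MeasureTheory ProbabilityTheory Filter Topology Pool.Agent.W_MP_7d29a1_pr
  Pool.Agent.W_7d29a1_h46 Pool.Agent.W_7d29a1_h46u Pool.Agent.W_7d29a1_D2
  Pool.Agent.W_7d29a1_D2.B35 Pool.Agent.W_7d29a1_V Pool.Agent.W_7d29a1_V.Tube67 Med67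

namespace Low67

variable {d : ℕ} {ρ : Measure ℝ} [IsProbabilityMeasure ρ]

/-- The product rule for functions of disjoint sets of sites. -/
lemma prod_indep (B : ℕ → Env d → ℝ) (S : ℕ → Set (ℕ × Site d)) (hB : ∀ j, Measurable (B j))
    (hS : ∀ j, DependsOn (B j) (S j)) (hd : ∀ i j, i < j → ∀ p ∈ S i, p ∉ S j)
    (h0 : ∀ j η, 0 ≤ B j η) {u : ℝ} (hu : 0 ≤ u) (hI : ∀ j, ∫ η, B j η ∂(law d ρ) ≤ u) (N : ℕ) :
    ∫ η, (∏ j ∈ Finset.range N, B j η) ∂(law d ρ) ≤ u ^ N := by
  induction N with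
  | zero => simp
  | succ N ih =>
    have hm : Measurable fun η : Env d => ∏ j ∈ Finset.range N, B j η :=
      Finset.measurable_prod _ fun j _ => hB j
    have hdep : DependsOn (fun η : Env d => ∏ j ∈ Finset.range N, B j η)
        {p | ∃ i, i < N ∧ p ∈ S i} := by
      intro η η' hη
      refine Finset.prod_congr rfl fun j hj => ?_
      exact hS j fun p hp => hη p ⟨j, Finset.mem_range.1 hj, hp⟩
    have hdep2 : DependsOn (B N) {p | ∃ i, i < N ∧ p ∈ S i}ᶜ := by
      intro η η' hη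
      refine hS N fun p hp => hη p ?_
      rintro ⟨i, hi, hpi⟩
      exact hd i N hi p hpi hp
    have h1 := integral_indep (ρ := ρ) {p | ∃ i, i < N ∧ p ∈ S i} hm (hB N) hdep hdep2
    simp only [Finset.prod_range_succ]
    rw [h1, pow_succ]
    exact mul_le_mul ih (hI N) (integral_nonneg fun η => h0 N η) (by positivity)

/-- The indicator of `F < c`. -/
noncomputable def ind (F : Env d → ℝ) (c : ℝ) (η : Env d) : ℝ :=
  {η | F η < c}.indicator (fun _ => (1 : ℝ)) η

lemma measurable_ind {F : Env d → ℝ} (hF : Measurable F) (c : ℝ) : Measurable (ind F c) :=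
  measurable_const.indicator (measurableSet_lt hF measurable_const)

lemma ind_nonneg (F : Env d → ℝ) (c : ℝ) (η : Env d) : 0 ≤ ind F c η :=
  Set.indicator_nonneg (fun _ _ => zero_le_one) _

lemma ind_int {F : Env d → ℝ} (hF : Measurable F) (c : ℝ) :
    ∫ η, ind F c η ∂(law d ρ) = (law d ρ).real {η | F η < c} := by
  unfold ind
  rw [integral_indicator (measurableSet_lt hF measurable_const)]
  simp

/-- All of many independent variables are small. -/
lemma all_small (F : ℕ → Env d → ℝ) (S : ℕ → Set (ℕ × Site d)) (hF : ∀ j, Measurable (F j))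
    (hS : ∀ j, DependsOn (F j) (S j)) (hd : ∀ i j, i < j → ∀ p ∈ S i, p ∉ S j) {u c : ℝ}
    (hu : 0 ≤ u) (hI : ∀ j, (law d ρ).real {η | F j η < c} ≤ u) (N : ℕ) :
    (law d ρ).real {η | ∀ j, j < N → F j η < c} ≤ u ^ N := by
  have h1 := prod_indep (ρ := ρ) (fun j => ind (F j) c) S (fun j => measurable_ind (hF j) c)
    (fun j η η' hη => by
      unfold ind
      have := hS j hη
      by_cases h : F j η < c
      · rw [Set.indicator_of_mem (show η ∈ {η | F j η < c} from h),
          Set.indicator_of_mem (show η' ∈ {η | F j η < c} from (by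
            simp only [Set.mem_ofPred_eq]
            rwa [← this]))]
      · rw [Set.indicator_of_notMem (show η ∉ {η | F j η < c} from h),
          Set.indicator_of_notMem (show η' ∉ {η | F j η < c} from (by
            simp only [Set.mem_ofPred_eq]
            rwa [← this]))]) hd (fun j η => ind_nonneg _ _ _) hu
    (fun j => by rw [ind_int (hF j)]; exact hI j) N
  refine le_trans (le_of_eq ?_) h1
  have hm : MeasurableSet {η : Env d | ∀ j, j < N → F j η < c} := by
    have : {η : Env d | ∀ j, j < N → F j η < c} =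
        ⋂ j : ℕ, ⋂ _ : j < N, {η | F j η < c} := by
      ext η
      simp
    rw [this]
    exact MeasurableSet.iInter fun j => MeasurableSet.iInter fun _ =>
      measurableSet_lt (hF j) measurable_const
  have h2 : ∀ η : Env d, (∏ j ∈ Finset.range N, ind (F j) c η) =
      {η : Env d | ∀ j, j < N → F j η < c}.indicator (fun _ => (1 : ℝ)) η := by
    intro η
    by_cases h : ∀ j, j < N → F j η < c
    · rw [Set.indicator_of_mem (show η ∈ {η : Env d | ∀ j, j < N → F j η < c} from h)]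
      refine Finset.prod_eq_one fun j hj => ?_
      unfold ind
      rw [Set.indicator_of_mem]
      exact h j (Finset.mem_range.1 hj)
    · rw [Set.indicator_of_notMem (show η ∉ {η : Env d | ∀ j, j < N → F j η < c} from h)]
      push Not at h
      obtain ⟨j, hj, hcj⟩ := h
      refine Finset.prod_eq_zero (Finset.mem_range.2 hj) ?_
      unfold ind
      rw [Set.indicator_of_notMem]
      exact not_lt.2 hcj
  simp only [h2]
  rw [integral_indicator hm]
  simp

end Low67

open Low67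

variable {d : ℕ} {ρ : Measure ℝ} [IsProbabilityMeasure ρ]

/-- T4: the lower tail. -/
theorem lowT (hd : 0 < d) (hρ : EM ρ) {β : ℝ} {h v : Vec d} {a : ℝ} (hS : SpaceV d ρ β ‖h‖)
    (ha0 : 0 < a) (ha1 : a < 1) (hT : TbP ρ β h v a) : LowT ρ β h a := by
  intro b hb M n0 hM b' hb' q
  set ε : ℝ := min ((2 * b - a) / 4) ((1 - a) / 2) with hε
  have hε0 : 0 < ε := lt_min (by linarith) (by linarith)
  have hε1 : ε ≤ (2 * b - a) / 4 := min_le_left _ _
  have hε2 : ε ≤ (1 - a) / 2 := min_le_right _ _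
  set p : ℕ := ⌈((q : ℝ) + 2) / ε⌉₊ with hp
  have hp1 : ((q : ℝ) + 2) / ε ≤ p := Nat.le_ceil _
  have hp0 : 1 ≤ p := by
    have h1 : (0 : ℝ) < p := lt_of_lt_of_le (by positivity) hp1
    exact_mod_cast h1
  obtain ⟨C, hC0, hC⟩ := space_markov (ρ := ρ) hd hρ hS hε0 p hp0
  obtain ⟨n1, hn1⟩ := hT (1 / 8) (by norm_num)
  have l1 : Tendsto (fun n : ℕ => (n : ℝ) ^ a) atTop atTop :=
    (tendsto_rpow_atTop ha0).comp tendsto_natCast_atTop_atTop
  have l2 : Tendsto (fun n : ℕ => (n : ℝ) ^ (b' - b)) atTop atTop :=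
    (tendsto_rpow_atTop (by linarith)).comp tendsto_natCast_atTop_atTop
  have l3 : Tendsto (fun n : ℕ => (n : ℝ) ^ ε) atTop atTop :=
    (tendsto_rpow_atTop hε0).comp tendsto_natCast_atTop_atTop
  have l4 : ∀ᶠ n : ℕ in atTop, ((q : ℝ) + 1) * Real.log n + 1 ≤ (n : ℝ) ^ ε := by
    have e1 : (fun x : ℝ => Real.log x) =o[atTop] fun x => x ^ ε := isLittleO_log_rpow_atTop hε0
    have e2 := (e1.comp_tendsto tendsto_natCast_atTop_atTop).def
      (show (0 : ℝ) < 1 / (2 * ((q : ℝ) + 1)) by positivity)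
    filter_upwards [e2, l3.eventually_ge_atTop 2, eventually_ge_atTop 1] with n hn hn2 hn3
    simp only [Function.comp_apply, Real.norm_eq_abs] at hn
    have hn4 : (1 : ℝ) ≤ n := by exact_mod_cast hn3
    rw [abs_of_nonneg (Real.log_nonneg hn4), abs_of_nonneg (by positivity)] at hn
    have e3 : ((q : ℝ) + 1) * Real.log n ≤ (n : ℝ) ^ ε / 2 := by
      have := mul_le_mul_of_nonneg_left hn (show (0 : ℝ) ≤ (q : ℝ) + 1 by positivity)
      refine this.trans (le_of_eq ?_)
      field_simp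
    linarith
  obtain ⟨n2, hn2⟩ := eventually_atTop.1 (((l1.eventually_ge_atTop 2).and
    (l2.eventually_ge_atTop 3)).and (((l3.eventually_ge_atTop (5 * C + 2)).and l4).and
    ((eventually_ge_atTop (max (max n1 n0) 2)))))
  refine ⟨n2, fun n hn => ?_⟩
  obtain ⟨⟨g1, g2⟩, ⟨g3, g5⟩, g4⟩ := hn2 n hn
  have hn0 : 2 ≤ n := (le_max_right _ _).trans g4
  have hnn1 : n1 ≤ n := ((le_max_left _ _).trans (le_max_left _ _)).trans g4
  have hnn0 : n0 ≤ n := ((le_max_right _ _).trans (le_max_left _ _)).trans g4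
  have hn01 : 1 ≤ n := by omega
  have hnr : (1 : ℝ) ≤ n := by exact_mod_cast hn01
  have hnr2 : (2 : ℝ) ≤ n := by exact_mod_cast hn0
  have hnr0 : (0 : ℝ) < n := by linarith
  set W : ℝ := (n : ℝ) ^ a with hW
  have hW0 : 0 < W := by linarith
  set k : Fin d := ⟨0, hd⟩
  set w : ℕ := ⌊W⌋₊ + 1 with hw
  have hw1 : W < w := by
    have := Nat.lt_floor_add_one W
    rw [hw]
    push_cast
    linarith
  have hw2 : (w : ℝ) ≤ 2 * W := by
    have := Nat.floor_le hW0.le
    rw [hw]
    push_cast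
    linarith
  set N : ℕ := ⌈((q : ℝ) + 1) * Real.log n⌉₊ with hN
  have hlog0 : 0 ≤ Real.log n := Real.log_nonneg hnr
  have hN1 : ((q : ℝ) + 1) * Real.log n ≤ N := Nat.le_ceil _
  have hN2 : (N : ℝ) ≤ (n : ℝ) ^ ε := by
    have := Nat.ceil_lt_add_one (show 0 ≤ ((q : ℝ) + 1) * Real.log n by positivity)
    rw [← hN] at this
    linarith
  have hnε : (n : ℝ) ^ ε * W ≤ n := by
    rw [hW, ← Real.rpow_add hnr0]
    have := Real.rpow_le_rpow_of_exponent_le hnr (show ε + a ≤ 1 by linarith)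
    rwa [Real.rpow_one] at this
  have hNn : (N : ℝ) ≤ n := by
    refine hN2.trans (le_trans ?_ hnε)
    exact le_mul_of_one_le_right (by positivity) (by linarith)
  have hx3 : ∀ j, j < N → j * w ≤ 5 * n := by
    intro j hj
    have e1 : (j : ℝ) ≤ N := by exact_mod_cast hj.le
    have e2 : (j : ℝ) * w ≤ (n : ℝ) ^ ε * (2 * W) :=
      mul_le_mul (e1.trans hN2) hw2 (by positivity) (by positivity)
    have e3 : ((j * w : ℕ) : ℝ) ≤ 5 * n := by
      push_cast
      linarith
    exact_mod_cast e3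
  -- the tube
  have hP1 := hn1 n hnn1
  rw [← hW] at hP1
  set bad : Set (Env d) := {η | PolT β h η (tube d n v W) < 1 / 2} with hbad
  have mbad : MeasurableSet bad := measurableSet_lt (measurable_PolT β h _) measurable_const
  have hne : (tube d n v W).Nonempty := by
    by_contra hcon
    rw [Set.not_nonempty_iff_eq_empty] at hcon
    have e1 : bad = Set.univ := by
      rw [hbad, hcon]
      ext η
      simp only [Set.mem_ofPred_eq, Set.mem_univ, iff_true]
      unfold PolT ZT
      simp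
    rw [e1] at hP1
    simp at hP1
    norm_num at hP1
  set F : Env d → ℝ := fT β h v n W with hF
  have mF : Measurable F := measurable_fT β h v n W
  have hFX : ∀ η, F η ≤ X β h η n := by
    intro η
    exact Real.log_le_log (ZT_pos β h η hne) (ZT_mono β h η (Set.subset_univ _))
  set c : ℝ := M n - (n : ℝ) ^ b - 1 with hc
  have hA0 : (law d ρ).real {η | F η < c} ≤ 1 / 4 := by
    have hsub : {η | F η < c} ⊆ bad ∪ {η | (n : ℝ) ^ b < |X β h η n - M n|} := by
      intro η hη
      by_contra hcon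
      simp only [Set.mem_union, not_or] at hcon
      obtain ⟨c1, c2⟩ := hcon
      simp only [hbad, Set.mem_ofPred_eq, not_lt] at c1 c2 hη
      obtain ⟨k1, _⟩ := near1 hd β h v n W c1
      rw [abs_le] at c2
      have k1' : X β h η n - 1 ≤ F η := k1
      linarith [c2.1]
    have := hM n hnn0
    refine (measureReal_mono hsub).trans ((measureReal_union_le _ _).trans ?_)
    linarith
  set G : ℕ → Env d → ℝ := fun j η => F (sh 0 (src k (j * w)) η) with hG
  have mG : ∀ j, Measurable (G j) := fun j => mF.comp (measurable_sh _ _)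
  have hall : (law d ρ).real {η | ∀ j, j < N → G j η < c} ≤ (1 / 4) ^ N := by
    refine all_small G (fun j => SX v W k (j * w)) mG (fun j => fT_dep β h v n W k (j * w)) ?_
      (by norm_num) ?_ N
    · intro i j hij p hp
      refine SX_disj v k (Nat.mul_le_mul_right w hij.le) ?_ hp
      push_cast
      have e1 : (i : ℝ) + 1 ≤ j := by exact_mod_cast hij
      have e2 : (w : ℝ) ≤ ((j : ℝ) - i) * w := le_mul_of_one_le_left (by positivity) (by linarith)
      linarith
    · intro j
      refine le_trans (le_of_eq ?_) hA0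
      have mset : MeasurableSet {η | F η < c} := measurableSet_lt mF measurable_const
      rw [Measure.real, Measure.real, ← (mp_sh 0 (src k (j * w))).measure_preimage
        mset.nullMeasurableSet]
      rfl
  have hdiff : ∀ j, j < N → (law d ρ).real {η | (n : ℝ) ^ b <
      |Us β h n k (j * w) η - Us β h n k 0 η|} ≤ (n : ℝ) ^ (-((q : ℝ) + 2)) := by
    intro j hj
    refine (hC n hn01 k (j * w) (hx3 j hj) ((n : ℝ) ^ b) (by positivity)).trans ?_
    have e1 : (((j * w : ℕ) : ℝ) + 1) ≤ 5 * ((n : ℝ) ^ ε * W) := by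
      have e2 : (j : ℝ) ≤ N := by exact_mod_cast hj.le
      have e3 : (j : ℝ) * w ≤ (n : ℝ) ^ ε * (2 * W) :=
        mul_le_mul (e2.trans hN2) hw2 (by positivity) (by positivity)
      have e4 : 1 ≤ (n : ℝ) ^ ε * W := by
        have := Real.one_le_rpow hnr hε0.le
        nlinarith
      push_cast
      linarith
    have e5 : C * (((j * w : ℕ) : ℝ) + 1) * (n : ℝ) ^ ε / ((n : ℝ) ^ b) ^ 2 ≤ (n : ℝ) ^ (-ε) := by
      rw [div_le_iff₀ (by positivity)]
      have e6 : (n : ℝ) ^ (-ε) * ((n : ℝ) ^ b) ^ 2 = (n : ℝ) ^ (2 * b - ε) := by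
        rw [← Real.rpow_natCast ((n : ℝ) ^ b) 2, ← Real.rpow_mul hnr0.le, ← Real.rpow_add hnr0]
        congr 1
        push_cast
        ring
      have e7 : (n : ℝ) ^ ε * ((n : ℝ) ^ ε * W * (n : ℝ) ^ ε) ≤ (n : ℝ) ^ (2 * b - ε) := by
        rw [hW, ← Real.rpow_add hnr0, ← Real.rpow_add hnr0, ← Real.rpow_add hnr0]
        exact Real.rpow_le_rpow_of_exponent_le hnr (by linarith)
      rw [e6]
      refine le_trans ?_ e7
      have e8 : C * (((j * w : ℕ) : ℝ) + 1) ≤ C * (5 * ((n : ℝ) ^ ε * W)) :=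
        mul_le_mul_of_nonneg_left e1 hC0
      have e9 : C * (((j * w : ℕ) : ℝ) + 1) * (n : ℝ) ^ ε ≤
          C * (5 * ((n : ℝ) ^ ε * W)) * (n : ℝ) ^ ε :=
        mul_le_mul_of_nonneg_right e8 (by positivity)
      refine e9.trans ?_
      have e10 : 5 * C * ((n : ℝ) ^ ε * W * (n : ℝ) ^ ε) ≤
          (n : ℝ) ^ ε * ((n : ℝ) ^ ε * W * (n : ℝ) ^ ε) :=
        mul_le_mul_of_nonneg_right (by linarith) (by positivity)
      linarith
    have e11 : 0 ≤ C * (((j * w : ℕ) : ℝ) + 1) * (n : ℝ) ^ ε / ((n : ℝ) ^ b) ^ 2 := by positivity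
    refine (pow_le_pow_left₀ e11 e5 p).trans ?_
    rw [← Real.rpow_natCast ((n : ℝ) ^ (-ε)) p, ← Real.rpow_mul hnr0.le]
    refine Real.rpow_le_rpow_of_exponent_le hnr ?_
    rw [div_le_iff₀ hε0] at hp1
    linarith
  -- the union bound
  have hsub : {η | X β h η n < M n - (n : ℝ) ^ b'} ⊆ {η | ∀ j, j < N → G j η < c} ∪
      ⋃ j ∈ Finset.range N, {η | (n : ℝ) ^ b < |Us β h n k (j * w) η - Us β h n k 0 η|} := by
    intro η hη
    by_contra hcon
    simp only [Set.mem_union, not_or, Set.mem_iUnion, Finset.mem_range, exists_prop,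
      Set.mem_ofPred_eq, not_forall, not_exists, not_and, not_lt] at hcon
    obtain ⟨⟨j, hj, hjc⟩, hcon2⟩ := hcon
    have e1 := hcon2 j hj
    simp only [Set.mem_ofPred_eq] at hη
    have e2 : Us β h n k 0 η = X β h η n := by
      unfold Us
      have : src k 0 = (0 : Site d) := by
        unfold src
        simp
      rw [this, TubV_sh]
    have e3 : G j η ≤ Us β h n k (j * w) η := hFX _
    rw [e2, abs_le] at e1
    have e4 : (n : ℝ) ^ b * 3 ≤ (n : ℝ) ^ b' := by
      have e5 : (n : ℝ) ^ b' = (n : ℝ) ^ b * (n : ℝ) ^ (b' - b) := by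
        rw [← Real.rpow_add hnr0]
        congr 1
        ring
      rw [e5]
      exact mul_le_mul_of_nonneg_left g2 (by positivity)
    have e6 : 1 ≤ (n : ℝ) ^ b := Real.one_le_rpow hnr (by linarith)
    linarith [e1.1, e1.2]
  refine (measureReal_mono hsub).trans ((measureReal_union_le _ _).trans ?_)
  have hU : (law d ρ).real (⋃ j ∈ Finset.range N, {η | (n : ℝ) ^ b <
      |Us β h n k (j * w) η - Us β h n k 0 η|}) ≤ N * (n : ℝ) ^ (-((q : ℝ) + 2)) := by
    refine (measureReal_biUnion_finset_le _ _).trans ?_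
    refine (Finset.sum_le_sum fun j hj => hdiff j (Finset.mem_range.1 hj)).trans ?_
    simp
  have hN4 : (1 / 4 : ℝ) ^ N ≤ (n : ℝ) ^ (-((q : ℝ) + 1)) := by
    have e1 : (1 / 4 : ℝ) ≤ Real.exp (-1) := by
      rw [Real.exp_neg, one_div]
      refine inv_anti₀ (Real.exp_pos 1) ?_
      have := Real.exp_one_lt_d9
      linarith
    have e2 : (1 / 4 : ℝ) ^ N ≤ Real.exp (-1) ^ N := pow_le_pow_left₀ (by norm_num) e1 N
    refine e2.trans ?_
    rw [← Real.exp_nat_mul, Real.rpow_def_of_pos hnr0]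
    refine Real.exp_le_exp.2 ?_
    linarith
  have hN5 : (N : ℝ) * (n : ℝ) ^ (-((q : ℝ) + 2)) ≤ (n : ℝ) ^ (-((q : ℝ) + 1)) := by
    have e1 : (n : ℝ) ^ (-((q : ℝ) + 1)) = n * (n : ℝ) ^ (-((q : ℝ) + 2)) := by
      nth_rewrite 2 [← Real.rpow_one (n : ℝ)]
      rw [← Real.rpow_add hnr0]
      congr 1
      ring
    rw [e1]
    exact mul_le_mul_of_nonneg_right hNn (by positivity)
  have hN6 : 2 * (n : ℝ) ^ (-((q : ℝ) + 1)) ≤ (n : ℝ) ^ (-(q : ℝ)) := by
    have e1 : (n : ℝ) ^ (-(q : ℝ)) = n * (n : ℝ) ^ (-((q : ℝ) + 1)) := by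
      nth_rewrite 2 [← Real.rpow_one (n : ℝ)]
      rw [← Real.rpow_add hnr0]
      congr 1
      ring
    rw [e1]
    exact mul_le_mul_of_nonneg_right hnr2 (by positivity)
  linarith

end Pool.Agent.W_7d29a1_VT
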