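import Pool.Agent.W_7d29a1_VT.DefsT10
import Pool.Agent.W_7d29a1_V.Tube67

/-!
# Typical concentration at the square root of the radius of the tube

`medT`: the logarithms of the partition functions of the tube and of its translate by
`2 x e_k`, `x > n ^ a`, are independent with the same law and close to each other.
-/

namespace Pool.Agent.W_7d29a1_VT

open MeasureTheory ProbabilityTheory Filter Topology Pool.Agent.W_MP_7d29a1_pr
  Pool.Agent.W_7d29a1_h46 Pool.Agent.W_7d29a1_h46u Pool.Agent.W_7d29a1_D2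
  Pool.Agent.W_7d29a1_D2.B35 Pool.Agent.W_7d29a1_V Pool.Agent.W_7d29a1_V.Tube67

namespace Med67

variable {d : ℕ} {ρ : Measure ℝ} [IsProbabilityMeasure ρ]

/-- The logarithm of the partition function of the tube. -/
noncomputable def fT (β : ℝ) (h v : Vec d) (n : ℕ) (W : ℝ) (η : Env d) : ℝ :=
  Real.log (ZT β h η (tube d n v W))

lemma measurable_fT (β : ℝ) (h v : Vec d) (n : ℕ) (W : ℝ) : Measurable (fT β h v n W) :=
  (measurable_ZT β h _).log

/-- The sites of the tube around `2 x e_k`. -/
def SX (v : Vec d) (W : ℝ) (k : Fin d) (x : ℕ) : Set (ℕ × Site d) :=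
  {p | ‖emb (p.2 - src k x) - (p.1 : ℝ) • v‖ ≤ W}

lemma fT_dep (β : ℝ) (h v : Vec d) (n : ℕ) (W : ℝ) (k : Fin d) (x : ℕ) :
    DependsOn (fun η : Env d => fT β h v n W (sh 0 (src k x) η)) (SX v W k x) := by
  intro η η' hη
  simp only
  unfold fT
  rw [ZT_congr (η := sh 0 (src k x) η) (η' := sh 0 (src k x) η')]
  intro s hs p hp
  refine hη (p.1 + 0, p.2 + src k x) ?_
  unfold sites at hp
  rw [Finset.mem_image] at hp
  obtain ⟨i, _, rfl⟩ := hp
  unfold SX
  simp only [Set.mem_ofPred_eq, add_sub_cancel_right, Nat.add_zero]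
  exact hs _ i.2

lemma emb_sub (y z : Site d) : emb (y - z) = emb y - emb z := by
  ext j
  unfold emb
  simp

lemma norm_src_sub (k : Fin d) {x y : ℕ} (hxy : x ≤ y) :
    ‖emb (src k y) - emb (src k x)‖ = 2 * ((y : ℝ) - x) := by
  rw [← emb_sub]
  have h1 : src k y - src k x = src k (y - x) := by
    unfold src
    rw [← Pi.single_sub]
    congr 1
    push_cast [Nat.cast_sub hxy]
    ring
  rw [h1, norm_emb_src]
  push_cast [Nat.cast_sub hxy]
  ring

/-- Tubes at distance `> 2 W` are disjoint. -/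
lemma SX_disj (v : Vec d) {W : ℝ} (k : Fin d) {x y : ℕ} (hxy : x ≤ y) (h : W < (y : ℝ) - x)
    {p : ℕ × Site d} (hp : p ∈ SX v W k x) : p ∉ SX v W k y := by
  intro hq
  unfold SX at hp hq
  simp only [Set.mem_ofPred_eq, emb_sub] at hp hq
  have h1 : emb (src k y) - emb (src k x) = (emb p.2 - emb (src k x) - (p.1 : ℝ) • v) -
      (emb p.2 - emb (src k y) - (p.1 : ℝ) • v) := by abel
  have h2 := norm_sub_le (emb p.2 - emb (src k x) - (p.1 : ℝ) • v)
    (emb p.2 - emb (src k y) - (p.1 : ℝ) • v)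
  rw [← h1, norm_src_sub k hxy] at h2
  linarith

/-- The logarithm of the partition function of a tube of mass at least one half. -/
lemma near1 (hd : 0 < d) (β : ℝ) (h v : Vec d) (n : ℕ) (W : ℝ) {η : Env d}
    (hP : 1 / 2 ≤ PolT β h η (tube d n v W)) :
    X β h η n - 1 ≤ fT β h v n W η ∧ fT β h v n W η ≤ X β h η n := by
  have hZ : 0 < Z β h η n := ZT_univ_pos hd β h η
  have e0 : PolT β h η (tube d n v W) = ZT β h η (tube d n v W) / Z β h η n := rfl
  rw [e0, le_div_iff₀ hZ] at hP
  have hT : Z β h η n / 2 ≤ ZT β h η (tube d n v W) := by linarith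
  have hT' : ZT β h η (tube d n v W) ≤ Z β h η n := ZT_mono β h η (Set.subset_univ _)
  have e2 : Real.log (ZT β h η (tube d n v W)) ≤ Real.log (Z β h η n) :=
    Real.log_le_log (by linarith) hT'
  have e3 : Real.log (Z β h η n) - Real.log 2 ≤ Real.log (ZT β h η (tube d n v W)) := by
    rw [← Real.log_div hZ.ne' (by norm_num)]
    exact Real.log_le_log (by linarith) hT
  have e4 : Real.log 2 < 1 := by
    have := Real.log_two_lt_d9
    linarith
  unfold fT X
  constructor
  · linarith
  · exact e2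

/-- The splice of two environments. -/
lemma splice67 (S : Set (ℕ × Site d)) {F G : Env d → ℝ} (hF : Measurable F) (hG : Measurable G)
    (hFS : DependsOn F S) (hGS : DependsOn G Sᶜ) (s : ℝ) :
    (law d ρ) {η | s < |F η - G η|} =
      ((law d ρ).prod (law d ρ)) {w : Env d × Env d | s < |F w.1 - G w.2|} := by
  classical
  have hσ : Function.Injective (fun p : ℕ × Site d =>
      if p ∈ S then (Sum.inl p : (ℕ × Site d) ⊕ (ℕ × Site d)) else Sum.inr p) := by
    intro p q h
    simp only at h
    split_ifs at h <;> simp_all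
  have hmp : MeasurePreserving (fun w : Env d × Env d => fun p => Sum.elim w.1 w.2
      (if p ∈ S then (Sum.inl p : (ℕ × Site d) ⊕ (ℕ × Site d)) else Sum.inr p))
      ((law d ρ).prod (law d ρ)) (law d ρ) := LawU_elim hσ
  have hm : MeasurableSet {η : Env d | s < |F η - G η|} :=
    measurableSet_lt measurable_const (hF.sub hG).abs
  rw [← hmp.measure_preimage hm.nullMeasurableSet]
  congr 1
  ext w
  simp only [Set.mem_preimage, Set.mem_ofPred_eq]
  have e1 : F (fun p => Sum.elim w.1 w.2
      (if p ∈ S then (Sum.inl p : (ℕ × Site d) ⊕ (ℕ × Site d)) else Sum.inr p)) = F w.1 :=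
    hFS fun p hp => by rw [if_pos hp]; rfl
  have e2 : G (fun p => Sum.elim w.1 w.2
      (if p ∈ S then (Sum.inl p : (ℕ × Site d) ⊕ (ℕ × Site d)) else Sum.inr p)) = G w.2 :=
    hGS fun p hp => by rw [if_neg hp]; rfl
  rw [e1, e2]

/-- A number which is close to a function, if the function is close to an independent one. -/
lemma exists_med (S : Set (ℕ × Site d)) {F G : Env d → ℝ} (hF : Measurable F) (hG : Measurable G)
    (hFS : DependsOn F S) (hGS : DependsOn G Sᶜ) {s δ : ℝ}
    (hP : (law d ρ).real {η | s < |F η - G η|} ≤ δ) :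
    ∃ M : ℝ, (law d ρ).real {η | s < |G η - M|} ≤ δ := by
  have h1 := splice67 (ρ := ρ) S hF hG hFS hGS s
  have hm : MeasurableSet {w : Env d × Env d | s < |F w.1 - G w.2|} :=
    measurableSet_lt measurable_const ((hF.comp measurable_fst).sub (hG.comp measurable_snd)).abs
  rw [Measure.prod_apply hm] at h1
  obtain ⟨w, hw⟩ := exists_le_lintegral (μ := law d ρ)
    (f := fun x => (law d ρ) (Prod.mk x ⁻¹' {w : Env d × Env d | s < |F w.1 - G w.2|}))
    (measurable_measure_prodMk_left hm).aemeasurable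
  rw [← h1] at hw
  refine ⟨F w, le_trans ?_ hP⟩
  rw [Measure.real, Measure.real]
  refine ENNReal.toReal_mono (measure_ne_top _ _) ?_
  refine le_trans (le_of_eq ?_) hw
  congr 1
  ext η
  simp only [Set.mem_ofPred_eq, Set.mem_preimage]
  rw [abs_sub_comm]

/-- Markov for the difference of two sources. -/
lemma space_markov (hd : 0 < d) (hρ : EM ρ) {β : ℝ} {h : Vec d} (hS : SpaceV d ρ β ‖h‖) {ε : ℝ}
    (hε : 0 < ε) (p : ℕ) (hp : 1 ≤ p) : ∃ C : ℝ, 0 ≤ C ∧ ∀ n : ℕ, 1 ≤ n → ∀ (k : Fin d) (x : ℕ), x ≤ 5 * n →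
      ∀ t : ℝ, 0 < t → (law d ρ).real {η | t < |Us β h n k x η - Us β h n k 0 η|} ≤
        (C * ((x : ℝ) + 1) * (n : ℝ) ^ ε / t ^ 2) ^ p := by
  obtain ⟨C, hC⟩ := hS ε hε p
  refine ⟨|C|, abs_nonneg _, fun n hn k x hx t ht => ?_⟩
  have hn0 : (0 : ℝ) < n := by exact_mod_cast hn
  have h1 := hC h le_rfl n hn k x hx
  have mU : ∀ x : ℕ, Measurable (Us β h n k x) := fun x =>
    (measurable_X β h n).comp (measurable_sh _ _)
  -- integrability
  obtain ⟨C0, hC0, h0⟩ := momU (ρ := ρ) hd hρ β (2 * p)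
  obtain ⟨hXi, _⟩ := h0 h n hn
  have hXx : ∀ x : ℕ, Integrable (fun η => |Us β h n k x η - A ρ β h n| ^ (2 * p)) (law d ρ) :=
    fun x => (mp_sh 0 (src k x)).integrable_comp_of_integrable hXi
  have hBi : Integrable (fun η => (Us β h n k x η - Us β h n k 0 η) ^ (2 * p)) (law d ρ) := by
    refine (((hXx x).add (hXx 0)).const_mul (3 ^ (2 * p))).mono'
      (((mU x).sub (mU 0)).pow_const _).aestronglyMeasurable
      (Filter.Eventually.of_forall fun η => ?_)
    rw [norm_pow, Real.norm_eq_abs]
    have e1 : |Us β h n k x η - Us β h n k 0 η| ≤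
        |Us β h n k x η - A ρ β h n| + |Us β h n k 0 η - A ρ β h n| + 0 := by
      rw [add_zero]
      have := abs_sub (Us β h n k x η - A ρ β h n) (Us β h n k 0 η - A ρ β h n)
      rwa [sub_sub_sub_cancel_right] at this
    refine (pow_le_pow_left₀ (abs_nonneg _) e1 _).trans ((pow3 (abs_nonneg _) (abs_nonneg _)
      le_rfl _).trans ?_)
    rw [zero_pow (by omega), add_zero]
    exact le_rfl
  have h2 : t ^ (2 * p) * (law d ρ).real {η | t ^ (2 * p) ≤
      (Us β h n k x η - Us β h n k 0 η) ^ (2 * p)} ≤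
      ∫ η, (Us β h n k x η - Us β h n k 0 η) ^ (2 * p) ∂(law d ρ) :=
    mul_meas_ge_le_integral_of_nonneg (Filter.Eventually.of_forall fun η =>
      (even_two_mul p).pow_nonneg _) hBi _
  have h3 : (law d ρ).real {η | t < |Us β h n k x η - Us β h n k 0 η|} ≤
      (law d ρ).real {η | t ^ (2 * p) ≤ (Us β h n k x η - Us β h n k 0 η) ^ (2 * p)} := by
    refine measureReal_mono (fun η hη => ?_)
    simp only [Set.mem_ofPred_eq] at hη ⊢
    rw [← (even_two_mul p).pow_abs (Us β h n k x η - Us β h n k 0 η)]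
    exact pow_le_pow_left₀ ht.le hη.le _
  have h4 : (C * ((x : ℝ) + 1) * (n : ℝ) ^ ε) ^ p ≤ (|C| * ((x : ℝ) + 1) * (n : ℝ) ^ ε) ^ p := by
    have e3 : |C * ((x : ℝ) + 1) * (n : ℝ) ^ ε| = |C| * ((x : ℝ) + 1) * (n : ℝ) ^ ε := by
      rw [abs_mul, abs_mul, abs_of_nonneg (show (0 : ℝ) ≤ (x : ℝ) + 1 by positivity),
        abs_of_nonneg (show (0 : ℝ) ≤ (n : ℝ) ^ ε by positivity)]
    rw [← e3, ← abs_pow]
    exact le_abs_self _
  refine h3.trans ?_
  rw [div_pow, ← pow_mul, le_div_iff₀ (by positivity), mul_comm]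
  exact (h2.trans h1).trans h4

end Med67

open Med67

variable {d : ℕ} {ρ : Measure ℝ} [IsProbabilityMeasure ρ]

/-- T2: typical concentration at the square root of the radius of the tube. -/
theorem medT (hd : 0 < d) (hρ : EM ρ) {β : ℝ} {h v : Vec d} {a : ℝ} (hS : SpaceV d ρ β ‖h‖)
    (ha0 : 0 < a) (ha1 : a < 1) (hT : TbP ρ β h v a) : MedT ρ β h a := by
  intro b hb δ hδ
  set ε : ℝ := b - a / 2 with hε
  have hε0 : 0 < ε := by linarith
  obtain ⟨C, hC0, hC⟩ := space_markov (ρ := ρ) hd hρ hS hε0 1 le_rfl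
  obtain ⟨n1, hn1⟩ := hT (δ / 4) (by linarith)
  -- large n
  have l1 : Tendsto (fun n : ℕ => (n : ℝ) ^ a) atTop atTop :=
    (tendsto_rpow_atTop ha0).comp tendsto_natCast_atTop_atTop
  have l2 : Tendsto (fun n : ℕ => (n : ℝ) ^ b) atTop atTop :=
    (tendsto_rpow_atTop (by linarith)).comp tendsto_natCast_atTop_atTop
  have l3 : Tendsto (fun n : ℕ => (n : ℝ) ^ ε) atTop atTop :=
    (tendsto_rpow_atTop hε0).comp tendsto_natCast_atTop_atTop
  obtain ⟨n2, hn2⟩ := eventually_atTop.1 (((l1.eventually_ge_atTop 2).and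
    (l2.eventually_ge_atTop 6)).and ((l3.eventually_ge_atTop (32 * C / δ)).and
    ((eventually_ge_atTop (max n1 1)))))
  have key : ∀ n : ℕ, n2 ≤ n → ∃ M : ℝ,
      (law d ρ).real {η | (n : ℝ) ^ b < |X β h η n - M|} ≤ δ := by
    intro n hn
    obtain ⟨⟨g1, g2⟩, g3, g4⟩ := hn2 n hn
    have hn0 : 1 ≤ n := (le_max_right _ _).trans g4
    have hnr : (1 : ℝ) ≤ n := by exact_mod_cast hn0
    have hnr0 : (0 : ℝ) < n := by linarith
    set W : ℝ := (n : ℝ) ^ a with hW
    set k : Fin d := ⟨0, hd⟩
    set x : ℕ := ⌊W⌋₊ + 1 with hx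
    have hW0 : 0 < W := by linarith
    have hx1 : W < x := by
      have := Nat.lt_floor_add_one W
      rw [hx]
      push_cast
      linarith
    have hx2 : (x : ℝ) ≤ W + 1 := by
      have := Nat.floor_le hW0.le
      rw [hx]
      push_cast
      linarith
    have hWn : W ≤ n := by
      have := Real.rpow_le_rpow_of_exponent_le hnr ha1.le
      rwa [Real.rpow_one] at this
    have hx3 : x ≤ 5 * n := by
      have e1 : (x : ℝ) ≤ 5 * n := by linarith
      exact_mod_cast e1
    have hP1 := hn1 n ((le_max_left _ _).trans g4)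
    rw [← hW] at hP1
    set bad : Set (Env d) := {η | PolT β h η (tube d n v W) < 1 / 2} with hbad
    have mbad : MeasurableSet bad := measurableSet_lt (measurable_PolT β h _) measurable_const
    set F : Env d → ℝ := fT β h v n W with hF
    set G : Env d → ℝ := fun η => F (sh 0 (src k x) η) with hG
    have mF : Measurable F := measurable_fT β h v n W
    have mG : Measurable G := mF.comp (measurable_sh _ _)
    have hsrc0 : src k 0 = (0 : Site d) := by
      unfold src
      simp
    have hFd : DependsOn F (SX v W k 0) := by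
      have := fT_dep β h v n W k 0
      simpa only [hsrc0, TubV_sh] using this
    have hGd : DependsOn G (SX v W k 0)ᶜ := by
      intro η η' hη
      refine fT_dep β h v n W k x fun p hp => hη p fun hq => ?_
      exact SX_disj v k (Nat.zero_le x) (by push_cast; linarith) hq hp
    -- the event on which the two logarithms differ
    set t : ℝ := (n : ℝ) ^ b / 2 with ht
    have ht0 : 0 < t := by positivity
    have hU : (law d ρ).real {η | t < |Us β h n k x η - Us β h n k 0 η|} ≤ δ / 4 := by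
      refine (hC n hn0 k x hx3 t ht0).trans ?_
      rw [pow_one, ht, div_pow, div_div_eq_mul_div, div_le_iff₀ (by positivity)]
      have e1 : ((n : ℝ) ^ b) ^ 2 = W * (n : ℝ) ^ ε * (n : ℝ) ^ ε := by
        rw [hW, ← Real.rpow_natCast ((n : ℝ) ^ b) 2, ← Real.rpow_mul hnr0.le,
          ← Real.rpow_add hnr0, ← Real.rpow_add hnr0]
        congr 1
        push_cast
        rw [hε]
        ring
      have e2 : (x : ℝ) + 1 ≤ 2 * W := by linarith
      have e3 : 32 * C ≤ δ * (n : ℝ) ^ ε := by
        rw [div_le_iff₀ hδ] at g3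
        linarith
      rw [e1]
      have e4 : 0 ≤ (n : ℝ) ^ ε := by positivity
      have e5 : C * ((x : ℝ) + 1) ≤ C * (2 * W) := mul_le_mul_of_nonneg_left e2 hC0
      have e6 : C * ((x : ℝ) + 1) * (n : ℝ) ^ ε ≤ C * (2 * W) * (n : ℝ) ^ ε :=
        mul_le_mul_of_nonneg_right e5 e4
      have e7 : 32 * C * (W * (n : ℝ) ^ ε) ≤ δ * (n : ℝ) ^ ε * (W * (n : ℝ) ^ ε) :=
        mul_le_mul_of_nonneg_right e3 (by positivity)
      linarith
    have hFG : (law d ρ).real {η | t + 2 < |F η - G η|} ≤ 3 * δ / 4 := by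
      have hsub : {η | t + 2 < |F η - G η|} ⊆ bad ∪ ((sh 0 (src k x)) ⁻¹' bad ∪
          {η | t < |Us β h n k x η - Us β h n k 0 η|}) := by
        intro η hη
        by_contra hcon
        simp only [Set.mem_union, not_or] at hcon
        obtain ⟨c1, c2, c3⟩ := hcon
        simp only [hbad, Set.mem_preimage, Set.mem_ofPred_eq, not_lt] at c1 c2 c3 hη
        obtain ⟨k1, k2⟩ := near1 hd β h v n W c1
        obtain ⟨k3, k4⟩ := near1 hd β h v n W c2
        have e1 : Us β h n k x η = X β h (sh 0 (src k x) η) n := rfl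
        have e2 : Us β h n k 0 η = X β h η n := by
          unfold Us
          rw [hsrc0, TubV_sh]
        rw [e1, e2, abs_le] at c3
        have e3 : |F η - G η| ≤ t + 2 := by
          rw [abs_le]
          constructor
          · change -(t + 2) ≤ fT β h v n W η - fT β h v n W (sh 0 (src k x) η)
            linarith [c3.2]
          · change fT β h v n W η - fT β h v n W (sh 0 (src k x) η) ≤ t + 2
            linarith [c3.1]
        linarith
      refine (measureReal_mono hsub).trans ((measureReal_union_le _ _).trans ?_)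
      have e1 := measureReal_union_le (μ := law d ρ) ((sh 0 (src k x)) ⁻¹' bad)
        {η | t < |Us β h n k x η - Us β h n k 0 η|}
      have e2 : (law d ρ).real ((sh 0 (src k x)) ⁻¹' bad) = (law d ρ).real bad := by
        rw [Measure.real, Measure.real, (mp_sh 0 (src k x)).measure_preimage
          mbad.nullMeasurableSet]
      rw [e2] at e1
      linarith
    obtain ⟨M, hM⟩ := exists_med (ρ := ρ) (SX v W k 0) mF mG hFd hGd hFG
    refine ⟨M, ?_⟩
    have hM' : (law d ρ).real {η | t + 2 < |F η - M|} ≤ 3 * δ / 4 := by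
      refine le_trans (le_of_eq ?_) hM
      have mset : MeasurableSet {η | t + 2 < |F η - M|} :=
        measurableSet_lt measurable_const (mF.sub_const M).abs
      rw [Measure.real, Measure.real, ← (mp_sh 0 (src k x)).measure_preimage
        mset.nullMeasurableSet]
      rfl
    have hsub : {η | (n : ℝ) ^ b < |X β h η n - M|} ⊆ bad ∪ {η | t + 2 < |F η - M|} := by
      intro η hη
      by_contra hcon
      simp only [Set.mem_union, not_or] at hcon
      obtain ⟨c1, c2⟩ := hcon
      simp only [hbad, Set.mem_ofPred_eq, not_lt] at c1 c2 hη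
      obtain ⟨k1, k2⟩ := near1 hd β h v n W c1
      have e3 : |X β h η n - M| ≤ t + 3 := by
        rw [abs_le] at c2 ⊢
        have k1' : X β h η n - 1 ≤ F η := k1
        have k2' : F η ≤ X β h η n := k2
        constructor
        · linarith [c2.1]
        · linarith [c2.2]
      have e4 : t + 3 ≤ (n : ℝ) ^ b := by
        rw [ht]
        linarith
      linarith
    refine (measureReal_mono hsub).trans ((measureReal_union_le _ _).trans ?_)
    linarith
  choose! M hM using key
  exact ⟨M, n2, fun n hn => hM n hn⟩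

end Pool.Agent.W_7d29a1_VT
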