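import Pool.Agent.W_7d29a1_VT.VarT10
import Pool.Agent.W_7d29a1_VT.ExcT10
import Pool.Agent.W_7d29a1_VT.Med67
import Pool.Agent.W_7d29a1_VT.Low67
import Pool.Agent.W_7d29a1_VT.AddT36
import Pool.Agent.W_7d29a1_VT.Fin53
import Pool.Agent.W_7d29a1_VT.Chi46
import Pool.Agent.W_7d29a1_V.Main46

/-!
`2 χ ≤ ν` for the exponents of the problem itself, at every tilt and every direction, in every
dimension.
-/

namespace Pool.Agent.W_7d29a1_VT

open MeasureTheory ProbabilityTheory Filter Topology Pool.Agent.W_MP_7d29a1_pr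
  Pool.Agent.W_7d29a1_h46 Pool.Agent.W_7d29a1_h46u Pool.Agent.W_7d29a1_D2
  Pool.Agent.W_7d29a1_D2.B35 Pool.Agent.W_7d29a1_V

variable {d : ℕ} {Ω : Type*} [MeasurableSpace Ω] {μ : Measure Ω} [IsProbabilityMeasure μ]
  {ρ : Measure ℝ} [IsProbabilityMeasure ρ] {ω : ℕ × Site d → Ω → ℝ} {β : ℝ} {h v : Vec d}

/-- The variance of `log Z_n` is at most `n ^ (2 x)` for every `x > a / 2` when the polymer stays in
the tube of radius `n ^ a` with probability tending to one. -/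
theorem varAll10 (hd : 0 < d) (hρ : EM ρ) (β : ℝ) (h v : Vec d) {a : ℝ} (ha0 : 0 < a) (ha1 : a < 1)
    (hT : TbP ρ β h v a) : VarT ρ β h a := by
  have hS := spaceV46 hd hρ β ‖h‖
  exact varT hd hρ β h ha0 ha1 (medT hd hρ hS ha0 ha1 hT) (lowT hd hρ hS ha0 ha1 hT)
    (addT36 hd hρ hS ha0 ha1 hT) (excT hd β h a)

/-- **`2 χ ≤ ν`** at every tilt and every direction. -/
theorem chiAll10 (hd : 0 < d) (hω : IID μ ρ ω) (hρ : EM ρ) (β : ℝ) (h v : Vec d) :
    2 * chiT μ β ω h ≤ nuT μ β ω h v :=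
  chi_le53 hd hω hρ fun _ ha0 ha1 hT => varAll10 hd hρ β h v ha0 ha1 hT

end Pool.Agent.W_7d29a1_VT
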