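import Pool.Agent.W_7d29a1_VT.DefsT10
import Pool.Agent.W_7d29a1_h46u.StrA
import Pool.Agent.W_7d29a1_h46u.RateU
import Pool.Agent.W_7d29a1_h46u.LamU

/-!
The nonrandom fluctuation `n λ - E log Z_n` is at most `n ^ x` for every `x > ν / 2`, where `ν` is
the exponent of the problem itself.
-/

namespace Pool.Agent.W_7d29a1_VT

open MeasureTheory ProbabilityTheory Filter Topology Pool.Agent.W_MP_7d29a1_pr
  Pool.Agent.W_7d29a1_h46 Pool.Agent.W_7d29a1_h46u Pool.Agent.W_7d29a1_D2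
  Pool.Agent.W_7d29a1_D2.B35 Pool.Agent.W_7d29a1_V

namespace Non74

/-- Iteration of a doubling inequality. -/
lemma dbl {A : ℕ → ℝ} {L : ℝ} (hA : Tendsto (fun n : ℕ => A n / n) atTop (𝓝 L)) {c : ℝ}
    (hc : c < 1) {C : ℝ} (hC : 0 ≤ C) {n₀ : ℕ}
    (H : ∀ n, n₀ ≤ n → A (2 * n) ≤ 2 * A n + C * (n : ℝ) ^ c) (n : ℕ) (hn : n₀ ≤ n)
    (hn1 : 1 ≤ n) :
    n * L - A n ≤ C / 2 * (1 - (2 : ℝ) ^ (c - 1))⁻¹ * (n : ℝ) ^ c := by
  have hn0 : (0 : ℝ) < n := by exact_mod_cast hn1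
  have hr0 : 0 < (2 : ℝ) ^ (c - 1) := Real.rpow_pos_of_pos two_pos _
  have hr1 : (2 : ℝ) ^ (c - 1) < 1 := Real.rpow_lt_one_of_one_lt_of_neg one_lt_two (by linarith)
  set r : ℝ := (2 : ℝ) ^ (c - 1) with hr
  set D : ℝ := C / 2 * (1 - r)⁻¹ * (n : ℝ) ^ c with hD
  have hDe : D * (1 - r) = C / 2 * (n : ℝ) ^ c := by
    rw [hD]
    have h1 : (1 - r) ≠ 0 := by linarith
    field_simp
  have hD0 : 0 ≤ D := by
    rw [hD]
    have h1 : 0 < 1 - r := by linarith
    positivity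
  have key : ∀ k : ℕ, A (2 ^ k * n) ≤ 2 ^ k * (A n + D * (1 - r ^ k)) := by
    intro k
    induction k with
    | zero => simp
    | succ k ih =>
      have hk1 : n₀ ≤ 2 ^ k * n := hn.trans (Nat.le_mul_of_pos_left _ (by positivity))
      have h1 := H (2 ^ k * n) hk1
      have e1 : 2 ^ (k + 1) * n = 2 * (2 ^ k * n) := by ring
      have e2 : (((2 ^ k * n : ℕ) : ℝ)) ^ c = r ^ k * 2 ^ k * (n : ℝ) ^ c := by
        rw [hr]
        push_cast
        rw [Real.mul_rpow (by positivity) hn0.le, ← Real.rpow_natCast, ← Real.rpow_natCast,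
          ← Real.rpow_mul (by norm_num), ← Real.rpow_mul (by norm_num),
          ← Real.rpow_add (by norm_num)]
        ring_nf
      rw [e1]
      rw [e2] at h1
      have h3 : C * (r ^ k * 2 ^ k * (n : ℝ) ^ c) = 2 * 2 ^ k * (D * (1 - r)) * r ^ k := by
        rw [hDe]
        ring
      rw [h3] at h1
      have h4 : (2 : ℝ) ^ (k + 1) * (A n + D * (1 - r ^ (k + 1))) =
          2 * (2 ^ k * (A n + D * (1 - r ^ k))) + 2 * 2 ^ k * (D * (1 - r)) * r ^ k := by ring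
      rw [h4]
      linarith
  have key2 : ∀ k : ℕ, A (2 ^ k * n) / 2 ^ k ≤ A n + D := by
    intro k
    have h2 : (0 : ℝ) < 2 ^ k := by positivity
    rw [div_le_iff₀ h2]
    have h3 : 0 ≤ D * r ^ k := mul_nonneg hD0 (pow_nonneg hr0.le k)
    have h4 := key k
    have h5 : 2 ^ k * (A n + D * (1 - r ^ k)) = (A n + D) * 2 ^ k - 2 ^ k * (D * r ^ k) := by
      ring
    have h6 : 0 ≤ 2 ^ k * (D * r ^ k) := mul_nonneg h2.le h3
    linarith
  have hlim : Tendsto (fun j : ℕ => A (2 ^ j * n) / 2 ^ j) atTop (𝓝 (n * L)) := by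
    have h1 : Tendsto (fun j : ℕ => 2 ^ j * n) atTop atTop :=
      Filter.Tendsto.atTop_mul_const' hn1 (tendsto_pow_atTop_atTop_of_one_lt one_lt_two)
    have h2 := (hA.comp h1).const_mul (n : ℝ)
    refine h2.congr fun j => ?_
    simp only [Function.comp]
    push_cast
    have h3 : (2 : ℝ) ^ j ≠ 0 := by positivity
    field_simp
  have h4 := le_of_tendsto' hlim key2
  linarith

variable {d : ℕ} {ρ : Measure ℝ} [IsProbabilityMeasure ρ] {β : ℝ} {h : Vec d}

/-- The typical value is near the mean. -/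
lemma near (hd : 0 < d) (hρ : EM ρ) {M : ℕ → ℝ} {b : ℝ} {n₀ : ℕ} {n : ℕ} (hn : n₀ ≤ n)
    (hn1 : 1 ≤ n) (hM : MedN ρ β h M b (1 / 4) n₀)
    (hV : ∫ η, |X β h η n - A ρ β h n| ^ 2 ∂(law d ρ) ≤ (n : ℝ) ^ (2 * b)) :
    |M n - A ρ β h n| ≤ 3 * (n : ℝ) ^ b := by
  have hn0 : (0 : ℝ) < n := by exact_mod_cast hn1
  have hp : 0 < (n : ℝ) ^ b := Real.rpow_pos_of_pos hn0 _
  obtain ⟨C, -, hC⟩ := momU hd hρ β 2
  have hI := (hC h n hn1).1
  have h1 : (law d ρ).real {η | (n : ℝ) ^ b < |X β h η n - M n|} ≤ 1 / 4 := hM n hn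
  have h2 : (law d ρ).real {η | (2 * (n : ℝ) ^ b) ^ 2 ≤ |X β h η n - A ρ β h n| ^ 2} ≤ 1 / 4 := by
    have h3 := mul_meas_ge_le_integral_of_nonneg (μ := law d ρ)
      (f := fun η => |X β h η n - A ρ β h n| ^ 2) (Filter.Eventually.of_forall fun η => by
        positivity) hI ((2 * (n : ℝ) ^ b) ^ 2)
    have h4 : (n : ℝ) ^ (2 * b) = ((n : ℝ) ^ b) ^ 2 := by
      rw [← Real.rpow_natCast, ← Real.rpow_mul hn0.le]
      congr 1
      push_cast
      ring
    have h5 := h3.trans hV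
    rw [h4] at h5
    have h6 : 0 < ((n : ℝ) ^ b) ^ 2 := by positivity
    have h7 : (2 * (n : ℝ) ^ b) ^ 2 = 4 * ((n : ℝ) ^ b) ^ 2 := by ring
    by_contra hcon
    push Not at hcon
    have h8 := mul_lt_mul_of_pos_left hcon (show 0 < (2 * (n : ℝ) ^ b) ^ 2 by positivity)
    nlinarith [h5, h8, h6, h7]
  have h3 : ∃ η : Env d, ¬ (n : ℝ) ^ b < |X β h η n - M n| ∧
      ¬ (2 * (n : ℝ) ^ b) ^ 2 ≤ |X β h η n - A ρ β h n| ^ 2 := by
    by_contra hcon
    push Not at hcon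
    have h4 : (Set.univ : Set (Env d)) ⊆ {η | (n : ℝ) ^ b < |X β h η n - M n|} ∪
        {η | (2 * (n : ℝ) ^ b) ^ 2 ≤ |X β h η n - A ρ β h n| ^ 2} := by
      intro η _
      by_cases h5 : (n : ℝ) ^ b < |X β h η n - M n|
      · exact Or.inl h5
      · exact Or.inr (hcon η (not_lt.1 h5))
    have h5 := (measureReal_mono (μ := law d ρ) h4).trans (measureReal_union_le _ _)
    rw [probReal_univ] at h5
    linarith
  obtain ⟨η, h4, h5⟩ := h3
  have h6 : |X β h η n - A ρ β h n| < 2 * (n : ℝ) ^ b := by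
    by_contra hcon
    exact h5 (pow_le_pow_left₀ (by positivity) (not_lt.1 hcon) 2)
  have h7 : M n - A ρ β h n = -(X β h η n - M n) + (X β h η n - A ρ β h n) := by ring
  rw [h7]
  refine (abs_add_le _ _).trans ?_
  rw [abs_neg]
  linarith [not_lt.1 h4]

end Non74

open Non74

variable {d : ℕ} {ρ : Measure ℝ} [IsProbabilityMeasure ρ] {β : ℝ} {h : Vec d} {a : ℝ}

/-- The nonrandom fluctuation, from the leaves. -/
theorem gap74 (hd : 0 < d) (hρ : EM ρ) (ha1 : a < 1) (hM : MedT ρ β h a)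
    (hA : AddT ρ β h a) (hV : VarT ρ β h a) {x : ℝ} (ha0 : 0 < a) (hx : a / 2 < x) :
    ∃ n₀ : ℕ, ∀ n : ℕ, n₀ ≤ n → n * lam ρ β h - A ρ β h n ≤ (n : ℝ) ^ x := by
  obtain ⟨b', hb1, hb2⟩ := exists_between (lt_min hx (show a / 2 < 1 by linarith))
  have hb'x : b' < x := lt_of_lt_of_le hb2 (min_le_left _ _)
  have hb'1 : b' < 1 := lt_of_lt_of_le hb2 (min_le_right _ _)
  obtain ⟨b, hab, hbb⟩ := exists_between hb1
  obtain ⟨δ₀, hδ₀, hAdd⟩ := hA b hab
  obtain ⟨M, n0, hMed⟩ := hM b hab (min δ₀ (1 / 4)) (lt_min hδ₀ (by norm_num))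
  have hMed0 : MedN ρ β h M b δ₀ n0 := fun n hn => (hMed n hn).trans (min_le_left _ _)
  have hMed4 : MedN ρ β h M b (1 / 4) n0 := fun n hn => (hMed n hn).trans (min_le_right _ _)
  obtain ⟨n1, hn1⟩ := hAdd M n0 hMed0 b' hbb
  obtain ⟨n2, hn2⟩ := hV b hab
  have hb0 : 0 < b := by linarith
  have hb'0 : 0 < b' := by linarith
  -- `(2 n) ^ a ≤ n` eventually
  have ht : Tendsto (fun n : ℕ => (n : ℝ) ^ (1 - a)) atTop atTop :=
    (tendsto_rpow_atTop (by linarith)).comp tendsto_natCast_atTop_atTop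
  obtain ⟨n3, hn3⟩ := eventually_atTop.1 (ht.eventually_ge_atTop 2)
  have hdbl : ∀ n, max (max n0 n1) (max n2 (max n3 1)) ≤ n →
      A ρ β h (2 * n) ≤ 2 * A ρ β h n + 14 * (n : ℝ) ^ b' := by
    intro n hn
    have g0 : n0 ≤ n := (le_max_left _ _).trans ((le_max_left _ _).trans hn)
    have g1 : n1 ≤ n := (le_max_right _ _).trans ((le_max_left _ _).trans hn)
    have g2 : n2 ≤ n := (le_max_left _ _).trans ((le_max_right _ _).trans hn)
    have g3 : n3 ≤ n :=
      (le_max_left _ _).trans ((le_max_right _ _).trans ((le_max_right _ _).trans hn))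
    have g4 : 1 ≤ n :=
      (le_max_right _ _).trans ((le_max_right _ _).trans ((le_max_right _ _).trans hn))
    have hn0 : (0 : ℝ) < n := by exact_mod_cast g4
    have hnr : (1 : ℝ) ≤ n := by exact_mod_cast g4
    have hpow : ((2 * n : ℕ) : ℝ) ^ a ≤ n := by
      push_cast
      rw [Real.mul_rpow (by norm_num) hn0.le]
      have h1 : (2 : ℝ) ^ a ≤ 2 := by
        conv_rhs => rw [← Real.rpow_one 2]
        exact Real.rpow_le_rpow_of_exponent_le (by norm_num) ha1.le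
      have h2 := hn3 n g3
      have h3 : (n : ℝ) ^ (1 - a) * (n : ℝ) ^ a = n := by
        rw [← Real.rpow_add hn0]
        simp
      have h4 : 0 ≤ (n : ℝ) ^ a := Real.rpow_nonneg hn0.le _
      nlinarith [mul_le_mul_of_nonneg_right h1 h4, mul_le_mul_of_nonneg_right h2 h4]
    have hM2 := hn1 (2 * n) n n (by omega) (by ring) hpow hpow
    have k1 := near hd hρ g0 g4 hMed4 (hn2 n g2)
    have k2 := near hd hρ (n := 2 * n) (by omega) (by omega) hMed4 (hn2 (2 * n) (by omega))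
    have k3 : (n : ℝ) ^ b ≤ (n : ℝ) ^ b' := Real.rpow_le_rpow_of_exponent_le hnr hbb.le
    have k4 : ∀ y : ℝ, 0 ≤ y → y ≤ 1 → ((2 * n : ℕ) : ℝ) ^ y ≤ 2 * (n : ℝ) ^ y := by
      intro y _ hy1
      push_cast
      rw [Real.mul_rpow (by norm_num) hn0.le]
      have h1 : (2 : ℝ) ^ y ≤ 2 := by
        conv_rhs => rw [← Real.rpow_one 2]
        exact Real.rpow_le_rpow_of_exponent_le (by norm_num) hy1
      exact mul_le_mul_of_nonneg_right h1 (Real.rpow_nonneg hn0.le _)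
    have k5 := k4 b hb0.le (by linarith)
    have k6 := k4 b' hb'0.le hb'1.le
    have k7 := abs_le.1 k1
    have k8 := abs_le.1 k2
    linarith [k7.1, k7.2, k8.1, k8.2]
  have hlim := dbl (tendsto_A hd hρ β h) hb'1 (show (0 : ℝ) ≤ 14 by norm_num) hdbl
  set D : ℝ := 14 / 2 * (1 - (2 : ℝ) ^ (b' - 1))⁻¹ with hD
  have ht2 : Tendsto (fun n : ℕ => (n : ℝ) ^ (x - b')) atTop atTop :=
    (tendsto_rpow_atTop (by linarith)).comp tendsto_natCast_atTop_atTop
  obtain ⟨n4, hn4⟩ := eventually_atTop.1 (ht2.eventually_ge_atTop D)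
  refine ⟨max n4 (max (max n0 n1) (max n2 (max n3 1))), fun n hn => ?_⟩
  have g := (le_max_right _ _).trans hn
  have g4 : 1 ≤ n :=
    (le_max_right _ _).trans ((le_max_right _ _).trans ((le_max_right _ _).trans g))
  have hn0 : (0 : ℝ) < n := by exact_mod_cast g4
  have h1 := hn4 n ((le_max_left _ _).trans hn)
  have h2 : (n : ℝ) ^ (x - b') * (n : ℝ) ^ b' = (n : ℝ) ^ x := by
    rw [← Real.rpow_add hn0]
    congr 1
    ring
  refine (hlim n g g4).trans ?_
  rw [← h2]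
  exact mul_le_mul_of_nonneg_right h1 (Real.rpow_nonneg hn0.le _)

variable {Ω : Type*} [MeasurableSpace Ω] {μ : Measure Ω} [IsProbabilityMeasure μ]
  {ω : ℕ × Site d → Ω → ℝ} {v : Vec d}

/-- The mean of `log Z_n` of the problem, in the letters of the model. -/
lemma mean74 (hd : 0 < d) (hω : IID μ ρ ω) (hρ : EM ρ) (β : ℝ) (h : Vec d) (n : ℕ) :
    ∫ y, Real.log (Zn β h (fun p => ω p y) n) ∂μ = A ρ β h n - n * Real.log (2 * d) := by
  have hX := measurable_X (d := d) β h n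
  have e2 : ∫ z, Real.log (Zn β h (fun p => ω p z) n) ∂μ =
      ∫ z, (fun η : Env d => X β h η n - Real.log ((2 * d : ℝ) ^ n)) (fun p => ω p z) ∂μ :=
    integral_congr_ae (Filter.Eventually.of_forall fun z => StrA_log hd β h _ n)
  rw [e2, StrA_int hω (hX.sub_const _), integral_sub (concU hd hρ β h n).1 (integrable_const _),
    integral_const, Real.log_pow]
  unfold A
  simp

/-- The nonrandom fluctuation for the exponent of the problem itself: for every `x > ν / 2` and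
all large `n`, `0 ≤ n λ - E log Z_n ≤ n ^ x`, where `λ = lam - log (2 d)` is the free energy. -/
theorem non74 (hd : 0 < d) (hω : IID μ ρ ω) (hρ : EM ρ)
    (hall : ∀ a : ℝ, 0 < a → a < 1 → nuT μ β ω h v < a →
      MedT ρ β h a ∧ AddT ρ β h a ∧ VarT ρ β h a) {x : ℝ} (hx : nuT μ β ω h v / 2 < x) :
    ∀ᶠ n : ℕ in atTop, 0 ≤ n * (lam ρ β h - Real.log (2 * d)) -
        ∫ y, Real.log (Zn β h (fun p => ω p y) n) ∂μ ∧
      n * (lam ρ β h - Real.log (2 * d)) -
        ∫ y, Real.log (Zn β h (fun p => ω p y) n) ∂μ ≤ (n : ℝ) ^ x := by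
  have h0 : 0 ≤ nuT μ β ω h v := Real.sInf_nonneg fun b hb => hb.1.le
  have hgap : ∀ᶠ n : ℕ in atTop, n * lam ρ β h - A ρ β h n ≤ (n : ℝ) ^ x := by
    rcases lt_or_ge (1 / 2) x with hx2 | hx2
    · obtain ⟨y, hy1, hy2⟩ := exists_between (lt_min hx2 (show (1 / 2 : ℝ) < 1 by norm_num))
      have hyx : y < x := lt_of_lt_of_le hy2 (min_le_left _ _)
      have hy1' : y < 1 := lt_of_lt_of_le hy2 (min_le_right _ _)
      obtain ⟨δ, hδ, C, hC, H⟩ := rateU hd hρ (by norm_num) (Fl_half hd hρ β h)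
        (show 0 < y - 1 / 2 by linarith) (by linarith)
      have ht2 : Tendsto (fun n : ℕ => (n : ℝ) ^ (x - y)) atTop atTop :=
        (tendsto_rpow_atTop (by linarith)).comp tendsto_natCast_atTop_atTop
      filter_upwards [ht2.eventually_ge_atTop C, eventually_ge_atTop 1] with n hn hn1
      have hn0 : (0 : ℝ) < n := by exact_mod_cast hn1
      have h1 := H h (by simpa using hδ) n hn1
      have h2 : (n : ℝ) ^ (x - y) * (n : ℝ) ^ y = (n : ℝ) ^ x := by
        rw [← Real.rpow_add hn0]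
        congr 1
        ring
      have h3 : (1 / 2 + (y - 1 / 2) : ℝ) = y := by ring
      rw [h3] at h1
      refine h1.trans ?_
      rw [← h2]
      exact mul_le_mul_of_nonneg_right hn (Real.rpow_nonneg hn0.le _)
    · obtain ⟨a, ha1, ha2⟩ := exists_between (show nuT μ β ω h v < 2 * x by linarith)
      have ha0 : 0 < a := lt_of_le_of_lt h0 ha1
      obtain ⟨hM, hA, hV⟩ := hall a ha0 (by linarith) ha1
      obtain ⟨n₀, hn₀⟩ := gap74 hd hρ (by linarith) hM hA hV ha0 (show a / 2 < x by linarith)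
      exact eventually_atTop.2 ⟨n₀, hn₀⟩
  filter_upwards [hgap] with n hn
  rw [mean74 hd hω hρ]
  have h1 := A_le_lam hd hρ β h n
  constructor <;> nlinarith [h1, hn]

end Pool.Agent.W_7d29a1_VT
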