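import Pool.Agent.W_7d29a1_VT.VTAll10
import Pool.Agent.W_7d29a1_VT.Non74

/-!
The nonrandom fluctuation of the free energy for the exponent of the problem itself.
-/

namespace Pool.Agent.W_7d29a1_VT

open MeasureTheory ProbabilityTheory Filter Topology Pool.Agent.W_MP_7d29a1_pr
  Pool.Agent.W_7d29a1_h46 Pool.Agent.W_7d29a1_h46u Pool.Agent.W_7d29a1_D2
  Pool.Agent.W_7d29a1_D2.B35 Pool.Agent.W_7d29a1_V

variable {d : ℕ} {Ω : Type*} [MeasurableSpace Ω] {μ : Measure Ω} [IsProbabilityMeasure μ]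
  {ρ : Measure ℝ} [IsProbabilityMeasure ρ] {ω : ℕ × Site d → Ω → ℝ}

/-- The nonrandom fluctuation: for every tilt `h`, every direction `v` and every `x > ν (h, v) / 2`,
`0 ≤ n f - E log Z_n (h) ≤ n ^ x` for all large `n`, where `f = lim (1/n) log Z_n (h)`. -/
theorem nonAll74 (hd : 0 < d) (hω : IID μ ρ ω) (hρ : EM ρ) (β : ℝ) (h v : Vec d) {x : ℝ}
    (hx : nuT μ β ω h v / 2 < x) :
    ∀ᶠ n : ℕ in atTop, 0 ≤ n * (lam ρ β h - Real.log (2 * d)) -
        ∫ y, Real.log (Zn β h (fun p => ω p y) n) ∂μ ∧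
      n * (lam ρ β h - Real.log (2 * d)) -
        ∫ y, Real.log (Zn β h (fun p => ω p y) n) ∂μ ≤ (n : ℝ) ^ x := by
  refine non74 (v := v) hd hω hρ (fun a ha0 ha1 ha => ?_) hx
  have hS := spaceV46 hd hρ β ‖h‖
  have hT : TbP ρ β h v a := tbP53 hd hω ha
  exact ⟨medT hd hρ hS ha0 ha1 hT, addT36 hd hρ hS ha0 ha1 hT,
    varAll10 hd hρ β h v ha0 ha1 hT⟩

end Pool.Agent.W_7d29a1_VT
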