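import Pool.Agent.W_7d29a1_V.DefsL70

/-!
The wandering exponent of one component of the polymer: definitions.
-/

namespace Pool.Agent.W_7d29a1_VT

open MeasureTheory ProbabilityTheory Filter Topology Set Pool.Agent.W_MP_7d29a1_pr
  Pool.Agent.W_7d29a1_h46 Pool.Agent.W_7d29a1_h46u Pool.Agent.W_7d29a1_D2 Pool.Agent.W_7d29a1_V

/-- The point of parameter `r` on the line through `h` in the direction `u`. -/
noncomputable def ray {d : ℕ} (h u : Vec d) (r : ℝ) : Vec d := h + r • u

/-- The set in the definition of the strong wandering exponent of the component `u`. -/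
def nuSetL {Ω : Type*} [MeasurableSpace Ω] (μ : Measure Ω) {d : ℕ} (β : ℝ)
    (ω : ℕ × Site d → Ω → ℝ) (h u : Vec d) (s : ℝ) : Set ℝ :=
  {a | 0 < a ∧ ∀ q : ℕ, ∃ C : ℝ, ∀ n : ℕ, 1 ≤ n →
    ∫ x, (1 - PolT β h (fun p => ω p x) (slb d n u s ((n : ℝ) ^ a))) ∂μ ≤ C * (n : ℝ) ^ (-(q : ℝ))}

/-- The strong wandering exponent of the component `u` at the tilt `h` with the speed `s`: the
infimum of the `a > 0` such that the expected polymer probability of leaving the slab
`|⟨u, S_i⟩ - i s| ≤ n ^ a`, `i ≤ n`, is `O(n ^ (-q))` for every `q`. -/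
noncomputable def nuL {Ω : Type*} [MeasurableSpace Ω] (μ : Measure Ω) {d : ℕ} (β : ℝ)
    (ω : ℕ × Site d → Ω → ℝ) (h u : Vec d) (s : ℝ) : ℝ := sInf (nuSetL μ β ω h u s)

end Pool.Agent.W_7d29a1_VT
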