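import Pool.Agent.W_7d29a1_V.DimL33
import Pool.Agent.W_7d29a1_VT.SlabD46

/-!
The wandering of one component of the polymer: the exponent `nuL` of the slab
`|⟨u, S_i⟩ - i s| ≤ n ^ a`, its lower bound `2 χ` and its upper bound on every line of tilts.
-/

namespace Pool.Agent.W_7d29a1_VT

open MeasureTheory ProbabilityTheory Filter Topology Set Pool.Agent.W_MP_7d29a1_pr
  Pool.Agent.W_7d29a1_h46 Pool.Agent.W_7d29a1_h46u Pool.Agent.W_7d29a1_D2 Pool.Agent.W_7d29a1_V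

/-- The condition of `nuSetL` in the model `law d ρ`. -/
def SbF {d : ℕ} (ρ : Measure ℝ) (β : ℝ) (h u : Vec d) (s a : ℝ) : Prop :=
  ∀ q : ℕ, ∃ C : ℝ, ∀ n : ℕ, 1 ≤ n →
    ∫ η, (1 - PolT β h η (slb d n u s ((n : ℝ) ^ a))) ∂(law d ρ) ≤ C * (n : ℝ) ^ (-(q : ℝ))

namespace Slab46

lemma slb_univ {d n : ℕ} (u : Vec d) (s : ℝ) {W : ℝ} (h : (n : ℝ) * (‖u‖ + |s|) ≤ W) :
    slb d n u s W = Set.univ := by
  rw [Set.eq_univ_iff_forall]
  intro q i hi
  have hi' : (i : ℝ) ≤ n := by exact_mod_cast hi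
  have h1 : ‖emb (pos q i)‖ ≤ n := by
    rw [norm_emb]
    exact nrm_pos_le q i
  have h2 : |inner ℝ u (emb (pos q i))| ≤ ‖u‖ * n :=
    (abs_real_inner_le_norm _ _).trans (mul_le_mul_of_nonneg_left h1 (norm_nonneg u))
  have h3 : |(i : ℝ) * s| ≤ n * |s| := by
    rw [abs_mul, abs_of_nonneg (Nat.cast_nonneg i)]
    exact mul_le_mul_of_nonneg_right hi' (abs_nonneg s)
  calc |inner ℝ u (emb (pos q i)) - i * s| ≤ |inner ℝ u (emb (pos q i))| + |(i : ℝ) * s| :=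
        abs_sub _ _
    _ ≤ ‖u‖ * n + n * |s| := add_le_add h2 h3
    _ ≤ W := by linarith

lemma slb_scale {d n : ℕ} (u : Vec d) (s : ℝ) {c W W' : ℝ} (hc : 0 < c) (hW : W ≤ c * W') :
    slb d n (c • u) (s * c) W ⊆ slb d n u s W' := by
  intro q hq i hi
  have h1 := hq i hi
  rw [inner_smul_left] at h1
  have h2 : (starRingEnd ℝ) c * inner ℝ u (emb (pos q i)) - i * (s * c) =
      c * (inner ℝ u (emb (pos q i)) - i * s) := by
    simp only [conj_trivial]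
    ring
  rw [h2, abs_mul, abs_of_pos hc] at h1
  exact le_of_mul_le_mul_left (h1.trans hW) hc

variable {d : ℕ} {ρ : Measure ℝ} [IsProbabilityMeasure ρ] {β : ℝ}

lemma int_PolT (β : ℝ) (h : Vec d) {n : ℕ} (E : Set (Fin n → Step d)) :
    Integrable (fun η : Env d => 1 - PolT β h η E) (law d ρ) := by
  refine (integrable_const (1 : ℝ)).mono' ((measurable_PolT β h _).const_sub 1).aestronglyMeasurable
    (Filter.Eventually.of_forall fun η => ?_)
  rw [Real.norm_eq_abs, abs_le]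
  have e1 := PolT_le_one β h η E
  have e2 := PolT_nonneg β h η E
  exact ⟨by linarith, by linarith⟩

/-- From one family of sets to a larger one. -/
lemma fam_mono {h : Vec d} {E E' : (n : ℕ) → Set (Fin n → Step d)} {N : ℕ}
    (hE : ∀ n : ℕ, N ≤ n → 1 ≤ n → E n ⊆ E' n) {q : ℕ}
    (H : ∃ C : ℝ, ∀ n : ℕ, 1 ≤ n →
      ∫ η, (1 - PolT β h η (E n)) ∂(law d ρ) ≤ C * (n : ℝ) ^ (-(q : ℝ))) :
    ∃ C : ℝ, ∀ n : ℕ, 1 ≤ n →
      ∫ η, (1 - PolT β h η (E' n)) ∂(law d ρ) ≤ C * (n : ℝ) ^ (-(q : ℝ)) := by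
  obtain ⟨C, hC⟩ := H
  refine ⟨|C| + (N : ℝ) ^ (q : ℝ), fun n hn => ?_⟩
  have hn0 : (0 : ℝ) < n := by exact_mod_cast hn
  have hq0 : 0 < (n : ℝ) ^ (-(q : ℝ)) := Real.rpow_pos_of_pos hn0 _
  have hN0 : 0 ≤ (N : ℝ) ^ (q : ℝ) := Real.rpow_nonneg (Nat.cast_nonneg N) _
  rcases le_or_gt N n with hNn | hNn
  · have h1 : ∫ η, (1 - PolT β h η (E' n)) ∂(law d ρ) ≤ ∫ η, (1 - PolT β h η (E n)) ∂(law d ρ) :=
      integral_mono (int_PolT β h _) (int_PolT β h _) fun η =>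
        sub_le_sub_left (PolT_mono β h η (hE n hNn hn)) 1
    have h2 : C * (n : ℝ) ^ (-(q : ℝ)) ≤ (|C| + (N : ℝ) ^ (q : ℝ)) * (n : ℝ) ^ (-(q : ℝ)) :=
      mul_le_mul_of_nonneg_right (by linarith [le_abs_self C]) hq0.le
    exact (h1.trans (hC n hn)).trans h2
  · have h1 : ∫ η, (1 - PolT β h η (E' n)) ∂(law d ρ) ≤ 1 := by
      have h2 := integral_mono (μ := law d ρ) (int_PolT β h (E' n)) (integrable_const (1 : ℝ))
        fun η => sub_le_self _ (PolT_nonneg β h η (E' n))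
      refine h2.trans (le_of_eq ?_)
      simp
    refine h1.trans ?_
    have h3 : 1 ≤ (N : ℝ) ^ (q : ℝ) * (n : ℝ) ^ (-(q : ℝ)) := by
      rw [Real.rpow_neg hn0.le, ← div_eq_mul_inv, one_le_div (Real.rpow_pos_of_pos hn0 _)]
      exact Real.rpow_le_rpow hn0.le (by exact_mod_cast hNn.le) (Nat.cast_nonneg q)
    have h4 : 0 ≤ |C| * (n : ℝ) ^ (-(q : ℝ)) := mul_nonneg (abs_nonneg C) hq0.le
    linarith

/-- Scaling of the direction. -/
lemma SbF_scale {h u : Vec d} {s a b c : ℝ} (hc : 0 < c) (hab : a < b)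
    (H : SbF ρ β h (c • u) (s * c) a) : SbF ρ β h u s b := by
  obtain ⟨N, hN⟩ : ∃ N : ℕ, ∀ n : ℕ, N ≤ n → 1 ≤ n → (n : ℝ) ^ a ≤ c * (n : ℝ) ^ b := by
    have h1 : Tendsto (fun n : ℕ => (n : ℝ) ^ (b - a)) atTop atTop :=
      (tendsto_rpow_atTop (by linarith)).comp tendsto_natCast_atTop_atTop
    obtain ⟨N, hN⟩ := eventually_atTop.1 (h1.eventually_ge_atTop (1 / c))
    refine ⟨N, fun n hn hn1 => ?_⟩
    have hn0 : (0 : ℝ) < n := by exact_mod_cast hn1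
    have h2 := hN n hn
    have h3 : (n : ℝ) ^ b = (n : ℝ) ^ a * (n : ℝ) ^ (b - a) := by
      rw [← Real.rpow_add hn0]
      congr 1
      ring
    have h4 : 1 ≤ c * (n : ℝ) ^ (b - a) := by
      rw [div_le_iff₀ hc] at h2
      linarith
    have h5 : 0 ≤ (n : ℝ) ^ a := Real.rpow_nonneg hn0.le _
    rw [h3]
    nlinarith
  intro q
  exact fam_mono (E := fun n => slb d n (c • u) (s * c) ((n : ℝ) ^ a))
    (E' := fun n => slb d n u s ((n : ℝ) ^ b)) (N := N)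
    (fun n hn hn1 => slb_scale u s hc (hN n hn hn1)) (H q)

/-- The moments from the slab, for a direction with a coordinate of absolute value at least `1`. -/
lemma flF_of_slab1 (hd : 0 < d) (hρ : EM ρ) {h u : Vec d} {k : Fin d} (hk : 1 ≤ |u k|)
    {s a x : ℝ} (ha : 0 < a) (ha1 : a < 1) (hax : a < 2 * x) (H : SbF ρ β h u s a) :
    FlF ρ β h x := by
  intro q
  obtain ⟨Q, C₂, H₂⟩ := slbV96 hd hρ β ‖h‖ hk (spaceV46 hd hρ β ‖h‖) (x - a / 2) q (by linarith)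
  obtain ⟨C₁, H₁⟩ := H (Q + 1)
  obtain ⟨C₀, hC₀, H₀⟩ := momU (d := d) hd hρ β q
  obtain ⟨N, hN⟩ := exists_nat_ge (max C₁ 1)
  have hNC : C₁ ≤ N := (le_max_left _ _).trans hN
  have hN1 : (1 : ℝ) ≤ N := (le_max_right _ _).trans hN
  have hN0 : (0 : ℝ) < N := by linarith
  have hx0 : 0 < x := by linarith
  refine ⟨C₀ * ((N : ℝ) ^ (1 / 2 : ℝ)) ^ q + |C₂| ^ q, fun n hn => ?_⟩
  have hn1 : (1 : ℝ) ≤ n := by exact_mod_cast hn
  have hn0 : (0 : ℝ) < n := by linarith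
  have hp0 : 0 < (n : ℝ) ^ (x * q) := Real.rpow_pos_of_pos hn0 _
  have hp1 : 1 ≤ (n : ℝ) ^ (x * q) := Real.one_le_rpow hn1 (by positivity)
  have hC2 : 0 ≤ |C₂| ^ q := by positivity
  have hCN : 0 ≤ C₀ * ((N : ℝ) ^ (1 / 2 : ℝ)) ^ q := by positivity
  rcases le_or_gt n N with hnN | hnN
  · have h1 : (n : ℝ) ^ (1 / 2 : ℝ) ≤ (N : ℝ) ^ (1 / 2 : ℝ) :=
      Real.rpow_le_rpow hn0.le (by exact_mod_cast hnN) (by norm_num)
    have h2 : ((n : ℝ) ^ (1 / 2 : ℝ)) ^ q ≤ ((N : ℝ) ^ (1 / 2 : ℝ)) ^ q :=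
      pow_le_pow_left₀ (Real.rpow_nonneg hn0.le _) h1 q
    have hcr : ∫ η, |X β h η n - A ρ β h n| ^ q ∂(law d ρ) ≤
        C₀ * ((n : ℝ) ^ (1 / 2 : ℝ)) ^ q := by
      refine ((H₀ h n hn).2).trans (le_of_eq ?_)
      rw [Real.rpow_mul hn0.le, Real.rpow_natCast]
    refine hcr.trans ((mul_le_mul_of_nonneg_left h2 hC₀).trans ?_)
    nlinarith
  · have hW1 : 1 ≤ (n : ℝ) ^ a := Real.one_le_rpow hn1 ha.le
    have hWn : (n : ℝ) ^ a ≤ n := by
      have := Real.rpow_le_rpow_of_exponent_le hn1 ha1.le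
      rwa [Real.rpow_one] at this
    have h2 : C₁ * (n : ℝ) ^ (-((Q + 1 : ℕ) : ℝ)) ≤ (n : ℝ) ^ (-(Q : ℝ)) := by
      have h3 : C₁ ≤ n := hNC.trans (by exact_mod_cast hnN.le)
      have h4 : (n : ℝ) * (n : ℝ) ^ (-((Q + 1 : ℕ) : ℝ)) = (n : ℝ) ^ (-(Q : ℝ)) := by
        nth_rewrite 1 [← Real.rpow_one (n : ℝ)]
        rw [← Real.rpow_add hn0]
        congr 1
        push_cast
        ring
      rw [← h4]
      exact mul_le_mul_of_nonneg_right h3 (Real.rpow_nonneg hn0.le _)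
    have h5 := H₂ h le_rfl s n hn ((n : ℝ) ^ a) hW1 hWn ((H₁ n hn).trans h2)
    have h6 : (C₂ * Real.sqrt ((n : ℝ) ^ a) * (n : ℝ) ^ (x - a / 2)) ^ q =
        C₂ ^ q * (n : ℝ) ^ (x * q) := by
      rw [Real.sqrt_eq_rpow, ← Real.rpow_mul hn0.le, mul_assoc, ← Real.rpow_add hn0, mul_pow]
      congr 1
      rw [← Real.rpow_natCast, ← Real.rpow_mul hn0.le]
      congr 1
      ring
    rw [h6] at h5
    refine h5.trans ?_
    have h7 : C₂ ^ q ≤ |C₂| ^ q := by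
      rw [← abs_pow]
      exact le_abs_self _
    exact mul_le_mul_of_nonneg_right (by linarith) hp0.le

/-- The normalised direction. -/
lemma norm_dir {u : Vec d} (hu : u ≠ 0) :
    ∃ c : ℝ, 0 < c ∧ ∃ k : Fin d, 1 ≤ |(c • u) k| := by
  obtain ⟨k, hk⟩ := exists_norm_coord hu
  have hk0 : 0 < |u k| := abs_pos.2 hk
  refine ⟨|u k|⁻¹, inv_pos.2 hk0, k, ?_⟩
  rw [PiLp.smul_apply, smul_eq_mul, abs_mul, abs_inv, abs_abs, inv_mul_cancel₀ hk0.ne']

/-- The moments from the slab. -/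
lemma flF_of_slab (hd : 0 < d) (hρ : EM ρ) {h u : Vec d} (hu : u ≠ 0)
    {s a x : ℝ} (ha : 0 < a) (ha1 : a < 1) (hax : a < 2 * x) (H : SbF ρ β h u s a) :
    FlF ρ β h x := by
  obtain ⟨c, hc, k, hk⟩ := norm_dir hu
  obtain ⟨b, hab, hb⟩ := exists_between (lt_min ha1 hax)
  have hb1 : b < 1 := hb.trans_le (min_le_left _ _)
  have hb2 : b < 2 * x := hb.trans_le (min_le_right _ _)
  have h1 : SbF ρ β h (c • u) (s * c) b := by
    refine SbF_scale (c := c⁻¹) (inv_pos.2 hc) hab ?_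
    rw [smul_smul, inv_mul_cancel₀ hc.ne', one_smul, mul_assoc, mul_inv_cancel₀ hc.ne', mul_one]
    exact H
  exact flF_of_slab1 hd hρ hk (ha.trans hab) hb1 hb2 h1

end Slab46

open Slab46

variable {d : ℕ} {Ω : Type*} [MeasurableSpace Ω] {μ : Measure Ω} [IsProbabilityMeasure μ]
  {ρ : Measure ℝ} [IsProbabilityMeasure ρ] {ω : ℕ × Site d → Ω → ℝ} {β : ℝ}

/-- Transfer of the slab condition. -/
theorem mem_nuSetL (hω : IID μ ρ ω) (h u : Vec d) (s a : ℝ) :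
    a ∈ nuSetL μ β ω h u s ↔ 0 < a ∧ SbF ρ β h u s a := by
  unfold nuSetL SbF
  have e1 : ∀ n : ℕ, ∫ y, (1 - PolT β h (fun p => ω p y) (slb d n u s ((n : ℝ) ^ a))) ∂μ =
      ∫ η, (1 - PolT β h η (slb d n u s ((n : ℝ) ^ a))) ∂(law d ρ) := fun n =>
    StrA_int hω (F := fun η : Env d => 1 - PolT β h η (slb d n u s ((n : ℝ) ^ a)))
      ((measurable_PolT β h _).const_sub 1)
  simp only [Set.mem_ofPred_eq, e1]

/-- The set is not empty. -/
theorem two_mem_nuSetL (hd : 0 < d) (hω : IID μ ρ ω) (h u : Vec d) (s : ℝ) :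
    (2 : ℝ) ∈ nuSetL μ β ω h u s := by
  rw [mem_nuSetL hω]
  refine ⟨two_pos, fun q => ?_⟩
  refine fam_mono (E := fun n => (Set.univ : Set (Fin n → Step d)))
    (E' := fun n => slb d n u s ((n : ℝ) ^ (2 : ℝ))) (N := ⌈‖u‖ + |s|⌉₊) (fun n hn _ => ?_) ?_
  · have h1 : ‖u‖ + |s| ≤ n := Nat.ceil_le.1 hn
    show Set.univ ⊆ slb d n u s ((n : ℝ) ^ (2 : ℝ))
    rw [slb_univ]
    rw [Real.rpow_two, sq]
    exact mul_le_mul_of_nonneg_left h1 (Nat.cast_nonneg n)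
  · refine ⟨0, fun n _ => ?_⟩
    simp only [PolT_univ hd, sub_self, integral_zero, zero_mul]
    exact le_rfl

/-- **The fluctuations are at most the square root of the wandering of any one component.** -/
theorem two_chiF_le_nuL (hd : 0 < d) (hω : IID μ ρ ω) (hρ : EM ρ) {h u : Vec d} (hu : u ≠ 0)
    (s : ℝ) : 2 * chiF μ β ω h ≤ nuL μ β ω h u s := by
  refine le_csInf ⟨2, two_mem_nuSetL hd hω h u s⟩ fun a ha => ?_
  obtain ⟨ha0, hT⟩ := (mem_nuSetL hω h u s a).1 ha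
  rcases lt_or_ge a 1 with ha1 | ha1
  · have h1 : chiF μ β ω h ≤ a / 2 := by
      refine le_of_forall_gt_imp_ge_of_dense fun x hx => ?_
      have hx0 : 0 < x := by linarith
      exact csInf_le (bddBelow_chiSetF h) ((mem_chiSetF hd hω hρ h x).2
        ⟨hx0, flF_of_slab hd hρ hu ha0 ha1 (by linarith) hT⟩)
    linarith
  · have h1 := chiF_le_half (β := β) hd hω hρ h
    linarith

/-- The slab at the fixed point of the bootstrap. -/
theorem sbF_line1 (hd : 0 < d) (hρ : EM ρ) {h u : Vec d} {k : Fin d} (hk : 1 ≤ |u k|) {s p : ℝ}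
    (hp : 1 < p) (hs : ∀ r : ℝ, lam ρ β h + s * r ≤ lam ρ β (h + r • u))
    (hU : ∃ C δ : ℝ, 0 < δ ∧ ∀ r : ℝ, |r| ≤ δ →
      lam ρ β (h + r • u) - lam ρ β h - s * r ≤ C * |r| ^ p)
    {b : ℝ} (hb : 2 / (p + 1) < b) : SbF ρ β h u s b := by
  have hp0 : 0 < p := by linarith
  have hp1 : 1 / (p + 1) < 1 / 2 := one_div_lt_one_div_of_lt two_pos (by linarith)
  have h2p : 2 / (p + 1) = 2 * (1 / (p + 1)) := by ring
  obtain ⟨δ, hδ⟩ : ∃ δ : ℝ, δ = min ((b - 2 / (p + 1)) / 4) (1 / 2 - 1 / (p + 1)) := ⟨_, rfl⟩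
  have hδ0 : 0 < δ := by
    rw [hδ]
    exact lt_min (by linarith) (by linarith)
  have hδ1 : δ ≤ (b - 2 / (p + 1)) / 4 := by
    rw [hδ]
    exact min_le_left _ _
  have hδ2 : δ ≤ 1 / 2 - 1 / (p + 1) := by
    rw [hδ]
    exact min_le_right _ _
  obtain ⟨x, hx⟩ : ∃ x : ℝ, x = 1 / (p + 1) + δ := ⟨_, rfl⟩
  have hall : FlL ρ β h u p x := by
    refine flL_all hp (BooL80.flL_half80 hd hρ β h u p) (fun y hy hy' hF => ?_)
      (by rw [hx]; linarith)
    exact BooL80.flL_step80 hd hρ (slbV96 hd hρ β _ hk (spaceV46 hd hρ β (‖h‖ + 1))) hp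
      (le_trans (by positivity) hy) (tubL7 hd hρ hp hs hU hy hy' hF)
  have hT : TubL ρ β h u s p x := tubL7 hd hρ hp hs hU (by rw [hx]; linarith)
    (by rw [hx]; linarith) hall
  have hax : aX p x ≤ 2 / (p + 1) + δ := by
    have h1 := aX_half hp x
    have h3 : x - 1 / (p + 1) = δ := by
      rw [hx]
      ring
    rw [h3] at h1
    have h4 : (p - 1) / (2 * p) * δ ≤ δ / 2 := by
      have h5 : (p - 1) / (2 * p) ≤ 1 / 2 := by
        rw [div_le_div_iff₀ (by linarith) two_pos]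
        linarith
      nlinarith
    linarith
  intro q
  obtain ⟨r, hr, C, hC⟩ := hT δ hδ0 q
  refine ⟨C, fun n hn => ?_⟩
  have hn1 : (1 : ℝ) ≤ n := by exact_mod_cast hn
  have hn0 : (0 : ℝ) < n := by linarith
  have h1 := hC 0 (by simpa using hr) n hn ((n : ℝ) ^ b) (by
    rw [abs_zero, Real.zero_rpow (by linarith), mul_zero, zero_add, ← Real.rpow_add hn0]
    exact Real.rpow_le_rpow_of_exponent_le hn1 (by linarith))
  rw [zero_smul, add_zero] at h1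
  exact h1

/-- The slab on a line with an upper bound of order `p`. -/
theorem sbF_line (hd : 0 < d) (hρ : EM ρ) {h u : Vec d} (hu : u ≠ 0) {s p : ℝ}
    (hp : 1 < p) (hs : ∀ r : ℝ, lam ρ β h + s * r ≤ lam ρ β (h + r • u))
    (hU : ∃ C δ : ℝ, 0 < δ ∧ ∀ r : ℝ, |r| ≤ δ →
      lam ρ β (h + r • u) - lam ρ β h - s * r ≤ C * |r| ^ p)
    {b : ℝ} (hb : 2 / (p + 1) < b) : SbF ρ β h u s b := by
  obtain ⟨c, hc, k, hk⟩ := norm_dir hu
  obtain ⟨h1, h2⟩ := line_scale hc hs hU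
  obtain ⟨a, ha, hab⟩ := exists_between hb
  exact SbF_scale hc hab (sbF_line1 hd hρ hk hp h1 h2 ha)

/-- **The wandering of one component** from an upper bound of order `p` of the free energy on the
line of its direction. -/
theorem nuL_le (hd : 0 < d) (hω : IID μ ρ ω) (hρ : EM ρ) {h u : Vec d} (hu : u ≠ 0) {s p : ℝ}
    (hp : 1 < p) (hs : ∀ r : ℝ, lam ρ β h + s * r ≤ lam ρ β (h + r • u))
    (hU : ∃ C δ : ℝ, 0 < δ ∧ ∀ r : ℝ, |r| ≤ δ →
      lam ρ β (h + r • u) - lam ρ β h - s * r ≤ C * |r| ^ p) :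
    nuL μ β ω h u s ≤ 2 / (p + 1) := by
  refine le_of_forall_gt_imp_ge_of_dense fun b hb => ?_
  have h0 : 0 < 2 / (p + 1) := by
    have : 0 < p + 1 := by linarith
    positivity
  exact csInf_le ⟨0, fun y hy => hy.1.le⟩ ((mem_nuSetL hω h u s b).2
    ⟨h0.trans hb, sbF_line hd hρ hu hp hs hU hb⟩)

/-- **On every line of tilts the wandering exponent of the component along the line is at most
`2 / 3` almost everywhere.** -/
theorem nuL_ae (hd : 0 < d) (hω : IID μ ρ ω) (hρ : EM ρ) {h0 u : Vec d} (hu : u ≠ 0) :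
    ∀ᵐ r : ℝ, ∃ s : ℝ, nuL μ β ω (h0 + r • u) u s ≤ 2 / 3 := by
  have hL := lam_convex hd hρ β
  have hf : ConvexOn ℝ Set.univ fun r : ℝ => lam ρ β (h0 + r • u) := by
    refine ⟨convex_univ, fun a _ b _ x y hx hy hxy => ?_⟩
    have h1 := hL.2 (Set.mem_univ (h0 + a • u)) (Set.mem_univ (h0 + b • u)) hx hy hxy
    have h2 : h0 + (x • a + y • b) • u = x • (h0 + a • u) + y • (h0 + b • u) := by
      have h3 : h0 = (x + y) • h0 := by rw [hxy, one_smul]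
      nth_rewrite 1 [h3]
      simp only [smul_eq_mul]
      module
    simp only
    rw [h2]
    exact h1
  filter_upwards [LineAE96.parab_ae hf] with x hx
  obtain ⟨s, hs, hU⟩ := hx
  have e1 : ∀ r : ℝ, h0 + (x + r) • u = h0 + x • u + r • u := by
    intro r
    rw [add_smul, add_assoc]
  simp only [e1] at hs hU
  have h1 := nuL_le (β := β) hd hω hρ hu one_lt_two hs hU
  have h2 : (2 : ℝ) / (2 + 1) = 2 / 3 := by norm_num
  rw [h2] at h1
  exact ⟨s, h1⟩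

/-- **The exceptional tilts on a line for the wandering of the component along the line.** -/
theorem nuL_dim (hd : 0 < d) (hω : IID μ ρ ω) (hρ : EM ρ) {h0 u : Vec d} (hu : u ≠ 0) {a : ℝ}
    (ha : 0 < a) (ha1 : a < 1) :
    dimH {r : ℝ | ¬ ∃ s : ℝ, nuL μ β ω (h0 + r • u) u s ≤ a} ≤ ENNReal.ofReal (2 / a - 2) := by
  obtain ⟨p, hp⟩ : ∃ p : ℝ, p = 2 / a - 1 := ⟨_, rfl⟩
  have h2a : 2 < 2 / a := by
    rw [lt_div_iff₀ ha]
    linarith
  have hp1 : 1 < p := by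
    rw [hp]
    linarith
  have hpa : 2 / (p + 1) = a := by
    rw [hp]
    field_simp
    ring
  obtain ⟨f, hf⟩ : ∃ f : ℝ → ℝ, f = fun r => lam ρ β (h0 + r • u) := ⟨_, rfl⟩
  have hf1 : ConvexOn ℝ univ f := by
    refine ⟨convex_univ, fun x _ y _ a b ha hb hab => ?_⟩
    have h := (lam_convex hd hρ β).2 (mem_univ (h0 + x • u)) (mem_univ (h0 + y • u)) ha hb hab
    rw [hf]
    refine le_trans (le_of_eq ?_) h
    show lam ρ β (h0 + (a • x + b • y) • u) = _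
    congr 1
    rw [smul_add, smul_add, smul_smul, smul_smul, add_add_add_comm, ← add_smul, hab, one_smul,
      ← add_smul, smul_eq_mul, smul_eq_mul]
  have hf2 : ∀ x y, |f x - f y| ≤ ‖u‖ * |x - y| := by
    intro x y
    have h := lam_lip33 hd hρ β (h0 + x • u) (h0 + y • u)
    rw [hf]
    rw [add_sub_add_left_eq_sub, ← sub_smul, norm_smul, Real.norm_eq_abs, one_mul, mul_comm] at h
    exact h
  have key := DimL33.dim_line hf1 hf2 hp1
  have h1 : p - 1 = 2 / a - 2 := by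
    rw [hp]
    ring
  rw [h1] at key
  refine le_trans (dimH_mono ?_) key
  intro r hr hr2
  obtain ⟨s, hs, C, δ, hδ, hU⟩ := hr2
  refine hr ⟨s, ?_⟩
  rw [← hpa]
  have e : ∀ t : ℝ, h0 + r • u + t • u = h0 + (r + t) • u := by
    intro t
    rw [add_smul, add_assoc]
  refine nuL_le hd hω hρ hu (s := s) hp1 (fun t => ?_) ⟨C, δ, hδ, fun t ht => ?_⟩
  · rw [e]
    have := hs t
    rw [hf] at this
    exact this
  · rw [e]
    have := hU t ht
    rw [hf] at this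
    exact this

end Pool.Agent.W_7d29a1_VT
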