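import Pool.Agent.W_7d29a1_V.DefsV2

/-!
`2 χ ≤ ν` for the exponents of the problem itself, in every dimension: definitions and frozen
statements of the leaves.
-/

namespace Pool.Agent.W_7d29a1_VT

open MeasureTheory ProbabilityTheory Filter Topology Pool.Agent.W_MP_7d29a1_pr
  Pool.Agent.W_7d29a1_h46 Pool.Agent.W_7d29a1_h46u Pool.Agent.W_7d29a1_D2
  Pool.Agent.W_7d29a1_D2.B35 Pool.Agent.W_7d29a1_V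

variable {d : ℕ}

/-- The tube property in probability. -/
def TbP (ρ : Measure ℝ) (β : ℝ) (h v : Vec d) (a : ℝ) : Prop :=
  ∀ δ : ℝ, 0 < δ → ∃ n₀ : ℕ, ∀ n : ℕ, n₀ ≤ n →
    (law d ρ).real {η | PolT β h η (tube d n v ((n : ℝ) ^ a)) < 1 / 2} ≤ δ

/-- `log Z_n` is within `n ^ b` of the number `M n`, with probability at least `1 - δ`, for all
`n ≥ n₀`. -/
def MedN (ρ : Measure ℝ) (β : ℝ) (h : Vec d) (M : ℕ → ℝ) (b δ : ℝ) (n₀ : ℕ) : Prop :=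
  ∀ n : ℕ, n₀ ≤ n → (law d ρ).real {η | (n : ℝ) ^ b < |X β h η n - M n|} ≤ δ

section Leaves

variable (ρ : Measure ℝ) (β : ℝ) (h v : Vec d) (a : ℝ)

/-- T2: typical concentration at the square root of the radius of the tube. -/
def MedT : Prop := ∀ b : ℝ, a / 2 < b → ∀ δ : ℝ, 0 < δ →
  ∃ (M : ℕ → ℝ) (n₀ : ℕ), MedN ρ β h M b δ n₀

/-- T4: the lower tail. -/
def LowT : Prop := ∀ b : ℝ, a / 2 < b → ∀ (M : ℕ → ℝ) (n₀ : ℕ), MedN ρ β h M b (1 / 8) n₀ →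
  ∀ b' : ℝ, b < b' → ∀ q : ℕ, ∃ n₁ : ℕ, ∀ n : ℕ, n₁ ≤ n →
    (law d ρ).real {η | X β h η n < M n - (n : ℝ) ^ b'} ≤ (n : ℝ) ^ (-(q : ℝ))

/-- T3: the typical values are nearly subadditive. -/
def AddT : Prop := ∀ b : ℝ, a / 2 < b → ∃ δ₀ : ℝ, 0 < δ₀ ∧ ∀ (M : ℕ → ℝ) (n₀ : ℕ),
  MedN ρ β h M b δ₀ n₀ → ∀ b' : ℝ, b < b' → ∃ n₁ : ℕ, ∀ n i l : ℕ, n₁ ≤ n → i + l = n →
    (n : ℝ) ^ a ≤ i → (n : ℝ) ^ a ≤ l → M n ≤ M i + M l + (n : ℝ) ^ b'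

/-- T5: excited slabs: a rare excess of `log Z_m` becomes typical at the time `n = K m`. -/
def ExcT : Prop := ∀ b b' : ℝ, 0 < b → b < b' → ∀ (M : ℕ → ℝ) (n₀ : ℕ),
  MedN ρ β h M b (1 / 100) n₀ →
  (∃ n₁ : ℕ, ∀ n i l : ℕ, n₁ ≤ n → i + l = n → (n : ℝ) ^ a ≤ i → (n : ℝ) ^ a ≤ l →
    M n ≤ M i + M l + (n : ℝ) ^ b') →
  ∃ n₂ : ℕ, ∀ m K : ℕ, n₂ ≤ m → 3 ≤ K → ((K * m : ℕ) : ℝ) ^ a ≤ m →
    ∀ t : ℝ, 8 * ((K * m : ℕ) : ℝ) ^ b' ≤ t →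
      (law d ρ).real {η | M m + t ≤ X β h η m} ≤ 9 / K

/-- T7: the variance. -/
def VarT : Prop := ∀ x : ℝ, a / 2 < x → ∃ n₀ : ℕ, ∀ n : ℕ, n₀ ≤ n →
  ∫ η, |X β h η n - A ρ β h n| ^ 2 ∂(law d ρ) ≤ (n : ℝ) ^ (2 * x)

end Leaves

end Pool.Agent.W_7d29a1_VT
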