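import Pool.Agent.W_7d29a1_VT.DefsT10
import Pool.Agent.W_7d29a1_V.Rch48

/-!
# Excited slabs

A rare excess of `log Z_m` becomes typical at the time `n = K m`, as soon as the probability of
the excess is at least `9 / K`.
-/

namespace Pool.Agent.W_7d29a1_VT

open MeasureTheory ProbabilityTheory Filter Topology Pool.Agent.W_MP_7d29a1_pr
  Pool.Agent.W_7d29a1_h46 Pool.Agent.W_7d29a1_h46u Pool.Agent.W_7d29a1_D2
  Pool.Agent.W_7d29a1_D2.B35 Pool.Agent.W_7d29a1_V Pool.Agent.W_7d29a1_V.R48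

namespace Exc10

variable {d : ℕ}

/-- The end point law. -/
noncomputable def mu (β : ℝ) (h : Vec d) (i : ℕ) (x : Site d) (η : Env d) : ℝ :=
  PP β h η i x / Z β h η i

/-- The mass of the end points `x` with `sh i x η ∈ H`. -/
noncomputable def fr (β : ℝ) (h : Vec d) (i : ℕ) (H : Set (Env d)) (η : Env d) : ℝ :=
  ∑ x ∈ boxF d i, mu β h i x η * H.indicator (fun _ => (1 : ℝ)) (sh i x η)

/-- The event `D` depends on the sites of `S` only. -/
def Dep (S : Set (ℕ × Site d)) (D : Set (Env d)) : Prop :=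
  ∀ η η' : Env d, (∀ p ∈ S, η p = η' p) → (η ∈ D ↔ η' ∈ D)

lemma Dep.mono {S T : Set (ℕ × Site d)} {D : Set (Env d)} (hD : Dep S D) (hST : S ⊆ T) :
    Dep T D := fun η η' h => hD η η' fun p hp => h p (hST hp)

lemma Dep.compl {S : Set (ℕ × Site d)} {D : Set (Env d)} (hD : Dep S D) : Dep S Dᶜ :=
  fun η η' h => not_congr (hD η η' h)

lemma Dep.inter {S : Set (ℕ × Site d)} {D E : Set (Env d)} (hD : Dep S D) (hE : Dep S E) :
    Dep S (D ∩ E) := fun η η' h => and_congr (hD η η' h) (hE η η' h)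

lemma Dep.univ (S : Set (ℕ × Site d)) : Dep S (Set.univ : Set (Env d)) :=
  fun _ _ _ => Iff.rfl

lemma Dep.ind {S : Set (ℕ × Site d)} {D : Set (Env d)} (hD : Dep S D) :
    DependsOn (D.indicator fun _ => (1 : ℝ)) S := by
  intro η η' h
  by_cases h1 : η ∈ D
  · rw [Set.indicator_of_mem h1, Set.indicator_of_mem ((hD η η' h).1 h1)]
  · rw [Set.indicator_of_notMem h1, Set.indicator_of_notMem fun h2 => h1 ((hD η η' h).2 h2)]

lemma mu_nonneg (hd : 0 < d) (β : ℝ) (h : Vec d) (i : ℕ) (x : Site d) (η : Env d) :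
    0 ≤ mu β h i x η := div_nonneg (PP_nonneg _ _ _ _ _) (Z_pos hd β h η i).le

lemma sum_mu (hd : 0 < d) (β : ℝ) (h : Vec d) (i : ℕ) (η : Env d) :
    ∑ x ∈ boxF d i, mu β h i x η = 1 := by
  unfold mu
  rw [← Finset.sum_div, ← Z_eq_sum]
  exact div_self (Z_pos hd β h η i).ne'

lemma mu_le_one (hd : 0 < d) (β : ℝ) (h : Vec d) (i : ℕ) (x : Site d) (η : Env d) :
    mu β h i x η ≤ 1 := by
  unfold mu
  exact div_le_one_of_le₀ (PP_le_Z β h η i x) (Z_pos hd β h η i).le

lemma measurable_mu (β : ℝ) (h : Vec d) (i : ℕ) (x : Site d) : Measurable (mu β h i x) :=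
  (measurable_ZT β h _).div (measurable_Z β h i)

lemma PP_congr {β : ℝ} {h : Vec d} {i : ℕ} {x : Site d} {η η' : Env d}
    (hη : ∀ p : ℕ × Site d, p.1 ≤ i → η p = η' p) : PP β h η i x = PP β h η' i x := by
  classical
  unfold PP ZT
  refine Finset.sum_congr rfl fun s _ => ?_
  have h1 : energy η s = energy η' s := by
    unfold energy
    exact Finset.sum_congr rfl fun i _ => hη _ i.2
  unfold wgt
  rw [h1]

lemma mu_dep (β : ℝ) (h : Vec d) (i : ℕ) (x : Site d) :
    DependsOn (mu β h i x) {p : ℕ × Site d | p.1 ≤ i} := by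
  intro η η' hη
  unfold mu
  rw [Z_eq_sum, Z_eq_sum]
  congr 1
  · exact PP_congr hη
  · exact Finset.sum_congr rfl fun y _ => PP_congr hη

lemma ind_nonneg (H : Set (Env d)) (η : Env d) : 0 ≤ H.indicator (fun _ => (1 : ℝ)) η :=
  Set.indicator_nonneg (fun _ _ => zero_le_one) _

lemma ind_le_one (H : Set (Env d)) (η : Env d) : H.indicator (fun _ => (1 : ℝ)) η ≤ 1 := by
  by_cases h : η ∈ H
  · rw [Set.indicator_of_mem h]
  · rw [Set.indicator_of_notMem h]
    exact zero_le_one

lemma fr_nonneg (hd : 0 < d) (β : ℝ) (h : Vec d) (i : ℕ) (H : Set (Env d)) (η : Env d) :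
    0 ≤ fr β h i H η :=
  Finset.sum_nonneg fun x _ => mul_nonneg (mu_nonneg hd β h i x η) (ind_nonneg _ _)

lemma fr_le_one (hd : 0 < d) (β : ℝ) (h : Vec d) (i : ℕ) (H : Set (Env d)) (η : Env d) :
    fr β h i H η ≤ 1 := by
  rw [← sum_mu hd β h i η]
  exact Finset.sum_le_sum fun x _ => mul_le_of_le_one_right (mu_nonneg hd β h i x η)
    (ind_le_one _ _)

lemma fr_compl (hd : 0 < d) (β : ℝ) (h : Vec d) (i : ℕ) (H : Set (Env d)) (η : Env d) :
    fr β h i H η + fr β h i Hᶜ η = 1 := by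
  unfold fr
  rw [← Finset.sum_add_distrib]
  refine Eq.trans (Finset.sum_congr rfl fun x _ => ?_) (sum_mu hd β h i η)
  by_cases h1 : sh i x η ∈ H
  · rw [Set.indicator_of_mem h1, Set.indicator_of_notMem fun h2 : sh i x η ∈ Hᶜ => h2 h1]
    ring
  · rw [Set.indicator_of_notMem h1, Set.indicator_of_mem (show sh i x η ∈ Hᶜ from h1)]
    ring

lemma measurable_fr (β : ℝ) (h : Vec d) (i : ℕ) {H : Set (Env d)} (hH : MeasurableSet H) :
    Measurable (fr β h i H) := by
  unfold fr
  refine Finset.measurable_sum _ fun x _ => (measurable_mu β h i x).mul ?_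
  exact (measurable_const.indicator hH).comp (measurable_sh i x)

/-- The mass depends on the rows of the past and of the event. -/
lemma fr_dep (β : ℝ) (h : Vec d) (i k : ℕ) {H : Set (Env d)}
    (hH : Dep {p : ℕ × Site d | p.1 ≤ k} H) :
    DependsOn (fr β h i H) {p : ℕ × Site d | p.1 ≤ i + k} := by
  intro η η' hη
  unfold fr
  refine Finset.sum_congr rfl fun x _ => ?_
  congr 1
  · exact mu_dep β h i x fun p hp => hη p (le_trans hp (Nat.le_add_right i k))
  · refine hH.ind fun p hp => ?_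
    refine hη (p.1 + i, p.2 + x) ?_
    have h1 : p.1 ≤ k := hp
    show p.1 + i ≤ i + k
    omega

variable {ρ : Measure ℝ} [IsProbabilityMeasure ρ]

lemma int_ind {D : Set (Env d)} (hD : MeasurableSet D) :
    ∫ η, D.indicator (fun _ => (1 : ℝ)) η ∂(law d ρ) = (law d ρ).real D := by
  rw [integral_indicator hD]
  simp [Measure.real]

lemma integrable_bd {F : Env d → ℝ} (hF : Measurable F) (h0 : ∀ η, 0 ≤ F η) (h1 : ∀ η, F η ≤ 1) :
    Integrable F (law d ρ) :=
  (integrable_const (1 : ℝ)).mono' hF.aestronglyMeasurable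
    (Filter.Eventually.of_forall fun η => by
      rw [Real.norm_eq_abs, abs_of_nonneg (h0 η)]
      exact h1 η)

/-- The past and the future are independent. -/
lemma fr_int (hd : 0 < d) (β : ℝ) (h : Vec d) (i : ℕ) {D H : Set (Env d)} (hD : MeasurableSet D)
    (hH : MeasurableSet H) (hDd : Dep {p : ℕ × Site d | p.1 ≤ i} D)
    (hHd : Dep {p : ℕ × Site d | 1 ≤ p.1} H) :
    ∫ η, D.indicator (fun _ => (1 : ℝ)) η * fr β h i H η ∂(law d ρ) =
      (law d ρ).real D * (law d ρ).real H := by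
  have h1 : ∀ η : Env d, D.indicator (fun _ => (1 : ℝ)) η * fr β h i H η =
      ∑ x ∈ boxF d i, (D.indicator (fun _ => (1 : ℝ)) η * mu β h i x η) *
        H.indicator (fun _ => (1 : ℝ)) (sh i x η) := by
    intro η
    unfold fr
    rw [Finset.mul_sum]
    exact Finset.sum_congr rfl fun x _ => by ring
  have mD : Measurable (D.indicator fun _ => (1 : ℝ)) := measurable_const.indicator hD
  have mH : Measurable (H.indicator fun _ => (1 : ℝ)) := measurable_const.indicator hH
  have hfac : ∀ x : Site d, Integrable (fun η => (D.indicator (fun _ => (1 : ℝ)) η *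
      mu β h i x η) * H.indicator (fun _ => (1 : ℝ)) (sh i x η)) (law d ρ) := by
    intro x
    refine integrable_bd ((mD.mul (measurable_mu β h i x)).mul (mH.comp (measurable_sh i x)))
      (fun η => mul_nonneg (mul_nonneg (ind_nonneg _ _) (mu_nonneg hd β h i x η))
        (ind_nonneg _ _)) fun η => ?_
    exact mul_le_one₀ (mul_le_one₀ (ind_le_one _ _) (mu_nonneg hd β h i x η)
      (mu_le_one hd β h i x η)) (ind_nonneg _ _) (ind_le_one _ _)
  have hfac2 : ∀ x : Site d, Integrable (fun η => D.indicator (fun _ => (1 : ℝ)) η *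
      mu β h i x η) (law d ρ) := by
    intro x
    exact integrable_bd (mD.mul (measurable_mu β h i x))
      (fun η => mul_nonneg (ind_nonneg _ _) (mu_nonneg hd β h i x η))
      fun η => mul_le_one₀ (ind_le_one _ _) (mu_nonneg hd β h i x η) (mu_le_one hd β h i x η)
  have h2 : ∀ x ∈ boxF d i, ∫ η, (D.indicator (fun _ => (1 : ℝ)) η * mu β h i x η) *
      H.indicator (fun _ => (1 : ℝ)) (sh i x η) ∂(law d ρ) =
      (∫ η, D.indicator (fun _ => (1 : ℝ)) η * mu β h i x η ∂(law d ρ)) *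
        (law d ρ).real H := by
    intro x _
    rw [integral_indep (ρ := ρ) {p : ℕ × Site d | p.1 ≤ i}
      (F := fun η => D.indicator (fun _ => (1 : ℝ)) η * mu β h i x η)
      (G := fun η => H.indicator (fun _ => (1 : ℝ)) (sh i x η))
      (mD.mul (measurable_mu β h i x)) (mH.comp (measurable_sh i x)) ?_ ?_]
    · rw [integral_sh i x mH, int_ind hH]
    · intro η η' hη
      exact congrArg₂ (· * ·) (hDd.ind hη) (mu_dep β h i x hη)
    · intro η η' hη
      refine hHd.ind fun p hp => hη (p.1 + i, p.2 + x) ?_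
      have h3 : 1 ≤ p.1 := hp
      intro h4
      have h5 : p.1 + i ≤ i := h4
      omega
  simp only [h1]
  rw [integral_finset_sum _ fun x _ => hfac x, Finset.sum_congr rfl h2, ← Finset.sum_mul,
    ← integral_finset_sum _ fun x _ => hfac2 x]
  congr 1
  rw [← int_ind (ρ := ρ) hD]
  refine integral_congr_ae (Filter.Eventually.of_forall fun η => ?_)
  simp only
  rw [← Finset.mul_sum, sum_mu hd β h i η, mul_one]

/-- A first order lower bound. -/
lemma fr_half (hd : 0 < d) (β : ℝ) (h : Vec d) (i : ℕ) {D H : Set (Env d)} (hD : MeasurableSet D)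
    (hH : MeasurableSet H) (hDd : Dep {p : ℕ × Site d | p.1 ≤ i} D)
    (hHd : Dep {p : ℕ × Site d | 1 ≤ p.1} H) {q : ℝ} (hq : q = (law d ρ).real H) :
    q / 2 * (law d ρ).real D ≤ (law d ρ).real (D ∩ {η | q / 2 ≤ fr β h i H η}) := by
  have hq0 : 0 ≤ q := by rw [hq]; exact measureReal_nonneg
  have mR : MeasurableSet {η : Env d | q / 2 ≤ fr β h i H η} :=
    measurableSet_le measurable_const (measurable_fr β h i hH)
  have mD : Measurable (D.indicator fun _ => (1 : ℝ)) := measurable_const.indicator hD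
  have h1 := fr_int (ρ := ρ) hd β h i hD hH hDd hHd
  have h2 : ∀ η, D.indicator (fun _ => (1 : ℝ)) η * fr β h i H η ≤
      (D ∩ {η | q / 2 ≤ fr β h i H η}).indicator (fun _ => (1 : ℝ)) η +
        q / 2 * D.indicator (fun _ => (1 : ℝ)) η := by
    intro η
    have e1 := fr_le_one hd β h i H η
    have e0 := fr_nonneg hd β h i H η
    by_cases h3 : η ∈ D
    · rw [Set.indicator_of_mem h3]
      by_cases h4 : q / 2 ≤ fr β h i H η
      · rw [Set.indicator_of_mem (show η ∈ D ∩ {η | q / 2 ≤ fr β h i H η} from ⟨h3, h4⟩)]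
        linarith
      · have h5 : 0 ≤ (D ∩ {η | q / 2 ≤ fr β h i H η}).indicator (fun _ => (1 : ℝ)) η :=
          ind_nonneg _ _
        push Not at h4
        linarith
    · rw [Set.indicator_of_notMem h3]
      have h5 : 0 ≤ (D ∩ {η | q / 2 ≤ fr β h i H η}).indicator (fun _ => (1 : ℝ)) η :=
        ind_nonneg _ _
      linarith
  have hi1 : Integrable (fun η => D.indicator (fun _ => (1 : ℝ)) η * fr β h i H η) (law d ρ) :=
    integrable_bd (mD.mul (measurable_fr β h i hH))
      (fun η => mul_nonneg (ind_nonneg _ _) (fr_nonneg hd β h i H η))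
      fun η => mul_le_one₀ (ind_le_one _ _) (fr_nonneg hd β h i H η) (fr_le_one hd β h i H η)
  have hi2 : Integrable (fun η => (D ∩ {η | q / 2 ≤ fr β h i H η}).indicator
      (fun _ => (1 : ℝ)) η) (law d ρ) :=
    integrable_bd (measurable_const.indicator (hD.inter mR)) (fun η => ind_nonneg _ _)
      fun η => ind_le_one _ _
  have hi3 : Integrable (fun η => D.indicator (fun _ => (1 : ℝ)) η) (law d ρ) :=
    integrable_bd mD (fun η => ind_nonneg _ _) fun η => ind_le_one _ _
  have h3 := integral_mono hi1 (hi2.add (hi3.const_mul (q / 2))) h2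
  rw [h1] at h3
  have h4 : ∫ η, ((fun η => (D ∩ {η | q / 2 ≤ fr β h i H η}).indicator (fun _ => (1 : ℝ)) η) +
      fun η => q / 2 * D.indicator (fun _ => (1 : ℝ)) η) η ∂(law d ρ) =
      (law d ρ).real (D ∩ {η | q / 2 ≤ fr β h i H η}) + q / 2 * (law d ρ).real D := by
    simp only [Pi.add_apply]
    rw [integral_add hi2 (hi3.const_mul (q / 2)), integral_const_mul, int_ind hD,
      int_ind (hD.inter mR)]
  rw [h4, ← hq] at h3
  linarith

/-- The typical futures. -/
lemma fr_typ (hd : 0 < d) (β : ℝ) (h : Vec d) (i : ℕ) {D H : Set (Env d)} (hD : MeasurableSet D)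
    (hH : MeasurableSet H) (hDd : Dep {p : ℕ × Site d | p.1 ≤ i} D)
    (hHd : Dep {p : ℕ × Site d | 1 ≤ p.1} H) {δ : ℝ} (hδ : (law d ρ).real Hᶜ ≤ δ) :
    (1 - 2 * δ) * (law d ρ).real D ≤ (law d ρ).real (D ∩ {η | 1 / 2 ≤ fr β h i H η}) := by
  have mR : MeasurableSet {η : Env d | 1 / 2 ≤ fr β h i H η} :=
    measurableSet_le measurable_const (measurable_fr β h i hH)
  have mD : Measurable (D.indicator fun _ => (1 : ℝ)) := measurable_const.indicator hD
  have h1 := fr_int (ρ := ρ) hd β h i hD hH.compl hDd hHd.compl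
  have h2 : ∀ η, D.indicator (fun _ => (1 : ℝ)) η ≤
      (D ∩ {η | 1 / 2 ≤ fr β h i H η}).indicator (fun _ => (1 : ℝ)) η +
        2 * (D.indicator (fun _ => (1 : ℝ)) η * fr β h i Hᶜ η) := by
    intro η
    have e1 := fr_compl hd β h i H η
    have e0 := fr_nonneg hd β h i Hᶜ η
    by_cases h3 : η ∈ D
    · rw [Set.indicator_of_mem h3]
      by_cases h4 : 1 / 2 ≤ fr β h i H η
      · rw [Set.indicator_of_mem (show η ∈ D ∩ {η | 1 / 2 ≤ fr β h i H η} from ⟨h3, h4⟩)]
        linarith
      · have h5 : 0 ≤ (D ∩ {η | 1 / 2 ≤ fr β h i H η}).indicator (fun _ => (1 : ℝ)) η :=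
          ind_nonneg _ _
        push Not at h4
        linarith
    · rw [Set.indicator_of_notMem h3]
      have h5 : 0 ≤ (D ∩ {η | 1 / 2 ≤ fr β h i H η}).indicator (fun _ => (1 : ℝ)) η :=
        ind_nonneg _ _
      linarith
  have hi1 : Integrable (fun η => D.indicator (fun _ => (1 : ℝ)) η * fr β h i Hᶜ η)
      (law d ρ) :=
    integrable_bd (mD.mul (measurable_fr β h i hH.compl))
      (fun η => mul_nonneg (ind_nonneg _ _) (fr_nonneg hd β h i Hᶜ η))
      fun η => mul_le_one₀ (ind_le_one _ _) (fr_nonneg hd β h i Hᶜ η) (fr_le_one hd β h i Hᶜ η)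
  have hi2 : Integrable (fun η => (D ∩ {η | 1 / 2 ≤ fr β h i H η}).indicator
      (fun _ => (1 : ℝ)) η) (law d ρ) :=
    integrable_bd (measurable_const.indicator (hD.inter mR)) (fun η => ind_nonneg _ _)
      fun η => ind_le_one _ _
  have hi3 : Integrable (fun η => D.indicator (fun _ => (1 : ℝ)) η) (law d ρ) :=
    integrable_bd mD (fun η => ind_nonneg _ _) fun η => ind_le_one _ _
  have h3 := integral_mono hi3 (hi2.add (hi1.const_mul 2)) h2
  have h4 : ∫ η, ((fun η => (D ∩ {η | 1 / 2 ≤ fr β h i H η}).indicator (fun _ => (1 : ℝ)) η) +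
      fun η => 2 * (D.indicator (fun _ => (1 : ℝ)) η * fr β h i Hᶜ η)) η ∂(law d ρ) =
      (law d ρ).real (D ∩ {η | 1 / 2 ≤ fr β h i H η}) +
        2 * ((law d ρ).real D * (law d ρ).real Hᶜ) := by
    simp only [Pi.add_apply]
    rw [integral_add hi2 (hi1.const_mul 2), integral_const_mul, h1, int_ind (hD.inter mR)]
  rw [h4, int_ind hD] at h3
  have h5 : (law d ρ).real D * (law d ρ).real Hᶜ ≤ (law d ρ).real D * δ :=
    mul_le_mul_of_nonneg_left hδ measureReal_nonneg
  linarith

/-- The deterministic step. -/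
lemma det_step (hd : 0 < d) (β : ℝ) (h : Vec d) (η : Env d) (i k : ℕ) {c p : ℝ} (hp : 0 < p)
    (hfr : p ≤ fr β h i {ξ | c ≤ X β h ξ k} η) :
    X β h η i + Real.log p + c ≤ X β h η (i + k) := by
  have hZi := Z_pos hd β h η i
  have hZn := Z_pos hd β h η (i + k)
  have h1 : Z β h η i * (p * Real.exp c) ≤ Z β h η (i + k) := by
    rw [Z_add_PP]
    have h2 : Z β h η i * (fr β h i {ξ | c ≤ X β h ξ k} η * Real.exp c) ≤
        ∑ x ∈ boxF d i, PP β h η i x * Z β h (sh i x η) k := by
      unfold fr mu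
      rw [Finset.sum_mul, Finset.mul_sum]
      refine Finset.sum_le_sum fun x _ => ?_
      have h3 : Z β h η i * (PP β h η i x / Z β h η i *
          ({ξ : Env d | c ≤ X β h ξ k}.indicator (fun _ => (1 : ℝ)) (sh i x η)) * Real.exp c) =
          PP β h η i x * (({ξ : Env d | c ≤ X β h ξ k}.indicator (fun _ => (1 : ℝ))
            (sh i x η)) * Real.exp c) := by
        field_simp
      rw [h3]
      refine mul_le_mul_of_nonneg_left ?_ (PP_nonneg _ _ _ _ _)
      have hZx := Z_pos hd β h (sh i x η) k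
      by_cases h4 : sh i x η ∈ {ξ : Env d | c ≤ X β h ξ k}
      · rw [Set.indicator_of_mem h4, one_mul]
        have h5 : c ≤ Real.log (Z β h (sh i x η) k) := h4
        calc Real.exp c ≤ Real.exp (Real.log (Z β h (sh i x η) k)) := Real.exp_le_exp.2 h5
          _ = Z β h (sh i x η) k := Real.exp_log hZx
      · rw [Set.indicator_of_notMem h4, zero_mul]
        exact hZx.le
    refine le_trans ?_ h2
    exact mul_le_mul_of_nonneg_left (mul_le_mul_of_nonneg_right hfr (Real.exp_pos c).le) hZi.le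
  unfold X
  have h2 : Real.log (Z β h η i) + Real.log p + c = Real.log (Z β h η i * (p * Real.exp c)) := by
    rw [Real.log_mul hZi.ne' (mul_pos hp (Real.exp_pos c)).ne',
      Real.log_mul hp.ne' (Real.exp_pos c).ne', Real.log_exp]
    ring
  rw [h2]
  exact Real.log_le_log (mul_pos hZi (mul_pos hp (Real.exp_pos c))) h1

end Exc10

end Pool.Agent.W_7d29a1_VT
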