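import Pool.Agent.W_7d29a1_VT.VTAll10
import Pool.Agent.W_7d29a1_VT.Chi46
import Pool.Agent.W_7d29a1_h46.Fin46

/-!
`2 χ ≤ ν` for the exponents of the problem itself, in every dimension, at every tilt and every
direction.
-/

namespace Pool.Agent.W_7d29a1_VT

open MeasureTheory ProbabilityTheory Filter Topology Pool.Agent.W_MP_7d29a1_pr
  Pool.Agent.W_7d29a1_h46 Pool.Agent.W_7d29a1_h46u Pool.Agent.W_7d29a1_D2
  Pool.Agent.W_7d29a1_D2.B35 Pool.Agent.W_7d29a1_V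

variable {d : ℕ} {ρ : Measure ℝ} [IsProbabilityMeasure ρ] {Ω : Type*} [MeasurableSpace Ω]
  {μ : Measure Ω} [IsProbabilityMeasure μ] {ω : ℕ × Site d → Ω → ℝ}

/-- **`2 χ ≤ ν` for the exponents of the problem itself.** -/
theorem VT_main46 (hd : 0 < d) (hω : IID μ ρ ω) (hρ : EM ρ) (β : ℝ) (h v : Vec d) :
    2 * chiT μ β ω h ≤ nuT μ β ω h v :=
  chiAll10 hd hω hρ β h v

/-- The variance at every time. -/
theorem Var_main46 (hd : 0 < d) (hω : IID μ ρ ω) (hρ : EM ρ) (β : ℝ) (h v : Vec d) {x : ℝ}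
    (hx : nuT μ β ω h v / 2 < x) :
    ∀ᶠ n : ℕ in atTop, Var[fun y => Real.log (Zn β h (fun p => ω p y) n); μ] ≤
      (n : ℝ) ^ (2 * x) :=
  var_le53 hd hω hρ (fun _ ha0 ha1 hT => varAll10 hd hρ β h v ha0 ha1 hT) hx

/-- `2 χ ≤ ν` for the exponents `ν`, `χ` of the problem. -/
theorem chi_le_nu46 (hd : 0 < d) (hω : IID μ ρ ω) (hρ : EM ρ) (β : ℝ) :
    2 * chi μ β ω ≤ nu μ β ω := by
  rw [← chiT_zero46, ← W_7d29a1_h46.nuT_zero μ β ω]
  exact VT_main46 hd hω hρ β 0 0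

end Pool.Agent.W_7d29a1_VT
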