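import Pool.Agent.W_7d29a1_V.Up46
import Pool.Agent.W_7d29a1_V.NP63
import Pool.Agent.W_7d29a1_V.DimN33
import Pool.Agent.W_7d29a1_D2.KpzF46
import Pool.Agent.W_7d29a1_D2.K3e20
import Pool.Agent.W_7d29a1_VT.VT46

/-!
The scaling exponents in every dimension: the final theorem.
-/

namespace Pool.Agent.W_7d29a1_VT

open MeasureTheory ProbabilityTheory Filter Topology Pool.Agent.W_MP_7d29a1_pr
  Pool.Agent.W_7d29a1_h46 Pool.Agent.W_7d29a1_h46u Pool.Agent.W_7d29a1_D2 Pool.Agent.W_7d29a1_V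

/-- **The scaling exponents in every dimension: bounds, and the relation at almost every tilt.** -/
theorem finalVT {d : ℕ} (hd : 1 ≤ d) {Ω : Type*} [MeasurableSpace Ω] (μ : Measure Ω)
    [IsProbabilityMeasure μ] (ω : ℕ × Site d → Ω → ℝ) (hmeas : ∀ p, Measurable (ω p))
    (hindep : iIndepFun ω μ) (hident : ∀ p q, IdentDistrib (ω p) (ω q) μ μ)
    (hnc : ∀ p, ¬ ∃ c : ℝ, ∀ᵐ x ∂μ, ω p x = c)
    (hexp : ∀ (b : ℝ) p, Integrable (fun x => Real.exp (b * ω p x)) μ) {β : ℝ} (hβ : 0 < β) :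
    -- the exponents of the problem
    2 * chi μ β ω ≤ nu μ β ω ∧ 1 / ((d : ℝ) + 1) ≤ nu μ β ω ∧
    1 ≤ d * nu μ β ω + 2 * chi μ β ω ∧ nuT μ β ω 0 0 = nu μ β ω ∧ chiT μ β ω 0 = chi μ β ω ∧
    ∃ L : Vec d → ℝ,
      -- the free energy
      (∀ h, ∀ᵐ x ∂μ, Tendsto (fun n : ℕ =>
        Real.log (W_7d29a1_q.polMGF β h (fun p => ω p x) n) / n) atTop (𝓝 (L h))) ∧
      -- every tilt `h`, every direction `v`
      (∀ h v : Vec d, 2 * chiT μ β ω h ≤ nuT μ β ω h v ∧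
        (∀ x : ℝ, nuT μ β ω h v / 2 < x → ∀ᶠ n : ℕ in atTop,
          Var[fun y => Real.log (Zn β h (fun p => ω p y) n); μ] ≤ (n : ℝ) ^ (2 * x)) ∧
        1 / ((d : ℝ) + 1) ≤ nuT μ β ω h v ∧ 1 ≤ d * nuT μ β ω h v + 2 * chiT μ β ω h ∧
        nuT μ β ω h v ≤ nuS μ β ω h v ∧ nuS μ β ω h v ≤ 1 ∧ chiT μ β ω h ≤ chiF μ β ω h ∧
        2 * chiF μ β ω h ≤ nuS μ β ω h v) ∧
      -- every tilt, every direction, every power
      (∀ (h v : Vec d) (p : ℝ), 1 ≤ p → UpG L h v p →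
        nuS μ β ω h v ≤ 2 / (p + 1) ∧ chiF μ β ω h ≤ 1 / (p + 1)) ∧
      -- the growth exponent
      (∀ h v : Vec d, BddAbove {p : ℝ | 1 ≤ p ∧ UpG L h v p} ∧ 1 ≤ gam L h v ∧
        gam L h v ≤ 2 * d + 1 ∧ nuS μ β ω h v ≤ 2 / (gam L h v + 1) ∧
        chiF μ β ω h ≤ 1 / (gam L h v + 1)) ∧
      -- almost every tilt
      (∀ᵐ h : Vec d, ∃ v : Vec d, (∀ k, L h + inner ℝ v k ≤ L (h + k)) ∧ UpG L h v 2 ∧
        nuS μ β ω h v ≤ 2 / 3 ∧ chiF μ β ω h ≤ 1 / 3 ∧ 2 * nuS μ β ω h v - 1 ≤ chiF μ β ω h ∧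
        ((∀ ε > 0, ∃ δ > 0, ∀ r : Vec d, ‖r‖ ≤ δ → gap L h v r ≤ ε * ‖r‖ ^ 2) ∨
          (1 / 2 ≤ nuT μ β ω h v ∧ chiF μ β ω h = 2 * nuS μ β ω h v - 1)) ∧
        (∀ p : ℝ, 1 ≤ p →
          (UpG L h v p → p * nuS μ β ω h v ≤ 1 + (p - 1) * chiF μ β ω h) ∧
          (LoG L h v p → (1 + (p - 1) * chiF μ β ω h) * chiT μ β ω h ≤
            p * nuS μ β ω h v * chiF μ β ω h) ∧
          (LoA L h v p → (1 + (p - 1) * chiF μ β ω h) * chiF μ β ω h ≤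
            p * nuS μ β ω h v * chiF μ β ω h)) ∧
        (chiT μ β ω h = chiF μ β ω h → 0 < chiF μ β ω h →
          gam L h v * nuS μ β ω h v = 1 + (gam L h v - 1) * chiF μ β ω h)) ∧
      -- the exceptional tilts
      (∀ a : ℝ, 0 < a → a < 1 →
        dimH {h : Vec d | ¬ ∃ v : Vec d, nuS μ β ω h v ≤ a ∧ chiF μ β ω h ≤ a / 2} ≤
          ENNReal.ofReal (d - 3 + 2 / a)) ∧
      -- a dense set of tilts
      (∀ U : Set (Vec d), IsOpen U → U.Nonempty → ∃ h ∈ U, ∃ v : Vec d,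
        (∀ k, L h + inner ℝ v k ≤ L (h + k)) ∧ UpG L h v 2 ∧ LoG L h v 2 ∧
        1 / 2 ≤ nuT μ β ω h v ∧ nuS μ β ω h v ≤ 2 / 3 ∧ chiF μ β ω h ≤ 1 / 3) := by
  have hd0 : 0 < d := hd
  set p0 : ℕ × Site d := (0, 0) with hp0
  set ρ : Measure ℝ := μ.map (ω p0) with hρdef
  have : IsProbabilityMeasure ρ := Measure.isProbabilityMeasure_map (hmeas p0).aemeasurable
  have hω : IID μ ρ ω := ⟨hmeas, hindep, fun p => (hident p p0).map_eq⟩
  have hnc' : ∀ c : ℝ, ρ {c} ≠ 1 := by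
    intro c hc
    apply hnc p0
    refine ⟨c, ?_⟩
    rw [hρdef, Measure.map_apply (hmeas p0) (measurableSet_singleton c)] at hc
    have h1 : MeasurableSet (ω p0 ⁻¹' {c}) := hmeas p0 (measurableSet_singleton c)
    exact (prob_compl_eq_zero_iff h1).2 hc
  have hρ : EM ρ := by
    intro b
    rw [hρdef, integrable_map_measure (by fun_prop) (hmeas p0).aemeasurable]
    exact hexp b p0
  have hmp := mp_env hω
  have tr : ∀ {P : (ℕ × Site d → ℝ) → Prop}, (∀ᵐ η ∂(law d ρ), P η) →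
      ∀ᵐ x ∂μ, P (fun p => ω p x) := fun hP => hmp.quasiMeasurePreserving.ae hP
  set b0 : ℝ := lam ρ β (0 : Vec d) with hb0
  have hTF := fun h : Vec d => chiT_le_chiF80 (μ := μ) (ω := ω) (β := β) hd0 hω hρ h
  have hFS := fun h : Vec d => expA34_F_le_S (μ := μ) (ω := ω) (β := β) hd0 hω hρ h
  have hSh := fun h : Vec d => chiS_le_half (μ := μ) (ω := ω) (β := β) hd0 hω hρ h
  have hTS := fun h v : Vec d => nuT_le_nuS (μ := μ) (ω := ω) (β := β) hd0 hω h v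
  have hconv : ConvexOn ℝ Set.univ (lam ρ β : Vec d → ℝ) := lam_convex hd0 hρ β
  have hlip := lip46 (d := d) hd0 hρ β
  have hAE := fun (h v : Vec d) (p : ℝ) (hp : 1 ≤ p) (hU : UpG (lam ρ β) h v p) =>
    up46 (μ := μ) (ω := ω) hd0 hω hρ hp hU
  have hbdd := fun h v : Vec d => bdd_gam46 (μ := μ) (ω := ω) hd0 hω hnc' hρ hβ h v
  have htwo' : (2 + 1 : ℝ) = 3 := by norm_num
  refine ⟨chi_le_nu46 hd0 hω hρ β, ?_, ?_, W_7d29a1_h46.nuT_zero μ β ω, chiT_zero46 μ β ω,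
    fun h => lam ρ β h - b0, fun h => ?_, fun h v =>
    ⟨VT_main46 hd0 hω hρ β h v, fun x hx => Var_main46 hd0 hω hρ β h v hx,
      N_main46 hd0 hω hnc' hρ hβ h v, NP63.npT hd0 hω hnc' hρ hβ h v, hTS h v, nuS_le_one46 hd0 h v,
      hTF h, V_main46 hd0 hω hρ β h v⟩, fun h v p hp hU => ?_,
    fun h v => ?_, ?_, ?_, ?_⟩
  · rw [← W_7d29a1_h46.nuT_zero μ β ω]
    exact N_main46 hd0 hω hnc' hρ hβ 0 0
  · rw [← W_7d29a1_h46.nuT_zero μ β ω, ← chiT_zero46]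
    exact NP63.npT hd0 hω hnc' hρ hβ 0 0
  · filter_upwards [tr (W_7d29a1_h3.ae_X hd0 hρ β h), tr (W_7d29a1_h3.ae_X hd0 hρ β (0 : Vec d))]
      with x hx1 hx2
    refine (hx1.sub hx2).congr fun n => ?_
    rw [mgf46 hd0, sub_div]
  · rw [UpG_sub] at hU
    obtain ⟨e1, e2⟩ := hAE h v p hp hU
    have e0 : 0 < p + 1 := by linarith
    rw [le_div_iff₀ e0, le_div_iff₀ e0]
    constructor <;> linarith
  · simp only [UpG_sub, gam_sub]
    have h1 := one46 hd0 hρ β h v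
    have g1 : 1 ≤ gam (lam ρ β) h v := by
      obtain ⟨p, hp⟩ := h1
      exact hp.1.trans (le_csSup ⟨2 * (d : ℝ) + 1, hbdd h v⟩ hp)
    have g2 : 0 < gam (lam ρ β) h v + 1 := by linarith
    refine ⟨⟨2 * (d : ℝ) + 1, hbdd h v⟩, g1, csSup_le h1 (hbdd h v), ?_, ?_⟩
    · rw [le_div_iff₀ g2, mul_comm]
      exact gam_le46 (nuS_nonneg46 h v) h1 fun p hp hU => (hAE h v p hp hU).1
    · rw [le_div_iff₀ g2, mul_comm]
      exact gam_le46 (Real.sInf_nonneg fun _ hx => hx.1.le) h1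
        fun p hp hU => (hAE h v p hp hU).2
  · filter_upwards [kpz46 hd0 hω hρ β] with h hh
    obtain ⟨v, hv1, hv2, hv3, hv4, hv5⟩ := hh
    have e1 := hAE h v 2 one_le_two hv2
    rw [htwo'] at e1
    refine ⟨v, fun k => ?_, (UpG_sub _ _ _ _).2 hv2, by linarith [e1.1], by linarith [e1.2], hv4,
      ?_, fun p hp => ?_, ?_⟩
    · have := hv1 k
      show lam ρ β h - b0 + inner ℝ v k ≤ lam ρ β (h + k) - b0
      linarith
    · simpa only [gap_sub] using hv5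
    · rw [UpG_sub, LoG_sub, LoA_sub]
      exact hv3 p hp
    · rw [gam_sub]
      intro hE hpos
      have e2 := (gam2 (L := (lam ρ β : Vec d → ℝ)) (h := h) (v := v) hlip
        (chiT_nonneg46 (μ := μ) (ω := ω) (β := β) h) (hTF h) ((hFS h).trans (hSh h))
        (fun p hp hU => (hv3 p hp).1 hU) (fun p hp hL => (hv3 p hp).2.1 hL)).1
        ⟨2 * (d : ℝ) + 1, hbdd h v⟩
      exact (e2.2.2.2 hE hpos).1
  · intro a ha ha1
    have hK : ∀ x y : Vec d, |lam ρ β x - lam ρ β y| ≤ 1 * ‖x - y‖ := by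
      intro x y
      have e1 := lam_lip46 hd0 hρ β y (x - y)
      have e2 := lam_lip46 hd0 hρ β x (y - x)
      rw [add_sub_cancel] at e1 e2
      rw [norm_sub_rev y x] at e2
      rw [abs_le]
      constructor <;> linarith
    refine DimP33.dimN33 hd0 hconv hK (nu := nuS μ β ω) (chi := chiF μ β ω)
      (fun p hp h v hs hU => ?_) ha ha1
    refine AE_main46 hd0 hω hρ hp (fun k => ?_) hU
    have := hs (h + k)
    rwa [add_sub_cancel_left] at this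
  · intro U hU hne
    obtain ⟨h, hhU, v, hv1, hv2, hv3, hv4⟩ := k3_20 (μ := μ) (ω := ω) (β := β) hd0 hmeas hconv
      (fun U hU hne v c => W_7d29a1_v.not_affine hρ hnc' hβ hd0 hU hne v c) U hU hne
    have e0 := hAE h v 2 one_le_two hv1
    rw [htwo'] at e0
    refine ⟨h, hhU, v, fun k => ?_, (UpG_sub _ _ _ _).2 hv1, (LoG_sub _ _ _ _).2 hv2, hv4,
      by linarith [e0.1], by linarith [e0.2]⟩
    have := hv3 k
    unfold gap at this
    show lam ρ β h - b0 + inner ℝ v k ≤ lam ρ β (h + k) - b0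
    linarith

end Pool.Agent.W_7d29a1_VT
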