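import Pool.Agent.W_7d29a1_VT.FinN46
import Pool.Agent.W_7d29a1_V.Main46
import Pool.Agent.W_7d29a1_H96.ChiH70
import Pool.Agent.W_7d29a1_H96.DimH33
import Pool.Agent.W_7d29a1_H96.BooH80
import Pool.Agent.W_7d29a1_H96.SlbU96
import Pool.Agent.W_7d29a1_H96.TubH96

/-!
The scaling exponents in every dimension: the final theorem, with the exceptional tilts in all
directions.
-/

namespace Pool.Agent.W_7d29a1_VT

open MeasureTheory ProbabilityTheory Filter Topology Pool.Agent.W_MP_7d29a1_pr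
  Pool.Agent.W_7d29a1_h46 Pool.Agent.W_7d29a1_h46u Pool.Agent.W_7d29a1_D2 Pool.Agent.W_7d29a1_V
  Pool.Agent.W_7d29a1_H96

section

variable {d : ℕ} {Ω : Type*} [MeasurableSpace Ω] {μ : Measure Ω} [IsProbabilityMeasure μ]
  {ρ : Measure ℝ} [IsProbabilityMeasure ρ] {ω : ℕ × Site d → Ω → ℝ} {β : ℝ}

/-- **The exceptional tilts, in all directions.** -/
theorem dim_chi46 (hd : 0 < d) (hω : IID μ ρ ω) (hρ : EM ρ) {a : ℝ} (ha : 0 < a) (ha1 : a < 1) :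
    dimH {h : Vec d | ¬ chiF μ β ω h ≤ a / 2} ≤ ENNReal.ofReal (d * (2 / a - 2)) :=
  dim_chi_of hd hω hρ (BooH80.h1_80 hd hρ β) (h2_96 hd hρ β) (BooH80.h3_80 hd hρ β) (h5 d)
    (fun R => slbU96 hd hρ β R (spaceV46 hd hρ β R)) ha ha1

/-- **The fluctuation exponent is less than `1 / 2` outside of a set of tilts of dimension
zero.** -/
theorem dim_half46 (hd : 0 < d) (hω : IID μ ρ ω) (hρ : EM ρ) :
    dimH {h : Vec d | ¬ chiF μ β ω h < 1 / 2} = 0 :=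
  dim_half_of hd hω hρ (BooH80.h1_80 hd hρ β) (h2_96 hd hρ β) (BooH80.h3_80 hd hρ β) (h5 d)
    (fun R => slbU96 hd hρ β R (spaceV46 hd hρ β R))

end

/-- **The scaling exponents in every dimension: bounds, the relation at almost every tilt, the
growth of the free energy and the exceptional tilts.** -/
theorem finalH {d : ℕ} (hd : 1 ≤ d) {Ω : Type*} [MeasurableSpace Ω] (μ : Measure Ω)
    [IsProbabilityMeasure μ] (ω : ℕ × Site d → Ω → ℝ) (hmeas : ∀ p, Measurable (ω p))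
    (hindep : iIndepFun ω μ) (hident : ∀ p q, IdentDistrib (ω p) (ω q) μ μ)
    (hnc : ∀ p, ¬ ∃ c : ℝ, ∀ᵐ x ∂μ, ω p x = c)
    (hexp : ∀ (b : ℝ) p, Integrable (fun x => Real.exp (b * ω p x)) μ) {β : ℝ} (hβ : 0 < β) :
    -- the exponents of the problem
    2 * chi μ β ω ≤ nu μ β ω ∧ 1 / ((d : ℝ) + 1) ≤ nu μ β ω ∧
    1 ≤ d * nu μ β ω + 2 * chi μ β ω ∧ nuT μ β ω 0 0 = nu μ β ω ∧ chiT μ β ω 0 = chi μ β ω ∧
    ∃ L : Vec d → ℝ,
      -- the free energy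
      (∀ h, ∀ᵐ x ∂μ, Tendsto (fun n : ℕ =>
        Real.log (Zn β h (fun p => ω p x) n) / n) atTop (𝓝 (L h))) ∧
      ConvexOn ℝ Set.univ L ∧
      -- every tilt `h`, every direction `v`
      (∀ h v : Vec d, 2 * chiT μ β ω h ≤ nuT μ β ω h v ∧
        (∀ x : ℝ, nuT μ β ω h v / 2 < x → ∀ᶠ n : ℕ in atTop,
          Var[fun y => Real.log (Zn β h (fun p => ω p y) n); μ] ≤ (n : ℝ) ^ (2 * x) ∧
          0 ≤ n * L h - ∫ y, Real.log (Zn β h (fun p => ω p y) n) ∂μ ∧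
          n * L h - ∫ y, Real.log (Zn β h (fun p => ω p y) n) ∂μ ≤ (n : ℝ) ^ x) ∧
        1 / ((d : ℝ) + 1) ≤ nuT μ β ω h v ∧ 1 ≤ d * nuT μ β ω h v + 2 * chiT μ β ω h ∧
        nuT μ β ω h v ≤ nuS μ β ω h v ∧ nuS μ β ω h v ≤ 1 ∧ chiT μ β ω h ≤ chiF μ β ω h ∧
        2 * chiF μ β ω h ≤ nuS μ β ω h v ∧ chiF μ β ω h ≤ chiS μ β ω h ∧
        chiS μ β ω h ≤ 1 / 2) ∧
      -- every tilt, every direction, every power
      (∀ (h v : Vec d) (p : ℝ), 1 ≤ p →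
        (UpG L h v p → nuS μ β ω h v ≤ 2 / (p + 1) ∧ chiF μ β ω h ≤ 1 / (p + 1) ∧
          p * nuS μ β ω h v ≤ 1 + (p - 1) * chiS μ β ω h) ∧
        (LoG L h v p → (1 + (p - 1) * chiS μ β ω h) * chiT μ β ω h ≤
          p * nuS μ β ω h v * chiS μ β ω h) ∧
        (LoA L h v p → (1 + (p - 1) * chiS μ β ω h) * chiF μ β ω h ≤
          p * nuS μ β ω h v * chiS μ β ω h)) ∧
      -- every tilt, a power in one direction only
      (∀ (h u : Vec d) (s p : ℝ), u ≠ 0 → 1 < p → (∀ r : ℝ, L h + s * r ≤ L (h + r • u)) →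
        (∃ C δ : ℝ, 0 < δ ∧ ∀ r : ℝ, |r| ≤ δ → L (h + r • u) - L h - s * r ≤ C * |r| ^ p) →
        chiF μ β ω h ≤ 1 / (p + 1)) ∧
      -- every tilt, every direction, every scale
      (∀ (h v : Vec d) (p : ℝ), 2 * (d : ℝ) + 1 < p → LoA L h v p) ∧
      (∀ h v : Vec d, (1 + 2 * d * chiS μ β ω h) * chiF μ β ω h ≤
        (2 * d + 1) * nuS μ β ω h v * chiS μ β ω h) ∧
      -- the growth exponent
      (∀ h v : Vec d, BddAbove {p : ℝ | 1 ≤ p ∧ UpG L h v p} ∧ 1 ≤ gam L h v ∧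
        gam L h v ≤ 2 * d + 1 ∧ nuS μ β ω h v ≤ 2 / (gam L h v + 1) ∧
        chiF μ β ω h ≤ 1 / (gam L h v + 1) ∧
        gam L h v * nuS μ β ω h v ≤ 1 + (gam L h v - 1) * chiS μ β ω h ∧
        (1 + (gam L h v - 1) * chiS μ β ω h) * chiT μ β ω h ≤
          gam L h v * nuS μ β ω h v * chiS μ β ω h ∧
        (chiT μ β ω h = chiS μ β ω h → 0 < chiS μ β ω h →
          gam L h v * nuS μ β ω h v = 1 + (gam L h v - 1) * chiS μ β ω h ∧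
          (chiS μ β ω h = 2 * nuS μ β ω h v - 1 ↔ gam L h v = 2))) ∧
      -- the tilt `0`
      (∀ ε : ℝ, 0 < ε → ∃ c : ℝ, 0 < c ∧ ∀ h : Vec d, ‖h‖ ≤ 1 →
        L 0 + c * ‖h‖ ^ (2 * (d : ℝ) + 1 + ε) ≤ L h) ∧
      -- almost every tilt
      (∀ᵐ h : Vec d, ∃ v : Vec d, (∀ k, L h + inner ℝ v k ≤ L (h + k)) ∧ UpG L h v 2 ∧
        nuS μ β ω h v ≤ 2 / 3 ∧ chiF μ β ω h ≤ 1 / 3 ∧ 2 * nuS μ β ω h v - 1 ≤ chiF μ β ω h ∧
        ((∀ ε > 0, ∃ δ > 0, ∀ r : Vec d, ‖r‖ ≤ δ → gap L h v r ≤ ε * ‖r‖ ^ 2) ∨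
          (1 / 2 ≤ nuT μ β ω h v ∧ chiF μ β ω h = 2 * nuS μ β ω h v - 1)) ∧
        (∀ p : ℝ, 1 ≤ p →
          (UpG L h v p → p * nuS μ β ω h v ≤ 1 + (p - 1) * chiF μ β ω h) ∧
          (LoG L h v p → (1 + (p - 1) * chiF μ β ω h) * chiT μ β ω h ≤
            p * nuS μ β ω h v * chiF μ β ω h) ∧
          (LoA L h v p → (1 + (p - 1) * chiF μ β ω h) * chiF μ β ω h ≤
            p * nuS μ β ω h v * chiF μ β ω h)) ∧
        (chiT μ β ω h = chiF μ β ω h → 0 < chiF μ β ω h →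
          gam L h v * nuS μ β ω h v = 1 + (gam L h v - 1) * chiF μ β ω h)) ∧
      -- the exceptional tilts
      (∀ a : ℝ, 0 < a → a < 1 →
        dimH {h : Vec d | ¬ ∃ v : Vec d, nuS μ β ω h v ≤ a ∧ chiF μ β ω h ≤ a / 2} ≤
          ENNReal.ofReal (d - 3 + 2 / a) ∧
        dimH {h : Vec d | ¬ chiF μ β ω h ≤ a / 2} ≤ ENNReal.ofReal (d * (2 / a - 2))) ∧
      dimH {h : Vec d | ¬ chiF μ β ω h < 1 / 2} = 0 ∧
      -- every line of tilts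
      (∀ h u : Vec d, u ≠ 0 → (∀ᵐ r : ℝ, chiF μ β ω (h + r • u) ≤ 1 / 3) ∧
        ∀ a : ℝ, 0 < a → a < 1 →
          dimH {r : ℝ | ¬ chiF μ β ω (h + r • u) ≤ a / 2} ≤ ENNReal.ofReal (2 / a - 2)) ∧
      -- a dense set of tilts
      (∀ U : Set (Vec d), IsOpen U → U.Nonempty → ∃ h ∈ U, ∃ v : Vec d,
        (∀ k, L h + inner ℝ v k ≤ L (h + k)) ∧ UpG L h v 2 ∧ LoG L h v 2 ∧
        1 / 2 ≤ nuT μ β ω h v ∧ nuS μ β ω h v ≤ 2 / 3 ∧ chiF μ β ω h ≤ 1 / 3) ∧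
      -- generic tilts
      (∃ G : Set (Vec d), IsGδ G ∧ Dense G ∧ ∀ h ∈ G, chiF μ β ω h = chiS μ β ω h) := by
  have hd0 : 0 < d := hd
  set p0 : ℕ × Site d := (0, 0) with hp0
  set ρ : Measure ℝ := μ.map (ω p0) with hρdef
  have : IsProbabilityMeasure ρ := Measure.isProbabilityMeasure_map (hmeas p0).aemeasurable
  have hω : IID μ ρ ω := ⟨hmeas, hindep, fun p => (hident p p0).map_eq⟩
  have hρ : EM ρ := by
    intro b
    rw [hρdef, integrable_map_measure (by fun_prop) (hmeas p0).aemeasurable]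
    exact hexp b p0
  obtain ⟨a1, a2, a3, a4, a5, L, l1, lc, l2, l3, l4, l5, l6, l7, l8, l9, l10, l11⟩ :=
    finalN hd μ ω hmeas hindep hident hnc hexp hβ
  exact ⟨a1, a2, a3, a4, a5, L, l1, lc, l2, l3, l4, l5, l6, l7, l8, l9,
    fun a ha ha1 => ⟨l10 a ha ha1, dim_chi46 hd0 hω hρ ha ha1⟩,
    dim_half46 hd0 hω hρ, l11⟩

end Pool.Agent.W_7d29a1_VT
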