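import Pool.Agent.W_7d29a1_VT.FinAB46
import Pool.Agent.W_7d29a1_VT.Non74
import Pool.Agent.W_7d29a1_V.DimL33

/-!
The scaling exponents in every dimension: the final theorem, with the free energy itself and the
nonrandom fluctuation.
-/

namespace Pool.Agent.W_7d29a1_VT

open MeasureTheory ProbabilityTheory Filter Topology Pool.Agent.W_MP_7d29a1_pr
  Pool.Agent.W_7d29a1_h46 Pool.Agent.W_7d29a1_h46u Pool.Agent.W_7d29a1_D2
  Pool.Agent.W_7d29a1_D2.B35 Pool.Agent.W_7d29a1_V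

/-- The leaves of the tube argument, at the exponent of the problem. -/
theorem hall46 {d : ℕ} {ρ : Measure ℝ} [IsProbabilityMeasure ρ] {Ω : Type*} [MeasurableSpace Ω]
    {μ : Measure Ω} [IsProbabilityMeasure μ] {ω : ℕ × Site d → Ω → ℝ} (hd : 0 < d)
    (hω : IID μ ρ ω) (hρ : EM ρ) (β : ℝ) (h v : Vec d) (a : ℝ) (ha0 : 0 < a) (ha1 : a < 1)
    (ha : nuT μ β ω h v < a) : MedT ρ β h a ∧ AddT ρ β h a ∧ VarT ρ β h a := by
  have hS := spaceV46 hd hρ β ‖h‖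
  have hT := tbP53 hd hω ha
  exact ⟨medT hd hρ hS ha0 ha1 hT, addT36 hd hρ hS ha0 ha1 hT, varAll10 hd hρ β h v ha0 ha1 hT⟩

/-- **The scaling exponents in every dimension: bounds, the relation at almost every tilt, and the
growth of the free energy.** -/
theorem finalN {d : ℕ} (hd : 1 ≤ d) {Ω : Type*} [MeasurableSpace Ω] (μ : Measure Ω)
    [IsProbabilityMeasure μ] (ω : ℕ × Site d → Ω → ℝ) (hmeas : ∀ p, Measurable (ω p))
    (hindep : iIndepFun ω μ) (hident : ∀ p q, IdentDistrib (ω p) (ω q) μ μ)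
    (hnc : ∀ p, ¬ ∃ c : ℝ, ∀ᵐ x ∂μ, ω p x = c)
    (hexp : ∀ (b : ℝ) p, Integrable (fun x => Real.exp (b * ω p x)) μ) {β : ℝ} (hβ : 0 < β) :
    -- the exponents of the problem
    2 * chi μ β ω ≤ nu μ β ω ∧ 1 / ((d : ℝ) + 1) ≤ nu μ β ω ∧
    1 ≤ d * nu μ β ω + 2 * chi μ β ω ∧ nuT μ β ω 0 0 = nu μ β ω ∧ chiT μ β ω 0 = chi μ β ω ∧
    ∃ L : Vec d → ℝ,
      -- the free energy
      (∀ h, ∀ᵐ x ∂μ, Tendsto (fun n : ℕ =>
        Real.log (Zn β h (fun p => ω p x) n) / n) atTop (𝓝 (L h))) ∧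
      ConvexOn ℝ Set.univ L ∧
      -- every tilt `h`, every direction `v`
      (∀ h v : Vec d, 2 * chiT μ β ω h ≤ nuT μ β ω h v ∧
        (∀ x : ℝ, nuT μ β ω h v / 2 < x → ∀ᶠ n : ℕ in atTop,
          Var[fun y => Real.log (Zn β h (fun p => ω p y) n); μ] ≤ (n : ℝ) ^ (2 * x) ∧
          0 ≤ n * L h - ∫ y, Real.log (Zn β h (fun p => ω p y) n) ∂μ ∧
          n * L h - ∫ y, Real.log (Zn β h (fun p => ω p y) n) ∂μ ≤ (n : ℝ) ^ x) ∧
        1 / ((d : ℝ) + 1) ≤ nuT μ β ω h v ∧ 1 ≤ d * nuT μ β ω h v + 2 * chiT μ β ω h ∧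
        nuT μ β ω h v ≤ nuS μ β ω h v ∧ nuS μ β ω h v ≤ 1 ∧ chiT μ β ω h ≤ chiF μ β ω h ∧
        2 * chiF μ β ω h ≤ nuS μ β ω h v ∧ chiF μ β ω h ≤ chiS μ β ω h ∧
        chiS μ β ω h ≤ 1 / 2) ∧
      -- every tilt, every direction, every power
      (∀ (h v : Vec d) (p : ℝ), 1 ≤ p →
        (UpG L h v p → nuS μ β ω h v ≤ 2 / (p + 1) ∧ chiF μ β ω h ≤ 1 / (p + 1) ∧
          p * nuS μ β ω h v ≤ 1 + (p - 1) * chiS μ β ω h) ∧
        (LoG L h v p → (1 + (p - 1) * chiS μ β ω h) * chiT μ β ω h ≤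
          p * nuS μ β ω h v * chiS μ β ω h) ∧
        (LoA L h v p → (1 + (p - 1) * chiS μ β ω h) * chiF μ β ω h ≤
          p * nuS μ β ω h v * chiS μ β ω h)) ∧
      -- every tilt, a power in one direction only
      (∀ (h u : Vec d) (s p : ℝ), u ≠ 0 → 1 < p → (∀ r : ℝ, L h + s * r ≤ L (h + r • u)) →
        (∃ C δ : ℝ, 0 < δ ∧ ∀ r : ℝ, |r| ≤ δ → L (h + r • u) - L h - s * r ≤ C * |r| ^ p) →
        chiF μ β ω h ≤ 1 / (p + 1)) ∧
      -- every tilt, every direction, every scale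
      (∀ (h v : Vec d) (p : ℝ), 2 * (d : ℝ) + 1 < p → LoA L h v p) ∧
      (∀ h v : Vec d, (1 + 2 * d * chiS μ β ω h) * chiF μ β ω h ≤
        (2 * d + 1) * nuS μ β ω h v * chiS μ β ω h) ∧
      -- the growth exponent
      (∀ h v : Vec d, BddAbove {p : ℝ | 1 ≤ p ∧ UpG L h v p} ∧ 1 ≤ gam L h v ∧
        gam L h v ≤ 2 * d + 1 ∧ nuS μ β ω h v ≤ 2 / (gam L h v + 1) ∧
        chiF μ β ω h ≤ 1 / (gam L h v + 1) ∧
        gam L h v * nuS μ β ω h v ≤ 1 + (gam L h v - 1) * chiS μ β ω h ∧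
        (1 + (gam L h v - 1) * chiS μ β ω h) * chiT μ β ω h ≤
          gam L h v * nuS μ β ω h v * chiS μ β ω h ∧
        (chiT μ β ω h = chiS μ β ω h → 0 < chiS μ β ω h →
          gam L h v * nuS μ β ω h v = 1 + (gam L h v - 1) * chiS μ β ω h ∧
          (chiS μ β ω h = 2 * nuS μ β ω h v - 1 ↔ gam L h v = 2))) ∧
      -- the tilt `0`
      (∀ ε : ℝ, 0 < ε → ∃ c : ℝ, 0 < c ∧ ∀ h : Vec d, ‖h‖ ≤ 1 →
        L 0 + c * ‖h‖ ^ (2 * (d : ℝ) + 1 + ε) ≤ L h) ∧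
      -- almost every tilt
      (∀ᵐ h : Vec d, ∃ v : Vec d, (∀ k, L h + inner ℝ v k ≤ L (h + k)) ∧ UpG L h v 2 ∧
        nuS μ β ω h v ≤ 2 / 3 ∧ chiF μ β ω h ≤ 1 / 3 ∧ 2 * nuS μ β ω h v - 1 ≤ chiF μ β ω h ∧
        ((∀ ε > 0, ∃ δ > 0, ∀ r : Vec d, ‖r‖ ≤ δ → gap L h v r ≤ ε * ‖r‖ ^ 2) ∨
          (1 / 2 ≤ nuT μ β ω h v ∧ chiF μ β ω h = 2 * nuS μ β ω h v - 1)) ∧
        (∀ p : ℝ, 1 ≤ p →
          (UpG L h v p → p * nuS μ β ω h v ≤ 1 + (p - 1) * chiF μ β ω h) ∧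
          (LoG L h v p → (1 + (p - 1) * chiF μ β ω h) * chiT μ β ω h ≤
            p * nuS μ β ω h v * chiF μ β ω h) ∧
          (LoA L h v p → (1 + (p - 1) * chiF μ β ω h) * chiF μ β ω h ≤
            p * nuS μ β ω h v * chiF μ β ω h)) ∧
        (chiT μ β ω h = chiF μ β ω h → 0 < chiF μ β ω h →
          gam L h v * nuS μ β ω h v = 1 + (gam L h v - 1) * chiF μ β ω h)) ∧
      -- the exceptional tilts
      (∀ a : ℝ, 0 < a → a < 1 →
        dimH {h : Vec d | ¬ ∃ v : Vec d, nuS μ β ω h v ≤ a ∧ chiF μ β ω h ≤ a / 2} ≤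
          ENNReal.ofReal (d - 3 + 2 / a)) ∧
      -- every line of tilts
      (∀ h u : Vec d, u ≠ 0 → (∀ᵐ r : ℝ, chiF μ β ω (h + r • u) ≤ 1 / 3) ∧
        ∀ a : ℝ, 0 < a → a < 1 →
          dimH {r : ℝ | ¬ chiF μ β ω (h + r • u) ≤ a / 2} ≤ ENNReal.ofReal (2 / a - 2)) ∧
      -- a dense set of tilts
      (∀ U : Set (Vec d), IsOpen U → U.Nonempty → ∃ h ∈ U, ∃ v : Vec d,
        (∀ k, L h + inner ℝ v k ≤ L (h + k)) ∧ UpG L h v 2 ∧ LoG L h v 2 ∧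
        1 / 2 ≤ nuT μ β ω h v ∧ nuS μ β ω h v ≤ 2 / 3 ∧ chiF μ β ω h ≤ 1 / 3) ∧
      -- generic tilts
      (∃ G : Set (Vec d), IsGδ G ∧ Dense G ∧ ∀ h ∈ G, chiF μ β ω h = chiS μ β ω h) := by
  have hd0 : 0 < d := hd
  set p0 : ℕ × Site d := (0, 0) with hp0
  set ρ : Measure ℝ := μ.map (ω p0) with hρdef
  have : IsProbabilityMeasure ρ := Measure.isProbabilityMeasure_map (hmeas p0).aemeasurable
  have hω : IID μ ρ ω := ⟨hmeas, hindep, fun p => (hident p p0).map_eq⟩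
  have hρ : EM ρ := by
    intro b
    rw [hρdef, integrable_map_measure (by fun_prop) (hmeas p0).aemeasurable]
    exact hexp b p0
  have hmp := mp_env hω
  have tr : ∀ {P : (ℕ × Site d → ℝ) → Prop}, (∀ᵐ η ∂(law d ρ), P η) →
      ∀ᵐ x ∂μ, P (fun p => ω p x) := fun hP => hmp.quasiMeasurePreserving.ae hP
  obtain ⟨a1, a2, a3, a4, a5, L', l1, lc, l2, l3, l4, l5, l6, l7, l8, l9, l10, l11, l12, l13⟩ :=
    finalAB hd μ ω hmeas hindep hident hnc hexp hβ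
  set b : ℝ := Real.log (2 * d) - lam ρ β (0 : Vec d) with hb
  have hL' : ∀ h, L' h = lam ρ β h - lam ρ β (0 : Vec d) := by
    intro h
    have h1 : ∀ᵐ x ∂μ, Tendsto (fun n : ℕ =>
        Real.log (W_7d29a1_q.polMGF β h (fun p => ω p x) n) / n) atTop
          (𝓝 (lam ρ β h - lam ρ β (0 : Vec d))) := by
      filter_upwards [tr (W_7d29a1_h3.ae_X hd0 hρ β h),
        tr (W_7d29a1_h3.ae_X hd0 hρ β (0 : Vec d))] with x hx1 hx2
      refine (hx1.sub hx2).congr fun n => ?_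
      rw [mgf46 hd0, sub_div]
    obtain ⟨x, hx1, hx2⟩ := ((l1 h).and h1).exists
    exact tendsto_nhds_unique hx1 hx2
  have hLam : ∀ h, L' h - b = lam ρ β h - Real.log (2 * d) := by
    intro h
    rw [hL', hb]
    ring
  refine ⟨a1, a2, a3, a4, a5, fun h => L' h - b, fun h => ?_, ?_, fun h v => ?_,
    fun h v p hp => ?_, fun h u s p hu hp hs hU => ?_, fun h v p hp => ?_, l6, fun h v => ?_,
    fun ε hε => ?_, ?_, l10, fun h u hu => ⟨l11 h u hu, fun a ha ha1 => ?_⟩, ?_, l13⟩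
  · simp only [hLam]
    filter_upwards [tr (W_7d29a1_h3.ae_X hd0 hρ β h)] with x hx
    refine (hx.sub_const (Real.log (2 * d))).congr' ?_
    filter_upwards [eventually_ge_atTop 1] with n hn
    have hn0 : (n : ℝ) ≠ 0 := by
      have : (0 : ℝ) < n := by exact_mod_cast hn
      exact this.ne'
    rw [StrA_log hd0, Real.log_pow]
    field_simp
  · simp only [sub_eq_add_neg]
    exact lc.add_const _
  · obtain ⟨b1, b2, b3, b4, b5, b6, b7, b8, b9, b10⟩ := l2 h v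
    refine ⟨b1, fun x hx => ?_, b3, b4, b5, b6, b7, b8, b9, b10⟩
    have e := non74 (x := x) hd0 hω hρ (hall46 hd0 hω hρ β h v) hx
    rw [← hLam] at e
    exact (b2 x hx).and e
  · simp only [UpG_sub, LoG_sub, LoA_sub]
    exact l3 h v p hp
  · refine l4 h u s p hu hp (fun r => ?_) ?_
    · have := hs r
      linarith
    · obtain ⟨C, δ, hδ, H⟩ := hU
      refine ⟨C, δ, hδ, fun r hr => ?_⟩
      have := H r hr
      linarith
  · rw [LoA_sub]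
    exact l5 h v p hp
  · simp only [UpG_sub, gam_sub]
    exact l7 h v
  · obtain ⟨c, hc, H⟩ := l8 ε hε
    refine ⟨c, hc, fun h hh => ?_⟩
    have e1 := H h hh
    have e2 := hL' 0
    rw [sub_self] at e2
    show L' 0 - b + c * ‖h‖ ^ (2 * (d : ℝ) + 1 + ε) ≤ L' h - b
    linarith
  · simp only [UpG_sub, LoG_sub, LoA_sub, gam_sub, gap_sub]
    filter_upwards [l9] with h hh
    obtain ⟨v, hv1, hv2⟩ := hh
    refine ⟨v, fun k => ?_, hv2⟩
    have := hv1 k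
    linarith
  · exact line_dim hd0 hω hρ hu ha ha1
  · intro U hU hne
    obtain ⟨h, hhU, v, hv1, hv2⟩ := l12 U hU hne
    simp only [UpG_sub, LoG_sub]
    refine ⟨h, hhU, v, fun k => ?_, hv2⟩
    have := hv1 k
    linarith

end Pool.Agent.W_7d29a1_VT
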