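import Pool.Agent.W_7d29a1_VT.DefsT10

/-!
# The variance from the typical concentration, the lower tail and the excited slabs
-/

namespace Pool.Agent.W_7d29a1_VT

open MeasureTheory ProbabilityTheory Filter Topology Pool.Agent.W_MP_7d29a1_pr
  Pool.Agent.W_7d29a1_h46 Pool.Agent.W_7d29a1_h46u Pool.Agent.W_7d29a1_D2
  Pool.Agent.W_7d29a1_D2.B35 Pool.Agent.W_7d29a1_V

namespace Var10

variable {d : ℕ} {ρ : Measure ℝ} [IsProbabilityMeasure ρ]

/-- Markov's inequality with a power. -/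
lemma mark {f : Env d → ℝ} (hf0 : ∀ η, 0 ≤ f η)
    (hi : Integrable f (law d ρ)) {t B : ℝ} (ht : 0 < t) (hB : ∫ η, f η ∂(law d ρ) ≤ B) :
    (law d ρ).real {η | t < f η} ≤ B / t := by
  rw [le_div_iff₀ ht, mul_comm]
  have h1 := mul_meas_ge_le_integral_of_nonneg (μ := law d ρ) (ae_of_all _ hf0) hi t
  have h2 : (law d ρ).real {η | t < f η} ≤ (law d ρ).real {η | t ≤ f η} :=
    measureReal_mono fun η (hη : t < f η) => (show t ≤ f η from hη.le)
  have h3 : t * (law d ρ).real {η | t < f η} ≤ t * (law d ρ).real {η | t ≤ f η} :=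
    mul_le_mul_of_nonneg_left h2 ht.le
  exact h3.trans (h1.trans hB)

/-- The far tail. -/
lemma far_tail (hd : 0 < d) (hρ : EM ρ) (β : ℝ) {ε : ℝ} (hε : 0 < ε) (q : ℕ) :
    ∃ C : ℝ, 0 ≤ C ∧ ∀ (h : Vec d) (m : ℕ), 1 ≤ m →
      (law d ρ).real {η | (m : ℝ) ^ (1 / 2 + ε) < |X β h η m - A ρ β h m|} ≤
        C * (m : ℝ) ^ (-(q : ℝ)) := by
  obtain ⟨Q, hQ⟩ := exists_nat_ge ((q : ℝ) / ε)
  have hQ' : (q : ℝ) ≤ ε * (Q + 1 : ℕ) := by
    rw [div_le_iff₀ hε] at hQ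
    push_cast
    nlinarith
  obtain ⟨C, hC, h1⟩ := momU (ρ := ρ) hd hρ β (Q + 1)
  refine ⟨C, hC, fun h m hm => ?_⟩
  obtain ⟨hi, hb⟩ := h1 h m hm
  have hm1 : (1 : ℝ) ≤ m := by exact_mod_cast hm
  have hm0 : (0 : ℝ) < m := by linarith
  have hu0 : 0 < (m : ℝ) ^ (1 / 2 + ε) := Real.rpow_pos_of_pos hm0 _
  have h2 := mark (ρ := ρ) (fun η => pow_nonneg (abs_nonneg _) _) hi (pow_pos hu0 (Q + 1)) hb
  refine (measureReal_mono fun η hη => ?_).trans (h2.trans ?_)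
  · show ((m : ℝ) ^ (1 / 2 + ε)) ^ (Q + 1) < |X β h η m - A ρ β h m| ^ (Q + 1)
    exact pow_lt_pow_left₀ hη hu0.le (Nat.succ_ne_zero Q)
  · rw [← Real.rpow_natCast ((m : ℝ) ^ (1 / 2 + ε)) (Q + 1), ← Real.rpow_mul hm0.le, mul_div_assoc,
      ← Real.rpow_sub hm0]
    refine mul_le_mul_of_nonneg_left (Real.rpow_le_rpow_of_exponent_le hm1 ?_) hC
    nlinarith

/-- The mean is near the typical value. -/
lemma mean_near (hd : 0 < d) (hρ : EM ρ) (β : ℝ) (h : Vec d) {M : ℕ → ℝ} {b δ : ℝ} {n₀ : ℕ}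
    (hb : b ≤ 1 / 2) (hδ : δ ≤ 1 / 2) (hM : MedN ρ β h M b δ n₀) :
    ∃ C : ℝ, 0 ≤ C ∧ ∀ m : ℕ, n₀ ≤ m → 1 ≤ m → |A ρ β h m - M m| ≤ C * (m : ℝ) ^ (1 / 2 : ℝ) := by
  obtain ⟨C, hC, h1⟩ := momU (ρ := ρ) hd hρ β 2
  refine ⟨2 * C + 3, by positivity, fun m hm hm' => ?_⟩
  obtain ⟨hi, hB⟩ := h1 h m hm'
  have hm1 : (1 : ℝ) ≤ m := by exact_mod_cast hm'
  have hm0 : (0 : ℝ) < m := by linarith
  set s : ℝ := (m : ℝ) ^ (1 / 2 : ℝ) with hs
  have hs0 : 0 < s := Real.rpow_pos_of_pos hm0 _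
  have hs2 : s ^ 2 = m := by
    rw [hs, ← Real.rpow_natCast, ← Real.rpow_mul hm0.le]
    norm_num
  have hms : (m : ℝ) ^ ((1 / 2 : ℝ) * (2 : ℕ)) = s ^ 2 := by
    rw [hs2]
    norm_num
  rw [hms] at hB
  have hu0 : 0 < ((2 * C + 2) * s) ^ 2 := by positivity
  have h2 := mark (ρ := ρ) (fun η => pow_nonneg (abs_nonneg _) _) hi hu0 hB
  have h3 : C * s ^ 2 / ((2 * C + 2) * s) ^ 2 ≤ 1 / 4 := by
    rw [div_le_iff₀ hu0]
    have : 0 ≤ s ^ 2 * (C ^ 2 + C + 1) := by positivity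
    nlinarith
  have h4 := hM m hm
  -- a common environment
  have h5 : ∃ η : Env d, ¬ ((m : ℝ) ^ b < |X β h η m - M m|) ∧
      ¬ (((2 * C + 2) * s) ^ 2 < |X β h η m - A ρ β h m| ^ 2) := by
    by_contra hcon
    push Not at hcon
    have h6 : (Set.univ : Set (Env d)) ⊆ {η | (m : ℝ) ^ b < |X β h η m - M m|} ∪
        {η | ((2 * C + 2) * s) ^ 2 < |X β h η m - A ρ β h m| ^ 2} := by
      intro η _
      by_cases h7 : (m : ℝ) ^ b < |X β h η m - M m|
      · exact Or.inl h7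
      · exact Or.inr (hcon η (not_lt.1 h7))
    have h7 := (measureReal_mono (μ := law d ρ) h6).trans (measureReal_union_le _ _)
    rw [probReal_univ] at h7
    linarith
  obtain ⟨η, h6, h7⟩ := h5
  have h8 : |X β h η m - A ρ β h m| ≤ (2 * C + 2) * s :=
    le_of_sq_le_sq (not_lt.1 h7) (by positivity)
  have h9 : (m : ℝ) ^ b ≤ s := Real.rpow_le_rpow_of_exponent_le hm1 hb
  have h10 : |A ρ β h m - M m| ≤ |X β h η m - A ρ β h m| + |X β h η m - M m| := by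
    have h11 := abs_sub_le (A ρ β h m) (X β h η m) (M m)
    rwa [abs_sub_comm (A ρ β h m) (X β h η m)] at h11
  have h11 := not_lt.1 h6
  linarith

/-- The upper tail. -/
lemma up_tail {β : ℝ} {h : Vec d} {a b b' c : ℝ} (ha : 0 < a) (hb : 0 < b) (hbb' : b < b')
    (hbc : b' < c) {M : ℕ → ℝ} {n₀ : ℕ} (hM : MedN ρ β h M b (1 / 100) n₀)
    (hAdd : ∃ n₁ : ℕ, ∀ n i l : ℕ, n₁ ≤ n → i + l = n → (n : ℝ) ^ a ≤ i → (n : ℝ) ^ a ≤ l →
      M n ≤ M i + M l + (n : ℝ) ^ b') (hExc : ExcT ρ β h a) :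
    ∃ C : ℝ, 0 ≤ C ∧ ∃ n₁ : ℕ, ∀ m : ℕ, n₁ ≤ m → ∀ t : ℝ, (m : ℝ) ^ c ≤ t →
      t ≤ (m : ℝ) ^ (b' / a) →
      (law d ρ).real {η | M m + t ≤ X β h η m} ≤ C * (m * t ^ (-(1 / b'))) := by
  obtain ⟨n₂, h2⟩ := hExc b b' hb hbb' M n₀ hM hAdd
  have hb'0 : 0 < b' := hb.trans hbb'
  have hexp : 0 < c / b' - 1 := by
    rw [sub_pos, lt_div_iff₀ hb'0, one_mul]
    exact hbc
  have hlim : Tendsto (fun m : ℕ => (m : ℝ) ^ (c / b' - 1)) atTop atTop :=
    (tendsto_rpow_atTop hexp).comp tendsto_natCast_atTop_atTop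
  obtain ⟨n₃, hn₃⟩ := eventually_atTop.1 (hlim.eventually_ge_atTop (4 * (8 : ℝ) ^ (1 / b')))
  refine ⟨12 * (8 : ℝ) ^ (1 / b'), by positivity, n₂ + n₃ + 1, fun m hm t htl htu => ?_⟩
  have hm1 : (1 : ℝ) ≤ m := by
    have : 1 ≤ m := by omega
    exact_mod_cast this
  have hm0 : (0 : ℝ) < m := by linarith
  have hmc : 0 < (m : ℝ) ^ c := Real.rpow_pos_of_pos hm0 _
  have ht0 : 0 < t := lt_of_lt_of_le hmc htl
  set u : ℝ := (t / 8) ^ (1 / b') / m with hu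
  have hu1 : u = t ^ (1 / b') / (8 : ℝ) ^ (1 / b') / m := by
    rw [hu, Real.div_rpow ht0.le (by norm_num)]
  have h8 : 0 < (8 : ℝ) ^ (1 / b') := by positivity
  have hu4 : 4 ≤ u := by
    rw [hu1, le_div_iff₀ hm0, le_div_iff₀ h8]
    have e1 := hn₃ m (by omega)
    have e2 : (m : ℝ) ^ (c / b' - 1) * m = (m : ℝ) ^ (c / b') := by
      rw [← Real.rpow_add_one hm0.ne']
      congr 1
      ring
    have e3 : (m : ℝ) ^ (c / b') ≤ t ^ (1 / b') := by
      have e4 : (m : ℝ) ^ (c / b') = ((m : ℝ) ^ c) ^ (1 / b') := by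
        rw [← Real.rpow_mul hm0.le]
        congr 1
        ring
      rw [e4]
      exact Real.rpow_le_rpow hmc.le htl (by positivity)
    calc 4 * (m : ℝ) * (8 : ℝ) ^ (1 / b') = 4 * (8 : ℝ) ^ (1 / b') * m := by ring
      _ ≤ (m : ℝ) ^ (c / b' - 1) * m := mul_le_mul_of_nonneg_right e1 hm0.le
      _ = (m : ℝ) ^ (c / b') := e2
      _ ≤ _ := e3
  set K : ℕ := ⌊u⌋₊ with hK
  have hK1 : (K : ℝ) ≤ u := Nat.floor_le (by linarith)
  have hK2 : u < K + 1 := Nat.lt_floor_add_one u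
  have hK3 : 3 ≤ K := by
    have : (3 : ℝ) < K + 1 := by linarith
    have h3 : (3 : ℝ) < ((K + 1 : ℕ) : ℝ) := by
      push_cast
      exact this
    have h4 : 3 < K + 1 := by exact_mod_cast h3
    omega
  have hKm : ((K * m : ℕ) : ℝ) ≤ (t / 8) ^ (1 / b') := by
    push_cast
    calc (K : ℝ) * m ≤ u * m := mul_le_mul_of_nonneg_right hK1 hm0.le
      _ = _ := by
        rw [hu]
        field_simp
  have ht8 : 0 < t / 8 := by positivity
  have hKm0 : (0 : ℝ) ≤ ((K * m : ℕ) : ℝ) := Nat.cast_nonneg _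
  have hKa : ((K * m : ℕ) : ℝ) ^ a ≤ m := by
    calc ((K * m : ℕ) : ℝ) ^ a ≤ ((t / 8) ^ (1 / b')) ^ a := Real.rpow_le_rpow hKm0 hKm ha.le
      _ ≤ (t ^ (1 / b')) ^ a := by
        refine Real.rpow_le_rpow (by positivity) ?_ ha.le
        exact Real.rpow_le_rpow ht8.le (by linarith) (by positivity)
      _ ≤ (((m : ℝ) ^ (b' / a)) ^ (1 / b')) ^ a := by
        refine Real.rpow_le_rpow (by positivity) ?_ ha.le
        exact Real.rpow_le_rpow ht0.le htu (by positivity)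
      _ = m := by
        rw [← Real.rpow_mul hm0.le, ← Real.rpow_mul hm0.le]
        have : b' / a * (1 / b') * a = 1 := by field_simp
        rw [this, Real.rpow_one]
  have hKb : 8 * ((K * m : ℕ) : ℝ) ^ b' ≤ t := by
    have e1 : ((K * m : ℕ) : ℝ) ^ b' ≤ t / 8 := by
      calc ((K * m : ℕ) : ℝ) ^ b' ≤ ((t / 8) ^ (1 / b')) ^ b' :=
            Real.rpow_le_rpow hKm0 hKm hb'0.le
        _ = t / 8 := by
          rw [← Real.rpow_mul ht8.le, one_div_mul_cancel hb'0.ne', Real.rpow_one]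
    linarith
  have h3 := h2 m K (by omega) hK3 hKa t hKb
  refine h3.trans ?_
  have hu0 : 0 < u := by linarith
  have hK0 : (0 : ℝ) < K := by
    have : 0 < K := by omega
    exact_mod_cast this
  have e1 : 9 / (K : ℝ) ≤ 12 / u := by
    rw [div_le_div_iff₀ hK0 hu0]
    nlinarith
  refine e1.trans (le_of_eq ?_)
  rw [hu1, Real.rpow_neg ht0.le]
  have ht1 : 0 < t ^ (1 / b') := Real.rpow_pos_of_pos ht0 _
  field_simp

lemma sq_le_fourth (y w : ℝ) (hw : 0 < w) : y ^ 2 ≤ y ^ 4 / w + w := by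
  have h1 : 0 ≤ (y ^ 2 / w - 1) ^ 2 := sq_nonneg _
  have h2 : (y ^ 2 / w - 1) ^ 2 * w = y ^ 4 / w - 2 * y ^ 2 + w := by
    field_simp
    ring
  nlinarith [mul_nonneg h1 hw.le, sq_nonneg y]

/-- The pointwise bound. -/
lemma pt_bd {y s w : ℝ} (hw : 0 < w) {tt : ℕ → ℝ} (hs : 0 ≤ s) (h0 : tt 0 = s) (k : ℕ) :
    y ^ 2 ≤ s ^ 2 + ∑ i ∈ Finset.range k, tt (i + 1) ^ 2 * (if tt i ≤ y then 1 else 0) +
      y ^ 4 / w + w * ((if y < -s then 1 else 0) + (if tt k ≤ y then 1 else 0)) := by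
  have hsum : 0 ≤ ∑ i ∈ Finset.range k, tt (i + 1) ^ 2 * (if tt i ≤ y then (1 : ℝ) else 0) :=
    Finset.sum_nonneg fun i _ => mul_nonneg (sq_nonneg _) (by split_ifs <;> norm_num)
  have hy4 : 0 ≤ y ^ 4 / w := by positivity
  have hf := sq_le_fourth y w hw
  have hi1 : 0 ≤ (if y < -s then (1 : ℝ) else 0) := by split_ifs <;> norm_num
  have hi2 : 0 ≤ (if tt k ≤ y then (1 : ℝ) else 0) := by split_ifs <;> norm_num
  rcases lt_or_ge y (-s) with h1 | h1
  · rw [if_pos h1]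
    nlinarith [sq_nonneg s, mul_nonneg hw.le hi2]
  · rcases le_or_gt (tt k) y with h2 | h2
    · rw [if_pos h2]
      nlinarith [sq_nonneg s, mul_nonneg hw.le hi1]
    · rcases le_or_gt y s with h3 | h3
      · have h4 : y ^ 2 ≤ s ^ 2 := sq_le_sq' (by linarith) h3
        nlinarith [mul_nonneg hw.le hi1, mul_nonneg hw.le hi2]
      · -- the first level above y
        have h4 : ∃ i < k, tt i ≤ y ∧ y < tt (i + 1) := by
          clear hsum hy4 hf hi1 hi2 h1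
          induction k with
          | zero => rw [h0] at h2; linarith
          | succ k ih =>
            rcases lt_or_ge y (tt k) with h5 | h5
            · obtain ⟨i, hi, h6⟩ := ih h5
              exact ⟨i, by omega, h6⟩
            · exact ⟨k, by omega, h5, h2⟩
        obtain ⟨i, hi, h5, h6⟩ := h4
        have hy0 : 0 ≤ y := by linarith
        have h7 : y ^ 2 ≤ tt (i + 1) ^ 2 := pow_le_pow_left₀ hy0 h6.le 2
        have h8 : tt (i + 1) ^ 2 * (if tt i ≤ y then (1 : ℝ) else 0) ≤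
            ∑ i ∈ Finset.range k, tt (i + 1) ^ 2 * (if tt i ≤ y then (1 : ℝ) else 0) :=
          Finset.single_le_sum (f := fun i => tt (i + 1) ^ 2 * (if tt i ≤ y then (1 : ℝ) else 0))
            (fun i _ => mul_nonneg (sq_nonneg _) (by split_ifs <;> norm_num))
            (Finset.mem_range.2 hi)
        rw [if_pos h5, mul_one] at h8
        nlinarith [sq_nonneg s, mul_nonneg hw.le hi1, mul_nonneg hw.le hi2]

lemma int_ite {P : Env d → Prop} [DecidablePred P] (hP : MeasurableSet {η | P η}) :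
    Integrable (fun η => if P η then (1 : ℝ) else 0) (law d ρ) ∧
      ∫ η, (if P η then (1 : ℝ) else 0) ∂(law d ρ) = (law d ρ).real {η | P η} := by
  have h1 : (fun η => if P η then (1 : ℝ) else 0) =
      {η | P η}.indicator fun _ => (1 : ℝ) := by
    funext η
    by_cases h : P η
    · rw [if_pos h, Set.indicator_of_mem (show η ∈ {η | P η} from h)]
    · rw [if_neg h, Set.indicator_of_notMem (show η ∉ {η | P η} from h)]
  rw [h1]
  refine ⟨(integrable_const (1 : ℝ)).indicator hP, ?_⟩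
  rw [integral_indicator hP]
  simp [Measure.real]

/-- The integrated bound. -/
lemma int_bd (hd : 0 < d) (hρ : EM ρ) (β : ℝ) (h : Vec d) {m : ℕ} (hm : 1 ≤ m) (M s w : ℝ)
    (hw : 0 < w) {tt : ℕ → ℝ} (hs : 0 ≤ s) (h0 : tt 0 = s) (k : ℕ) :
    ∫ η, |X β h η m - A ρ β h m| ^ 2 ∂(law d ρ) ≤ s ^ 2 +
      ∑ i ∈ Finset.range k, tt (i + 1) ^ 2 * (law d ρ).real {η | M + tt i ≤ X β h η m} +
      8 * (∫ η, |X β h η m - A ρ β h m| ^ 4 ∂(law d ρ) + |A ρ β h m - M| ^ 4) / w +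
      w * ((law d ρ).real {η | X β h η m < M - s} +
        (law d ρ).real {η | M + tt k ≤ X β h η m}) := by
  classical
  obtain ⟨C2, _, h2⟩ := momU (ρ := ρ) hd hρ β 2
  obtain ⟨C4, _, h4⟩ := momU (ρ := ρ) hd hρ β 4
  obtain ⟨C1, _, h1⟩ := momU (ρ := ρ) hd hρ β 1
  obtain ⟨i2, _⟩ := h2 h m hm
  obtain ⟨i4, _⟩ := h4 h m hm
  obtain ⟨i1, _⟩ := h1 h m hm
  have mX : Measurable fun η : Env d => X β h η m := measurable_X β h m
  set a : ℝ := A ρ β h m with ha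
  have i1' : Integrable (fun η => X β h η m - a) (law d ρ) := by
    refine i1.mono ((mX.sub_const a).aestronglyMeasurable)
      (Filter.Eventually.of_forall fun η => ?_)
    simp
  have iX : Integrable (fun η => X β h η m) (law d ρ) := by
    have := i1'.add (integrable_const a)
    refine this.congr (Filter.Eventually.of_forall fun η => ?_)
    simp
  have hz : ∫ η, (X β h η m - a) ∂(law d ρ) = 0 := by
    rw [integral_sub iX (integrable_const a)]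
    simp only [integral_const, probReal_univ, smul_eq_mul, one_mul]
    exact sub_self _
  -- the pointwise bound
  set T : Env d → ℝ := fun η => ∑ i ∈ Finset.range k, tt (i + 1) ^ 2 *
    (if M + tt i ≤ X β h η m then (1 : ℝ) else 0) with hT
  set F1 : Env d → ℝ := fun η => if X β h η m < M - s then (1 : ℝ) else 0 with hF1
  set F2 : Env d → ℝ := fun η => if M + tt k ≤ X β h η m then (1 : ℝ) else 0 with hF2
  have m0 : ∀ c : ℝ, MeasurableSet {η : Env d | c ≤ X β h η m} := fun c =>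
    measurableSet_le measurable_const mX
  have m1 : ∀ c : ℝ, MeasurableSet {η : Env d | X β h η m < c} := fun c =>
    measurableSet_lt mX measurable_const
  have j1 := int_ite (ρ := ρ) (m1 (M - s))
  have j2 := int_ite (ρ := ρ) (m0 (M + tt k))
  have jT : Integrable T (law d ρ) := integrable_finsetSum _ fun i _ =>
    (int_ite (ρ := ρ) (m0 (M + tt i))).1.const_mul _
  have jTv : ∫ η, T η ∂(law d ρ) =
      ∑ i ∈ Finset.range k, tt (i + 1) ^ 2 * (law d ρ).real {η | M + tt i ≤ X β h η m} := by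
    rw [hT, integral_finsetSum _ fun i _ => (int_ite (ρ := ρ) (m0 (M + tt i))).1.const_mul _]
    refine Finset.sum_congr rfl fun i _ => ?_
    rw [integral_const_mul, (int_ite (ρ := ρ) (m0 (M + tt i))).2]
  have hpt : ∀ η : Env d, |X β h η m - a| ^ 2 + 2 * (a - M) * (X β h η m - a) ≤
      s ^ 2 + T η + 8 / w * (|X β h η m - a| ^ 4 + |a - M| ^ 4) + w * (F1 η + F2 η) := by
    intro η
    have e1 := pt_bd (y := X β h η m - M) hw hs h0 k
    have e2 : ∀ i, (if tt i ≤ X β h η m - M then (1 : ℝ) else 0) =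
        if M + tt i ≤ X β h η m then (1 : ℝ) else 0 := by
      intro i
      by_cases h5 : tt i ≤ X β h η m - M
      · rw [if_pos h5, if_pos (by linarith)]
      · rw [if_neg h5, if_neg (by intro h6; exact h5 (by linarith))]
    have e3 : (if X β h η m - M < -s then (1 : ℝ) else 0) =
        if X β h η m < M - s then (1 : ℝ) else 0 := by
      by_cases h5 : X β h η m - M < -s
      · rw [if_pos h5, if_pos (by linarith)]
      · rw [if_neg h5, if_neg (by intro h6; exact h5 (by linarith))]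
    simp only [e2, e3] at e1
    have e4 : (X β h η m - M) ^ 4 ≤ 8 * (|X β h η m - a| ^ 4 + |a - M| ^ 4) := by
      have e5 : X β h η m - M = (X β h η m - a) + (a - M) := by ring
      have e6 : ∀ u v : ℝ, (u + v) ^ 4 ≤ 8 * (|u| ^ 4 + |v| ^ 4) := by
        intro u v
        have q1 : |u| ^ 4 = u ^ 4 := by
          rw [← Even.pow_abs (by decide : Even 4) u]
        have q2 : |v| ^ 4 = v ^ 4 := by
          rw [← Even.pow_abs (by decide : Even 4) v]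
        rw [q1, q2]
        have q3 : 8 * (u ^ 4 + v ^ 4) - (u + v) ^ 4 =
            (u - v) ^ 2 * (7 * u ^ 2 + 10 * (u * v) + 7 * v ^ 2) := by ring
        have q4 : 0 ≤ 7 * u ^ 2 + 10 * (u * v) + 7 * v ^ 2 := by
          nlinarith [sq_nonneg (u + v), sq_nonneg u, sq_nonneg v]
        nlinarith [mul_nonneg (sq_nonneg (u - v)) q4]
      rw [e5]
      exact e6 _ _
    have e7 : (X β h η m - M) ^ 4 / w ≤ 8 / w * (|X β h η m - a| ^ 4 + |a - M| ^ 4) := by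
      rw [div_le_iff₀ hw]
      have : 8 / w * (|X β h η m - a| ^ 4 + |a - M| ^ 4) * w =
          8 * (|X β h η m - a| ^ 4 + |a - M| ^ 4) := by field_simp
      rw [this]
      exact e4
    have e8 : (X β h η m - M) ^ 2 = |X β h η m - a| ^ 2 + 2 * (a - M) * (X β h η m - a) +
        (a - M) ^ 2 := by
      rw [sq_abs]
      ring
    have e9 : 0 ≤ (a - M) ^ 2 := sq_nonneg _
    rw [hT, hF1, hF2]
    simp only
    linarith
  have kL : Integrable (fun η => |X β h η m - a| ^ 2 + 2 * (a - M) * (X β h η m - a))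
      (law d ρ) := i2.add (i1'.const_mul _)
  have k1 : Integrable (fun η => s ^ 2 + T η) (law d ρ) := (integrable_const _).add jT
  have k2 : Integrable (fun η => 8 / w * (|X β h η m - a| ^ 4 + |a - M| ^ 4)) (law d ρ) :=
    (i4.add (integrable_const _)).const_mul _
  have k3 : Integrable (fun η => w * (F1 η + F2 η)) (law d ρ) := (j1.1.add j2.1).const_mul _
  have k12 : Integrable (fun η => s ^ 2 + T η + 8 / w * (|X β h η m - a| ^ 4 + |a - M| ^ 4))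
      (law d ρ) := k1.add k2
  have h5 : ∫ η, (|X β h η m - a| ^ 2 + 2 * (a - M) * (X β h η m - a)) ∂(law d ρ) ≤
      ∫ η, (s ^ 2 + T η + 8 / w * (|X β h η m - a| ^ 4 + |a - M| ^ 4) + w * (F1 η + F2 η))
        ∂(law d ρ) := integral_mono kL (k12.add k3) hpt
  have h6 : ∫ η, (|X β h η m - a| ^ 2 + 2 * (a - M) * (X β h η m - a)) ∂(law d ρ) =
      ∫ η, |X β h η m - a| ^ 2 ∂(law d ρ) := by
    rw [integral_add i2 (i1'.const_mul _), integral_const_mul, hz, mul_zero, add_zero]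
  have h7 : ∫ η, (s ^ 2 + T η + 8 / w * (|X β h η m - a| ^ 4 + |a - M| ^ 4) +
      w * (F1 η + F2 η)) ∂(law d ρ) = s ^ 2 + ∫ η, T η ∂(law d ρ) +
        8 / w * (∫ η, |X β h η m - a| ^ 4 ∂(law d ρ) + |a - M| ^ 4) +
        w * ((law d ρ).real {η | X β h η m < M - s} +
          (law d ρ).real {η | M + tt k ≤ X β h η m}) := by
    rw [integral_add k12 k3, integral_add k1 k2, integral_add (integrable_const _) jT,
      integral_const_mul, integral_const_mul, integral_add i4 (integrable_const _),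
      integral_add j1.1 j2.1, j1.2, j2.2]
    simp only [integral_const, probReal_univ, smul_eq_mul, one_mul]
  rw [h6, h7, jTv] at h5
  refine h5.trans (le_of_eq ?_)
  ring

end Var10

open Var10 in
/-- T7: the variance. -/
theorem varT {d : ℕ} {ρ : Measure ℝ} [IsProbabilityMeasure ρ] (hd : 0 < d) (hρ : EM ρ) (β : ℝ)
    (h : Vec d) {a : ℝ} (ha0 : 0 < a) (ha1 : a < 1) (hMed : MedT ρ β h a) (hLow : LowT ρ β h a)
    (hAdd : AddT ρ β h a) (hExc : ExcT ρ β h a) : VarT ρ β h a := by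
  intro x hx
  set x₀ : ℝ := min x ((a + 1) / 4) with hx₀
  have hxx : x₀ ≤ x := min_le_left _ _
  have hx1 : x₀ ≤ (a + 1) / 4 := min_le_right _ _
  have hx2 : a / 2 < x₀ := lt_min hx (by linarith)
  set ε : ℝ := (x₀ - a / 2) / 5 with hε
  have hε0 : 0 < ε := by
    rw [hε]
    linarith
  set b : ℝ := a / 2 + ε with hb
  set b' : ℝ := a / 2 + 2 * ε with hb'
  set c : ℝ := a / 2 + 3 * ε with hc
  have hx5 : x₀ = a / 2 + 5 * ε := by
    rw [hε]
    ring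
  have hb0 : 0 < b := by linarith
  have hbb' : b < b' := by linarith
  have hb'c : b' < c := by linarith
  have hb'2 : b' < 1 / 2 := by linarith
  have hb'0 : 0 < b' := by linarith
  obtain ⟨δ₀, hδ₀, hAdd⟩ := hAdd b (by linarith)
  obtain ⟨M, n₀, hM⟩ := hMed b (by linarith) (min δ₀ (1 / 100)) (lt_min hδ₀ (by norm_num))
  have hM1 : MedN ρ β h M b δ₀ n₀ := fun n hn => (hM n hn).trans (min_le_left _ _)
  have hM2 : MedN ρ β h M b (1 / 100) n₀ := fun n hn => (hM n hn).trans (min_le_right _ _)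
  have hM3 : MedN ρ β h M b (1 / 8) n₀ := fun n hn => (hM2 n hn).trans (by norm_num)
  have hM4 : MedN ρ β h M b (1 / 2) n₀ := fun n hn => (hM2 n hn).trans (by norm_num)
  obtain ⟨n₁, hlow⟩ := hLow b (by linarith) M n₀ hM3 b' hbb' 4
  obtain ⟨Cu, hCu, n₂, hup⟩ := up_tail (ρ := ρ) ha0 hb0 hbb' hb'c hM2 (hAdd M n₀ hM1 b' hbb') hExc
  obtain ⟨Cm, hCm, hmean⟩ := mean_near (ρ := ρ) hd hρ β h (by linarith) le_rfl hM4
  obtain ⟨Cf, hCf, hfar⟩ := far_tail (ρ := ρ) hd hρ β hε0 4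
  obtain ⟨C4, hC4, hmom⟩ := momU (ρ := ρ) hd hρ β 4
  -- the levels
  set θ : ℝ := b' / a with hθ
  have hθ1 : 1 / 2 + 2 * ε ≤ θ := by
    rw [hθ, le_div_iff₀ ha0]
    have h1 : ε * a ≤ ε * 1 := mul_le_mul_of_nonneg_left ha1.le hε0.le
    have h2 : (1 / 2 + 2 * ε) * a = a / 2 + 2 * (ε * a) := by ring
    rw [h2]
    linarith
  set k : ℕ := ⌊(θ - c) / ε⌋₊ + 1 with hk
  have hθc : 0 ≤ (θ - c) / ε := div_nonneg (by linarith) hε0.le
  have hk1 : ∀ i : ℕ, i < k → c + i * ε ≤ θ := by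
    intro i hi
    have h1 : (i : ℝ) ≤ ⌊(θ - c) / ε⌋₊ := by
      have : i ≤ ⌊(θ - c) / ε⌋₊ := by omega
      exact_mod_cast this
    have h2 := h1.trans (Nat.floor_le hθc)
    rw [le_div_iff₀ hε0] at h2
    linarith
  have hk2 : 1 / 2 + 2 * ε ≤ c + k * ε := by
    have h1 := Nat.lt_floor_add_one ((θ - c) / ε)
    rw [div_lt_iff₀ hε0] at h1
    have h2 : (k : ℝ) = ⌊(θ - c) / ε⌋₊ + 1 := by
      rw [hk]
      push_cast
      ring
    rw [h2]
    linarith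
  -- large m
  have hl1 : ∀ᶠ m : ℕ in atTop, (Cm + 2) * (m : ℝ) ^ (1 / 2 + ε) ≤ (m : ℝ) ^ (1 / 2 + 2 * ε) := by
    have h1 : Tendsto (fun m : ℕ => (m : ℝ) ^ ε) atTop atTop :=
      (tendsto_rpow_atTop hε0).comp tendsto_natCast_atTop_atTop
    filter_upwards [h1.eventually_ge_atTop (Cm + 2), eventually_ge_atTop 1] with m h2 h3
    have hm0 : (0 : ℝ) < m := by exact_mod_cast h3
    have h4 : (m : ℝ) ^ (1 / 2 + 2 * ε) = (m : ℝ) ^ ε * (m : ℝ) ^ (1 / 2 + ε) := by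
      rw [← Real.rpow_add hm0]
      congr 1
      ring
    rw [h4]
    exact mul_le_mul_of_nonneg_right h2 (by positivity)
  set CC : ℝ := 1 + k * Cu + 8 * (C4 + Cm ^ 4) + 1 + Cf with hCC
  have hCC0 : 0 ≤ CC := by positivity
  have hl2 : ∀ᶠ m : ℕ in atTop, CC * (m : ℝ) ^ (2 * c + 2 * ε) ≤ (m : ℝ) ^ (2 * x) := by
    have h1 : Tendsto (fun m : ℕ => (m : ℝ) ^ (2 * ε)) atTop atTop :=
      (tendsto_rpow_atTop (by linarith)).comp tendsto_natCast_atTop_atTop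
    filter_upwards [h1.eventually_ge_atTop CC, eventually_ge_atTop 1] with m h2 h3
    have hm1 : (1 : ℝ) ≤ m := by exact_mod_cast h3
    have hm0 : (0 : ℝ) < m := by linarith
    calc CC * (m : ℝ) ^ (2 * c + 2 * ε) ≤ (m : ℝ) ^ (2 * ε) * (m : ℝ) ^ (2 * c + 2 * ε) :=
          mul_le_mul_of_nonneg_right h2 (by positivity)
      _ = (m : ℝ) ^ (2 * ε + (2 * c + 2 * ε)) := (Real.rpow_add hm0 _ _).symm
      _ ≤ (m : ℝ) ^ (2 * x) := Real.rpow_le_rpow_of_exponent_le hm1 (by linarith)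
  obtain ⟨n₃, hn₃⟩ := eventually_atTop.1 (hl1.and hl2)
  refine ⟨n₀ + n₁ + n₂ + n₃ + 1, fun m hm => ?_⟩
  have hm' : 1 ≤ m := by omega
  have hm1 : (1 : ℝ) ≤ m := by exact_mod_cast hm'
  have hm0 : (0 : ℝ) < m := by linarith
  obtain ⟨hl1, hl2⟩ := hn₃ m (by omega)
  refine le_trans ?_ hl2
  set P : ℝ := (m : ℝ) ^ (2 * c + 2 * ε) with hP
  have hP1 : 1 ≤ P := Real.one_le_rpow hm1 (by linarith)
  have hbd := int_bd (ρ := ρ) hd hρ β h hm' (M m) ((m : ℝ) ^ c) ((m : ℝ) ^ (4 : ℝ))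
    (Real.rpow_pos_of_pos hm0 _) (tt := fun i => (m : ℝ) ^ (c + i * ε))
    (Real.rpow_nonneg hm0.le _) (by simp) k
  refine hbd.trans ?_
  -- the four terms
  have t1 : ((m : ℝ) ^ c) ^ 2 ≤ P := by
    rw [← Real.rpow_natCast, ← Real.rpow_mul hm0.le]
    refine Real.rpow_le_rpow_of_exponent_le hm1 ?_
    push_cast
    linarith
  have t2 : ∑ i ∈ Finset.range k, ((m : ℝ) ^ (c + ((i + 1 : ℕ) : ℝ) * ε)) ^ 2 *
      (law d ρ).real {η | M m + (m : ℝ) ^ (c + (i : ℝ) * ε) ≤ X β h η m} ≤ k * Cu * P := by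
    have h1 : ∀ i ∈ Finset.range k, ((m : ℝ) ^ (c + ((i + 1 : ℕ) : ℝ) * ε)) ^ 2 *
        (law d ρ).real {η | M m + (m : ℝ) ^ (c + (i : ℝ) * ε) ≤ X β h η m} ≤ Cu * P := by
      intro i hi
      have h2 := hk1 i (Finset.mem_range.1 hi)
      have hi0 : (0 : ℝ) ≤ i := Nat.cast_nonneg i
      have h3 := hup m (by omega) ((m : ℝ) ^ (c + (i : ℝ) * ε))
        (Real.rpow_le_rpow_of_exponent_le hm1
          (le_add_of_nonneg_right (mul_nonneg hi0 hε0.le)))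
        (Real.rpow_le_rpow_of_exponent_le hm1 h2)
      refine (mul_le_mul_of_nonneg_left h3 (sq_nonneg _)).trans ?_
      have h4 : ((m : ℝ) ^ (c + ((i + 1 : ℕ) : ℝ) * ε)) ^ 2 *
          (Cu * (m * ((m : ℝ) ^ (c + (i : ℝ) * ε)) ^ (-(1 / b')))) =
          Cu * (m : ℝ) ^ (2 * (c + ((i + 1 : ℕ) : ℝ) * ε) + (1 + (c + (i : ℝ) * ε) *
            (-(1 / b')))) := by
        have q1 : ((m : ℝ) ^ (c + ((i + 1 : ℕ) : ℝ) * ε)) ^ 2 =
            (m : ℝ) ^ (2 * (c + ((i + 1 : ℕ) : ℝ) * ε)) := by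
          rw [← Real.rpow_natCast ((m : ℝ) ^ (c + ((i + 1 : ℕ) : ℝ) * ε)) 2,
            ← Real.rpow_mul hm0.le]
          congr 1
          push_cast
          ring
        have q2 : ((m : ℝ) ^ (c + (i : ℝ) * ε)) ^ (-(1 / b')) =
            (m : ℝ) ^ ((c + (i : ℝ) * ε) * (-(1 / b'))) := (Real.rpow_mul hm0.le _ _).symm
        rw [q1, q2, Real.rpow_add hm0 (2 * (c + ((i + 1 : ℕ) : ℝ) * ε)), Real.rpow_add hm0 1,
          Real.rpow_one]
        ring
      rw [h4]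
      refine mul_le_mul_of_nonneg_left (Real.rpow_le_rpow_of_exponent_le hm1 ?_) hCu
      have h5 : 2 ≤ 1 / b' := by
        rw [le_div_iff₀ hb'0]
        linarith
      have h6 : 1 ≤ c * (1 / b') := by
        rw [mul_one_div, le_div_iff₀ hb'0]
        linarith
      have h7 : 0 ≤ (i : ℝ) * ε := by positivity
      have h8 : 2 * ((i : ℝ) * ε) ≤ (1 / b') * ((i : ℝ) * ε) :=
        mul_le_mul_of_nonneg_right h5 h7
      have h9 : 2 * (c + ((i + 1 : ℕ) : ℝ) * ε) + (1 + (c + (i : ℝ) * ε) * (-(1 / b'))) =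
          2 * c + 2 * ε + (1 - c * (1 / b')) + (2 * ((i : ℝ) * ε) - (1 / b') * ((i : ℝ) * ε)) := by
        push_cast
        ring
      rw [h9]
      have h10 : 1 - c * (1 / b') ≤ 0 := sub_nonpos.2 h6
      have h11 : 2 * ((i : ℝ) * ε) - (1 / b') * ((i : ℝ) * ε) ≤ 0 := sub_nonpos.2 h8
      exact (add_le_of_nonpos_right h11).trans (add_le_of_nonpos_right h10)
    refine (Finset.sum_le_sum h1).trans (le_of_eq ?_)
    rw [Finset.sum_const, Finset.card_range, nsmul_eq_mul]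
    ring
  have hmn := hmean m (by omega) hm'
  have hs4 : ((m : ℝ) ^ (1 / 2 : ℝ)) ^ 4 ≤ (m : ℝ) ^ (4 : ℝ) := by
    rw [← Real.rpow_natCast, ← Real.rpow_mul hm0.le]
    exact Real.rpow_le_rpow_of_exponent_le hm1 (by norm_num)
  have t3 : 8 * (∫ η, |X β h η m - A ρ β h m| ^ 4 ∂(law d ρ) + |A ρ β h m - M m| ^ 4) /
      (m : ℝ) ^ (4 : ℝ) ≤ 8 * (C4 + Cm ^ 4) * P := by
    have hw : 0 < (m : ℝ) ^ (4 : ℝ) := Real.rpow_pos_of_pos hm0 _
    rw [div_le_iff₀ hw]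
    have h1 := (hmom h m hm').2
    have h2 : (m : ℝ) ^ ((1 / 2 : ℝ) * (4 : ℕ)) ≤ (m : ℝ) ^ (4 : ℝ) :=
      Real.rpow_le_rpow_of_exponent_le hm1 (by norm_num)
    have h3 : |A ρ β h m - M m| ^ 4 ≤ Cm ^ 4 * (m : ℝ) ^ (4 : ℝ) := by
      refine (pow_le_pow_left₀ (abs_nonneg _) hmn 4).trans ?_
      rw [mul_pow]
      exact mul_le_mul_of_nonneg_left hs4 (by positivity)
    have h4 : ∫ η, |X β h η m - A ρ β h m| ^ 4 ∂(law d ρ) ≤ C4 * (m : ℝ) ^ (4 : ℝ) :=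
      h1.trans (mul_le_mul_of_nonneg_left h2 hC4)
    calc 8 * (∫ η, |X β h η m - A ρ β h m| ^ 4 ∂(law d ρ) + |A ρ β h m - M m| ^ 4)
        ≤ 8 * (C4 * (m : ℝ) ^ (4 : ℝ) + Cm ^ 4 * (m : ℝ) ^ (4 : ℝ)) :=
          mul_le_mul_of_nonneg_left (add_le_add h4 h3) (by norm_num)
      _ = 8 * (C4 + Cm ^ 4) * 1 * (m : ℝ) ^ (4 : ℝ) := by ring
      _ ≤ 8 * (C4 + Cm ^ 4) * P * (m : ℝ) ^ (4 : ℝ) :=
          mul_le_mul_of_nonneg_right (mul_le_mul_of_nonneg_left hP1 (by positivity)) hw.le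
  have t4 : (m : ℝ) ^ (4 : ℝ) * ((law d ρ).real {η | X β h η m < M m - (m : ℝ) ^ c} +
      (law d ρ).real {η | M m + (m : ℝ) ^ (c + (k : ℝ) * ε) ≤ X β h η m}) ≤ (1 + Cf) * P := by
    have h1 : (law d ρ).real {η | X β h η m < M m - (m : ℝ) ^ c} ≤ (m : ℝ) ^ (-((4 : ℕ) : ℝ)) := by
      refine (measureReal_mono ?_).trans (hlow m (by omega))
      intro η hη
      have h2 : X β h η m < M m - (m : ℝ) ^ c := hη
      show X β h η m < M m - (m : ℝ) ^ b'
      have h3 : (m : ℝ) ^ b' ≤ (m : ℝ) ^ c := Real.rpow_le_rpow_of_exponent_le hm1 hb'c.le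
      linarith
    have h2 : (law d ρ).real {η | M m + (m : ℝ) ^ (c + (k : ℝ) * ε) ≤ X β h η m} ≤
        Cf * (m : ℝ) ^ (-((4 : ℕ) : ℝ)) := by
      refine (measureReal_mono ?_).trans (hfar h m hm')
      intro η hη
      have h3 : M m + (m : ℝ) ^ (c + (k : ℝ) * ε) ≤ X β h η m := hη
      show (m : ℝ) ^ (1 / 2 + ε) < |X β h η m - A ρ β h m|
      have h4 : (m : ℝ) ^ (1 / 2 + 2 * ε) ≤ (m : ℝ) ^ (c + (k : ℝ) * ε) :=
        Real.rpow_le_rpow_of_exponent_le hm1 hk2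
      have h5 : 0 < (m : ℝ) ^ (1 / 2 + ε) := Real.rpow_pos_of_pos hm0 _
      have h6 := (abs_le.1 hmn).2
      have h7 : (m : ℝ) ^ (1 / 2 : ℝ) ≤ (m : ℝ) ^ (1 / 2 + ε) :=
        Real.rpow_le_rpow_of_exponent_le hm1 (by linarith)
      have h8 : Cm * (m : ℝ) ^ (1 / 2 : ℝ) ≤ Cm * (m : ℝ) ^ (1 / 2 + ε) :=
        mul_le_mul_of_nonneg_left h7 hCm
      refine lt_of_lt_of_le ?_ (le_abs_self _)
      linarith
    have hw : 0 < (m : ℝ) ^ (4 : ℝ) := Real.rpow_pos_of_pos hm0 _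
    have h3 : (m : ℝ) ^ (4 : ℝ) * (m : ℝ) ^ (-((4 : ℕ) : ℝ)) = 1 := by
      rw [← Real.rpow_add hm0]
      norm_num
    calc (m : ℝ) ^ (4 : ℝ) * ((law d ρ).real {η | X β h η m < M m - (m : ℝ) ^ c} +
        (law d ρ).real {η | M m + (m : ℝ) ^ (c + (k : ℝ) * ε) ≤ X β h η m})
        ≤ (m : ℝ) ^ (4 : ℝ) * ((m : ℝ) ^ (-((4 : ℕ) : ℝ)) + Cf * (m : ℝ) ^ (-((4 : ℕ) : ℝ))) :=
          mul_le_mul_of_nonneg_left (add_le_add h1 h2) hw.le
      _ = (1 + Cf) * ((m : ℝ) ^ (4 : ℝ) * (m : ℝ) ^ (-((4 : ℕ) : ℝ))) := by ring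
      _ = (1 + Cf) * 1 := by rw [h3]
      _ ≤ (1 + Cf) * P := mul_le_mul_of_nonneg_left hP1 (by linarith)
  have hfin : CC * P = P + k * Cu * P + 8 * (C4 + Cm ^ 4) * P + (1 + Cf) * P := by
    rw [hCC]
    ring
  rw [hfin]
  have t2' := t2
  linarith

end Pool.Agent.W_7d29a1_VT
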